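import Mathlib
set_option autoImplicit false

namespace Pool.Agent.RDOre

open Matrix

/-- The class of rings used in the construction: domains of characteristic two whose only unit is 1. -/
structure Good (R : Type) [Ring R] : Prop where
  dom : IsDomain R
  two : (2 : R) = 0
  units : ∀ u v : R, u * v = 1 → u = 1

section defs
variable {R : Type} [Ring R] {m n : Type} [Fintype m] [Fintype n] [DecidableEq m] [DecidableEq n]

/-- zero kernels on both sides -/
def Reg (A : Matrix m n R) : Prop :=
  (∀ X : Matrix n Unit R, A * X = 0 → X = 0) ∧ (∀ Y : Matrix Unit m R, Y * A = 0 → Y = 0)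

/-- the retract data for a matrix, strong form -/
def Data (A : Matrix m n R) : Prop :=
  ∃ (ρ : Matrix Unit Unit R) (α : Matrix m Unit R) (β : Matrix Unit m R) (γ : Matrix n Unit R)
    (δ : Matrix Unit n R) (s : Matrix n m R), ρ ≠ 0 ∧
    β * A = ρ * δ ∧ α * ρ = A * γ ∧ α * β = 1 + A * s ∧ γ * δ = 1 + s * A

/-- weak form -/
def GData (A : Matrix m n R) : Prop :=
  ∃ (ρ : Matrix Unit Unit R) (α : Matrix m Unit R) (β : Matrix Unit m R) (γ : Matrix n Unit R)
    (δ : Matrix Unit n R) (s : Matrix n m R),
    β * A = ρ * δ ∧ α * ρ = A * γ ∧ α * β * A = A + A * s * A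
end defs

/-! ## Generic construction: rings of additive operators -/
section gen
variable {R : Type} [Ring R] {V : Type} [AddCommGroup V] [Module R V]

/-- The operators commuting with a family of right multiplications and preserving a submodule. -/
def opRing (ρ : V → (V →ₗ[R] V)) (N : Submodule R V) : Subring (AddMonoid.End V) where
  carrier := {T | (∀ v x, T (ρ v x) = ρ v (T x)) ∧ ∀ x ∈ N, T x ∈ N}
  mul_mem' := by
    rintro S T ⟨hS, hS'⟩ ⟨hT, hT'⟩
    refine ⟨fun v x => ?_, fun x hx => hS' _ (hT' x hx)⟩
    change S (T (ρ v x)) = ρ v (S (T x))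
    rw [hT, hS]
  one_mem' := ⟨fun v x => rfl, fun x hx => hx⟩
  add_mem' := by
    rintro S T ⟨hS, hS'⟩ ⟨hT, hT'⟩
    refine ⟨fun v x => ?_, fun x hx => N.add_mem (hS' x hx) (hT' x hx)⟩
    change S (ρ v x) + T (ρ v x) = ρ v (S x + T x)
    rw [hS, hT, map_add]
  zero_mem' := by
    refine ⟨fun v x => ?_, fun x _ => N.zero_mem⟩
    change 0 = ρ v 0
    rw [map_zero]
  neg_mem' := by
    rintro S ⟨hS, hS'⟩
    refine ⟨fun v x => ?_, fun x hx => N.neg_mem (hS' x hx)⟩
    change - S (ρ v x) = ρ v (- S x)
    rw [hS, map_neg]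

/-- scalars as operators -/
def scal (ρ : V → (V →ₗ[R] V)) (N : Submodule R V) : R →+* opRing ρ N where
  toFun c := ⟨{ toFun := fun x => c • x, map_zero' := smul_zero c, map_add' := smul_add c },
    fun v x => ((ρ v).map_smul c x).symm, fun _ hx => N.smul_mem c hx⟩
  map_one' := by
    apply Subtype.ext
    apply AddMonoidHom.ext
    intro x
    exact one_smul R x
  map_mul' c d := by
    apply Subtype.ext
    apply AddMonoidHom.ext
    intro x
    exact mul_smul c d x
  map_zero' := by
    apply Subtype.ext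
    apply AddMonoidHom.ext
    intro x
    exact zero_smul R x
  map_add' c d := by
    apply Subtype.ext
    apply AddMonoidHom.ext
    intro x
    exact add_smul c d x

theorem scal_apply (ρ : V → (V →ₗ[R] V)) (N : Submodule R V) (c : R) (x : V) :
    ((scal ρ N c : opRing ρ N) : AddMonoid.End V) x = c • x := rfl

theorem opRing_good (hR : Good R) (ρ : V → (V →ₗ[R] V)) (N : Submodule R V) (one : V)
    (hone : one ∈ N) (h1 : ∀ c : R, c • one = 0 → c = 0) (hρ : ∀ v, ρ v one = v)
    (hd : ∀ τ ∈ N, ∀ v ∈ N, (∃ c : R, ρ v τ = c • one) →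
      τ = 0 ∨ v = 0 ∨ ((∃ c : R, τ = c • one) ∧ (∃ c : R, v = c • one))) :
    Good (opRing ρ N) := by
  have hdom := hR.dom
  have key : ∀ T : opRing ρ N, (T : AddMonoid.End V) one = 0 → T = 0 := by
    intro T hT
    apply Subtype.ext
    apply AddMonoidHom.ext
    intro x
    have := T.2.1 x one
    rw [hρ, hT, map_zero] at this
    exact this
  have prod : ∀ T U : opRing ρ N, ((T * U : opRing ρ N) : AddMonoid.End V) one =
      ρ ((U : AddMonoid.End V) one) ((T : AddMonoid.End V) one) := by
    intro T U
    have := T.2.1 ((U : AddMonoid.End V) one) one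
    rw [hρ] at this
    exact this
  have one0 : one ≠ 0 := by
    intro h
    have := h1 1 (by rw [h, smul_zero])
    exact one_ne_zero this
  have nz : NoZeroDivisors (opRing ρ N) := by
    constructor
    intro T U h
    have h2 := prod T U
    rw [h] at h2
    have h3 : (0 : V) = ρ ((U : AddMonoid.End V) one) ((T : AddMonoid.End V) one) := h2
    rcases hd _ (T.2.2 one hone) _ (U.2.2 one hone) ⟨0, by rw [← h3, zero_smul]⟩ with h4 | h4 | h4
    · exact Or.inl (key T h4)
    · exact Or.inr (key U h4)
    · obtain ⟨⟨c, hc⟩, ⟨d, hdd⟩⟩ := h4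
      rw [hc, map_smul, hρ, hdd, ← mul_smul] at h3
      have h5 := h1 _ h3.symm
      rcases mul_eq_zero.mp h5 with h6 | h6
      · left; apply key; rw [hc, h6, zero_smul]
      · right; apply key; rw [hdd, h6, zero_smul]
  have nt : Nontrivial (opRing ρ N) := by
    refine ⟨⟨0, 1, ?_⟩⟩
    intro h
    have : ((0 : opRing ρ N) : AddMonoid.End V) one = ((1 : opRing ρ N) : AddMonoid.End V) one := by
      rw [h]
    exact one0 this.symm
  refine ⟨?_, ?_, ?_⟩
  · exact NoZeroDivisors.to_isDomain _
  · apply Subtype.ext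
    apply AddMonoidHom.ext
    intro x
    have h2 : (2 : R) • x = 0 := by rw [hR.two, zero_smul]
    rw [two_smul] at h2
    have h3 : ((2 : opRing ρ N) : AddMonoid.End V) x = x + x := by
      have : (2 : opRing ρ N) = 1 + 1 := by norm_num
      rw [this]
      rfl
    exact h3.trans h2
  · intro T U h
    have h2 := prod T U
    rw [h] at h2
    have h3 : one = ρ ((U : AddMonoid.End V) one) ((T : AddMonoid.End V) one) := h2
    rcases hd _ (T.2.2 one hone) _ (U.2.2 one hone) ⟨1, by rw [← h3, one_smul]⟩ with h4 | h4 | h4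
    · rw [h4, map_zero] at h3
      exact absurd h3 one0
    · have h5 := key U h4
      rw [h5, mul_zero] at h
      exact absurd h.symm one_ne_zero
    · obtain ⟨⟨c, hc⟩, ⟨d, hdd⟩⟩ := h4
      rw [hc, map_smul, hρ, hdd, ← mul_smul] at h3
      have h5 : c * d = 1 := by
        have : (c * d - 1) • one = 0 := by rw [sub_smul, ← h3, one_smul, sub_self]
        exact sub_eq_zero.mp (h1 _ this)
      have h6 := hR.units c d h5
      rw [h6, one_smul] at hc
      have h7 : T - 1 = 0 := by
        apply key
        change (T : AddMonoid.End V) one - one = 0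
        rw [hc, sub_self]
      exact sub_eq_zero.mp h7

theorem scal_injective (ρ : V → (V →ₗ[R] V)) (N : Submodule R V) (one : V)
    (h1 : ∀ c : R, c • one = 0 → c = 0) : Function.Injective (scal ρ N) := by
  rw [injective_iff_map_eq_zero]
  intro c hc
  apply h1
  rw [← scal_apply ρ N c, hc]
  rfl

end gen


end Pool.Agent.RDOre
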