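import Pool.Agent.RDOre.Master
set_option autoImplicit false

/-!
# A domain over which RD-purity implies purity and which is not an Ore domain

Outline of the proof (all steps are proved in `Pool/Agent/RDOre/`).

Work in the class `Good` of domains of characteristic two whose only unit is `1`.

* `Base`: for a left `R`-module `V` with a family of right multiplications `ρ v`, the additive operators
  commuting with all of them form a ring; a criterion for this ring to be `Good`.
* `Letters`, `Step3`: a matrix `A` over a good ring `R` with zero kernels on both sides acquires, in a good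
  extension, a column `α`, rows `β, δ`, a column `γ`, a nonzero element `ρ` and a matrix `s` with
  `β A = ρ δ`, `α ρ = A γ`, `α β = 1 + A s`, `γ δ = 1 + s A`. Thus the cyclically presented module of `ρ`
  and the module of `A` become stably equivalent. The extension is given by generators and these relations;
  the normal form is realised by explicit operators and the domain property is a leading term argument.
* `StepE`, `StepE2`: for every matrix `A` there is a good extension with an idempotent matrix `e`, `A e = 0`,
  which is the identity on the kernel of `A` (and the left-handed version, by passing to opposite rings).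
* `FreeLetters`: free extensions by letters commuting with the base ring keep these kernels.
* `Master`: bordering `A` by the idempotents `e`, `f` of its kernels and by a matrix `c` of letters (multiplied
  by the idempotents) gives a matrix with zero kernels; so every matrix gets the weak form `GData` of the data
  in a good extension.
* `Limit`: all matrices at once (ultraproduct over finite sets of tasks) and the limit of the chain.
* Here: `GData` for all matrices implies that RD-purity is purity (`pure_of_GData`). We start with a ring with
  `a R ∩ b R = 0` and apply Step 3 to the matrix `(a b)`; the equations keep its kernel zero in all further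
  extensions.
-/

namespace Pool.Agent.RDOre

open Matrix

/-- a starting ring -/
theorem start : ∃ (R : Type) (_ : Ring R) (a b : R), Good R ∧ a ≠ 0 ∧ b ≠ 0 ∧
    (∀ x y : R, a * x = b * y → x = 0 ∧ y = 0) := by
  have hg : Good (ZMod 2) := by
    refine ⟨inferInstance, by decide, by decide⟩
  obtain ⟨S, _, φ, X, gS, _, h1, _⟩ := stepL hg (Fin 2)
  have := gS.dom
  have hne : ∀ k, X k ≠ 0 := by
    intro k hk
    have h2 := h1 (Pi.single k 1) (by
      rw [Finset.sum_eq_single k]
      · rw [hk, zero_mul]
      · intro j _ hj
        rw [Pi.single_eq_of_ne hj, mul_zero]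
      · intro h
        exact absurd (Finset.mem_univ _) h)
    have h3 := congr_fun h2 k
    rw [Pi.single_eq_same] at h3
    exact one_ne_zero h3
  refine ⟨S, inferInstance, X 0, X 1, gS, hne 0, hne 1, ?_⟩
  intro x y hxy
  have h2 := h1 ![x, -y] (by
    rw [Fin.sum_univ_two]
    simp [hxy])
  have h3 := congr_fun h2 0
  have h4 := congr_fun h2 1
  simp at h3 h4
  exact ⟨h3, h4⟩

section act
variable {R : Type} [Ring R] {M : Type} [AddCommGroup M] [Module R M]
variable {m n p : Type} [Fintype m] [Fintype n] [Fintype p]

/-- matrices acting on vectors with entries in a module -/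
def act (A : Matrix m n R) (x : n → M) : m → M := fun i => ∑ j, A i j • x j

theorem act_mul (A : Matrix m n R) (B : Matrix n p R) (x : p → M) :
    act (A * B) x = act A (act B x) := by
  funext i
  simp only [act, Matrix.mul_apply, Finset.sum_smul, Finset.smul_sum, mul_smul]
  rw [Finset.sum_comm]

theorem act_add (A B : Matrix m n R) (x : n → M) : act (A + B) x = act A x + act B x := by
  funext i
  simp [act, add_smul, Finset.sum_add_distrib]

theorem act_sub' (A : Matrix m n R) (x y : n → M) : act A (x - y) = act A x - act A y := by
  funext i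
  simp [act, smul_sub, Finset.sum_sub_distrib]

theorem act_mem (N : Submodule R M) (A : Matrix m n R) (x : n → M) (hx : ∀ j, x j ∈ N) :
    ∀ i, act A x i ∈ N := fun i => Submodule.sum_mem _ fun j _ => N.smul_mem _ (hx j)
end act

theorem pure_of_GData {R : Type} [Ring R] {m n : Type} [Fintype m] [Fintype n] [DecidableEq m]
    [DecidableEq n] {A : Matrix m n R} (h : GData A)
    {M : Type} [AddCommGroup M] [Module R M] (N : Submodule R M)
    (hN : ∀ (r : R) (x : M), r • x ∈ N → ∃ y ∈ N, r • y = r • x)
    (x : n → M) (hx : ∀ i, act A x i ∈ N) :
    ∃ y : n → M, (∀ j, y j ∈ N) ∧ act A y = act A x := by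
  obtain ⟨ρ, α, β, γ, δ, s, h1, h2, h3⟩ := h
  have e1 : act ρ (act δ x) = act β (act A x) := by
    rw [← act_mul, ← act_mul, h1]
  have e2 : ρ () () • (act δ x ()) ∈ N := by
    have := act_mem N β _ hx ()
    rw [← e1] at this
    simpa [act] using this
  obtain ⟨y0, hy0, hy1⟩ := hN _ _ e2
  have e3 : act ρ (fun _ : Unit => y0) = act ρ (act δ x) := by
    funext i
    simpa [act] using hy1
  refine ⟨act γ (fun _ => y0) - act s (act A x), ?_, ?_⟩
  · intro j
    exact N.sub_mem (act_mem N γ _ (fun _ => hy0) j) (act_mem N s _ hx j)
  · rw [act_sub', ← act_mul, ← h2, act_mul, e3, e1, ← act_mul, ← act_mul, h3, act_add,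
      ← act_mul, ← act_mul]
    simp

theorem final :
    ¬ (∀ (R : Type) [Ring R] [IsDomain R],
      (∀ (M : Type) [AddCommGroup M] [Module R M] (N : Submodule R M),
        (∀ (r : R) (x : M), r • x ∈ N → ∃ y ∈ N, r • y = r • x) →
        ∀ (m n : ℕ) (A : Matrix (Fin m) (Fin n) R) (x : Fin n → M),
          (∀ i, (∑ j, A i j • x j) ∈ N) →
          ∃ y : Fin n → M, (∀ j, y j ∈ N) ∧
            ∀ i, (∑ j, A i j • y j) = ∑ j, A i j • x j) →
      ∀ a b : R, a ≠ 0 → b ≠ 0 →
        (∃ x y : R, x ≠ 0 ∧ y ≠ 0 ∧ a * x = b * y) ∧
        (∃ x y : R, x ≠ 0 ∧ y ≠ 0 ∧ x * a = y * b)) := by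
  intro H
  obtain ⟨R0, _, a, b, g0, ha, hb, hab⟩ := start
  have : IsDomain R0 := g0.dom
  set A0 : Matrix Unit (Fin 2) R0 := Matrix.of fun _ k => if k = 0 then a else b with hA0
  have hreg : Reg A0 := by
    constructor
    · intro X hX
      have h1 := congrFun (congrFun hX ()) ()
      simp [hA0, Matrix.mul_apply, Fin.sum_univ_two] at h1
      have h2 : a * X 0 () = b * (- X 1 ()) := by
        rw [mul_neg]; exact eq_neg_of_add_eq_zero_left h1
      have h3 := hab _ _ h2
      ext i j
      fin_cases i
      · simpa using h3.1
      · simpa using h3.2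
    · intro Y hY
      have h1 := congrFun (congrFun hY ()) 0
      simp [hA0, Matrix.mul_apply] at h1
      ext i j
      rcases h1 with h1 | h1
      · simpa using h1
      · exact absurd h1 ha
  obtain ⟨R1, _, φ1, g1, i1, d1⟩ := step3 g0 A0 hreg
  obtain ⟨S, _, φ2, g2, i2, all⟩ := stepOmega g1 (fun {R} _ hR => stepAll hR (fun {_} _ hR _ _ A => master hR A))
  have : IsDomain S := g2.dom
  have d2 := (d1.map φ2 i2).reg
  have key := H S (by
    intro M _ _ N hN m n A x hx
    obtain ⟨y, hy1, hy2⟩ := pure_of_GData (all m n A) N hN x hx
    exact ⟨y, hy1, fun i => congrFun hy2 i⟩) (φ2 (φ1 a)) (φ2 (φ1 b))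
    (by
      intro h
      exact ha (i1 (i2 (by simpa using h))))
    (by
      intro h
      exact hb (i1 (i2 (by simpa using h))))
  obtain ⟨⟨x, y, hx, hy, hxy⟩, -⟩ := key
  have h1 := d2.1 (Matrix.of fun k _ => if k = 0 then x else -y) (by
    ext i j
    simp [hA0, Matrix.mul_apply, Fin.sum_univ_two, hxy])
  have h2 := congrFun (congrFun h1 0) ()
  simp at h2
  exact hx h2


end Pool.Agent.RDOre
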