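import Pool.Agent.RDOre.Base
set_option autoImplicit false

namespace Pool.Agent.RDOre

open Matrix

theorem units_aux {R : Type} [Ring R] (hR : Good R) (κ : Type)
    (f g : MonoidAlgebra R (FreeMonoid κ)) (h : f * g = 1) : f = 1 := by
  classical
  have := hR.dom
  have hf : f ≠ 0 := by
    rintro rfl
    rw [zero_mul] at h
    exact zero_ne_one h
  have hg : g ≠ 0 := by
    rintro rfl
    rw [mul_zero] at h
    exact zero_ne_one h
  have hfs : f.coeff.support.Nonempty := by
    rw [Finsupp.support_nonempty_iff]
    exact fun h0 => hf (MonoidAlgebra.coeff_eq_zero.1 h0)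
  have hgs : g.coeff.support.Nonempty := by
    rw [Finsupp.support_nonempty_iff]
    exact fun h0 => hg (MonoidAlgebra.coeff_eq_zero.1 h0)
  -- a unique product equals one
  have key : ∀ x ∈ f.coeff.support, ∀ y ∈ g.coeff.support,
      UniqueMul f.coeff.support g.coeff.support x y → x * y = 1 := by
    intro x hx y hy hu
    by_contra hne
    have h1 := MonoidAlgebra.coeff_mul_mul_of_uniqueMul hu
    rw [h, MonoidAlgebra.one_def, MonoidAlgebra.coeff_single, Finsupp.single_apply,
      if_neg (fun h => hne h.symm)] at h1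
    rw [Finsupp.mem_support_iff] at hx hy
    exact mul_ne_zero hx hy h1.symm
  have hc : ¬ (1 < f.coeff.support.card * g.coeff.support.card) := by
    intro hc
    obtain ⟨p1, hp1, p2, hp2, hne, hu1, hu2⟩ := TwoUniqueProds.uniqueMul_of_one_lt_card hc
    rw [Finset.mem_product] at hp1 hp2
    have e1 := key _ hp1.1 _ hp1.2 hu1
    have e2 := key _ hp2.1 _ hp2.2 hu2
    have := hu1 hp2.1 hp2.2 (e2.trans e1.symm)
    exact hne (Prod.ext this.1.symm this.2.symm)
  have hfc : 0 < f.coeff.support.card := Finset.card_pos.2 hfs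
  have hgc : 0 < g.coeff.support.card := Finset.card_pos.2 hgs
  have hf1 : f.coeff.support.card = 1 := by
    by_contra hne
    apply hc
    have : 2 ≤ f.coeff.support.card := by omega
    calc 1 < 2 * 1 := by norm_num
      _ ≤ _ := Nat.mul_le_mul this hgc
  have hg1 : g.coeff.support.card = 1 := by
    by_contra hne
    apply hc
    have : 2 ≤ g.coeff.support.card := by omega
    calc 1 < 1 * 2 := by norm_num
      _ ≤ _ := Nat.mul_le_mul hfc this
  rw [Finsupp.card_support_eq_one] at hf1 hg1
  obtain ⟨x, hx0, hx⟩ := hf1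
  obtain ⟨y, hy0, hy⟩ := hg1
  have hfx : f = MonoidAlgebra.single x (f.coeff x) := MonoidAlgebra.coeff_injective (by
    rw [MonoidAlgebra.coeff_single]; exact hx)
  have hgy : g = MonoidAlgebra.single y (g.coeff y) := MonoidAlgebra.coeff_injective (by
    rw [MonoidAlgebra.coeff_single]; exact hy)
  generalize f.coeff x = a at *
  generalize g.coeff y = b at *
  rw [hfx, hgy, MonoidAlgebra.single_mul_single, MonoidAlgebra.one_def,
    MonoidAlgebra.single_inj] at h
  rcases h with ⟨hxy, hab⟩ | ⟨-, h1⟩
  · have hx1 : x = 1 := by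
      have := congrArg FreeMonoid.length hxy
      rw [FreeMonoid.length_mul, FreeMonoid.length_one] at this
      apply FreeMonoid.length_eq_zero.1
      omega
    rw [hfx, hx1, hR.units a b hab, MonoidAlgebra.one_def]
  · exact absurd h1 one_ne_zero

/-- free letters -/
theorem stepL {R : Type} [Ring R] (hR : Good R) (κ : Type) [Fintype κ] [DecidableEq κ] :
    ∃ (S : Type) (_ : Ring S) (φ : R →+* S) (X : κ → S), Good S ∧ Function.Injective φ ∧
      (∀ τ : κ → S, ∑ k, X k * τ k = 0 → τ = 0) ∧
      (∀ τ : κ → S, ∑ k, τ k * X k = 0 → τ = 0) ∧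
      (∀ k a, X k * φ a = φ a * X k) ∧
      (∀ (m n : Type) [Fintype m] [Fintype n] [DecidableEq m] [DecidableEq n]
        (A : Matrix m n R) (e : Matrix n n R),
        (∀ X : Matrix n Unit R, A * X = 0 → e * X = X) →
        (∀ X : Matrix n Unit S, A.map φ * X = 0 → e.map φ * X = X)) ∧
      (∀ (m n : Type) [Fintype m] [Fintype n] [DecidableEq m] [DecidableEq n]
        (A : Matrix m n R) (f : Matrix m m R),
        (∀ Y : Matrix Unit m R, Y * A = 0 → Y * f = Y) →
        (∀ Y : Matrix Unit m S, Y * A.map φ = 0 → Y * f.map φ = Y)) := by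
  classical
  have := hR.dom
  refine ⟨MonoidAlgebra R (FreeMonoid κ), inferInstance, MonoidAlgebra.singleOneRingHom,
    fun k => MonoidAlgebra.single (FreeMonoid.of k) 1, ⟨inferInstance, ?_, ?_⟩, ?_, ?_, ?_, ?_, ?_, ?_⟩
  · rw [MonoidAlgebra.ofNat_def, hR.two, MonoidAlgebra.single_zero]
  · exact fun u v huv => units_aux hR κ u v huv
  · intro a b hab
    exact MonoidAlgebra.single_right_injective hab
  · intro τ hτ
    funext k0
    apply MonoidAlgebra.coeff_injective
    ext w
    have h1 : (∑ k, MonoidAlgebra.single (FreeMonoid.of k) 1 * τ k).coeff (FreeMonoid.of k0 * w) = 0 := by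
      rw [hτ]; rfl
    rw [MonoidAlgebra.coeff_sum, Finsupp.finsetSum_apply, Finset.sum_eq_single k0] at h1
    · rw [MonoidAlgebra.coeff_single_mul_eq_mul_coeff w
        (fun m' _ => ⟨fun h => mul_left_cancel h, fun h => by rw [h]⟩), one_mul] at h1
      exact h1
    · intro k _ hk
      apply MonoidAlgebra.coeff_single_mul_of_forall_mul_ne
      intro d hd
      have := congrArg FreeMonoid.toList hd
      rw [FreeMonoid.toList_mul, FreeMonoid.toList_mul, FreeMonoid.toList_of,
        FreeMonoid.toList_of] at this
      simp at this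
      exact hk this.1
    · intro h; exact absurd (Finset.mem_univ _) h
  · intro τ hτ
    funext k0
    apply MonoidAlgebra.coeff_injective
    ext w
    have h1 : (∑ k, τ k * MonoidAlgebra.single (FreeMonoid.of k) 1).coeff (w * FreeMonoid.of k0) = 0 := by
      rw [hτ]; rfl
    rw [MonoidAlgebra.coeff_sum, Finsupp.finsetSum_apply, Finset.sum_eq_single k0] at h1
    · rw [MonoidAlgebra.coeff_mul_single_eq_coeff_mul w
        (fun m' _ => ⟨fun h => mul_right_cancel h, fun h => by rw [h]⟩), mul_one] at h1
      exact h1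
    · intro k _ hk
      apply MonoidAlgebra.coeff_mul_single_of_forall_mul_ne
      intro d hd
      have := congrArg FreeMonoid.toList hd
      rw [FreeMonoid.toList_mul, FreeMonoid.toList_mul, FreeMonoid.toList_of,
        FreeMonoid.toList_of] at this
      have h2 := List.append_inj_right' this rfl
      simp at h2
      exact hk h2
    · intro h; exact absurd (Finset.mem_univ _) h
  · intro k a
    simp [MonoidAlgebra.singleOneRingHom]
  · intro m n _ _ _ _ A e hA X hX
    have hc : ∀ (p : Type) (B : Matrix p n R) (i : p) (j : Unit) (w : FreeMonoid κ),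
        ((B.map (MonoidAlgebra.singleOneRingHom (M := FreeMonoid κ)) * X) i j).coeff w =
          (B * (X.map fun s => s.coeff w)) i j := by
      intro p B i j w
      rw [Matrix.mul_apply, Matrix.mul_apply, MonoidAlgebra.coeff_sum, Finsupp.finsetSum_apply]
      exact Finset.sum_congr rfl fun x _ => MonoidAlgebra.coeff_single_one_mul (X x j) (B i x) w
    have h1 : ∀ w : FreeMonoid κ, A * (X.map fun s => s.coeff w) = 0 := by
      intro w
      ext i j
      rw [← hc m A i j w, hX]
      rfl
    funext i j
    apply MonoidAlgebra.coeff_injective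
    ext w
    rw [hc n e i j w, hA _ (h1 w)]
    rfl
  · intro m n _ _ _ _ A e hA X hX
    have hc : ∀ (p : Type) (B : Matrix m p R) (i : Unit) (j : p) (w : FreeMonoid κ),
        ((X * B.map (MonoidAlgebra.singleOneRingHom (M := FreeMonoid κ))) i j).coeff w =
          ((X.map fun s => s.coeff w) * B) i j := by
      intro p B i j w
      rw [Matrix.mul_apply, Matrix.mul_apply, MonoidAlgebra.coeff_sum, Finsupp.finsetSum_apply]
      exact Finset.sum_congr rfl fun x _ => MonoidAlgebra.coeff_mul_single_one (X i x) (B x j) w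
    have h1 : ∀ w : FreeMonoid κ, (X.map fun s => s.coeff w) * A = 0 := by
      intro w
      ext i j
      rw [← hc n A i j w, hX]
      rfl
    funext i j
    apply MonoidAlgebra.coeff_injective
    ext w
    rw [hc m e i j w, hA _ (h1 w)]
    rfl


end Pool.Agent.RDOre
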