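import Pool.Agent.RDOre.Base
set_option autoImplicit false

namespace Pool.Agent.RDOre

open Matrix

/-! ## Step 3: the letters and the operators -/

/-- the letters -/
inductive Lt (m n : Type) : Type
  | a (i : m) | b (j : m) | c (l : n) | d (j : n) | s (l : n) (j : m) | r
  deriving DecidableEq

namespace S3

/-- pairs of letters that can be reduced -/
def red {m n : Type} : Lt m n → Lt m n → Bool
  | .a _, .b _ => true
  | .a _, .r => true
  | .c _, .d _ => true
  | .r, .d _ => true
  | _, _ => false

abbrev Wd (m n I : Type) := List (Lt m n × I)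

section
variable {R : Type} [Ring R] [Algebra (ZMod 2) R] {m n : Type} [Fintype m] [Fintype n]
  [DecidableEq m] [DecidableEq n] {I : Type} [DecidableEq I]
  (A : Matrix m n R) (B : Module.Basis I (ZMod 2) R) (i₀ : I)

/-- left coefficient expanded after a letter -/
noncomputable def pre (x : Lt m n) (W : Wd m n I) : R →ₗ[ZMod 2] (Wd m n I →₀ R) :=
  B.constr (ZMod 2) (fun u => Finsupp.single ((x, u) :: W) (1 : R))

/-- the right hand sides of the rewriting rules -/
noncomputable def rwr (x y : Lt m n) (t : I) (W : Wd m n I) : Wd m n I →₀ R :=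
  match x, y with
  | .a i, .b j => (if i = j then Finsupp.single W (B t) else 0) +
      ∑ l, Finsupp.single ((Lt.s l j, t) :: W) (A i l)
  | .a i, .r => ∑ l, Finsupp.single ((Lt.c l, t) :: W) (A i l)
  | .c l, .d j => (if l = j then Finsupp.single W (B t) else 0) +
      ∑ p, pre B (Lt.s l p) W (A p j * B t)
  | .r, .d j => ∑ p, pre B (Lt.b p) W (A p j * B t)
  | _, _ => 0

/-- whether a letter with a coefficient can be reduced with the following word -/
def redex (x : Lt m n) (i : I) : Wd m n I → Bool
  | [] => false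
  | (y, _) :: _ => decide (i = i₀) && red x y

/-- rewriting with the first letter of a word -/
noncomputable def rw0 (x : Lt m n) (W : Wd m n I) : Wd m n I →₀ R :=
  match W with
  | [] => 0
  | (y, t) :: W' => rwr A B x y t W'

/-- action of a letter on a basis vector -/
noncomputable def chi (x : Lt m n) (i : I) (W : Wd m n I) : Wd m n I →₀ R :=
  if redex i₀ x i W = true then rw0 A B x W else Finsupp.single ((x, i) :: W) 1

/-- the operator of a letter -/
noncomputable def X (x : Lt m n) : (Wd m n I →₀ R) →ₗ[ZMod 2] (Wd m n I →₀ R) :=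
  Finsupp.lsum (ZMod 2) fun W => B.constr (ZMod 2) fun i => chi A B i₀ x i W

theorem X_single (x : Lt m n) (W : Wd m n I) (i : I) :
    X A B i₀ x (Finsupp.single W (B i)) = chi A B i₀ x i W := by
  simp [X]

omit [Fintype m] [Fintype n] [DecidableEq m] [DecidableEq n] [DecidableEq I] in
theorem vind {p : (Wd m n I →₀ R) → Prop} (h0 : p 0) (hadd : ∀ x y, p x → p y → p (x + y))
    (hs : ∀ W i, p (Finsupp.single W (B i))) : ∀ z, p z := by
  intro z
  refine Finsupp.induction_linear z h0 (fun x y hx hy => hadd x y hx hy) ?_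
  intro W c
  have hc : c ∈ Submodule.span (ZMod 2) (Set.range B) := by rw [B.span_eq]; trivial
  induction hc using Submodule.span_induction with
  | mem x hx => obtain ⟨i, rfl⟩ := hx; exact hs W i
  | zero => rw [Finsupp.single_zero]; exact h0
  | add x y _ _ hx hy => rw [Finsupp.single_add]; exact hadd _ _ hx hy
  | smul k x _ hx =>
    have hk : k = 0 ∨ k = 1 := by
      revert k; decide
    rcases hk with rfl | rfl
    · rw [zero_smul, Finsupp.single_zero]; exact h0
    · rw [one_smul]; exact hx

/-- letters that never start a reducible pair -/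
def nf : Lt m n → Bool
  | .b _ => true
  | .d _ => true
  | .s _ _ => true
  | _ => false

omit [Fintype m] [Fintype n] [DecidableEq m] [DecidableEq n] in
theorem redex_nf {x : Lt m n} (hx : nf x = true) (i : I) (W : Wd m n I) :
    redex i₀ x i W = false := by
  rcases W with _ | ⟨⟨y, t⟩, W⟩
  · rfl
  · cases x <;> simp_all [nf, redex, red]

theorem X_nf {x : Lt m n} (hx : nf x = true) (W : Wd m n I) (c : R) :
    X A B i₀ x (Finsupp.single W c) = pre B x W c := by
  have : (X A B i₀ x) ∘ₗ (Finsupp.lsingle W) = pre B x W := by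
    apply B.ext
    intro i
    simp only [LinearMap.comp_apply, Finsupp.lsingle_apply]
    rw [X_single, chi, redex_nf i₀ hx]
    simp [pre]
  exact LinearMap.congr_fun this c

omit [Fintype m] [Fintype n] [DecidableEq m] [DecidableEq n] [DecidableEq I] in
theorem pre_basis (x : Lt m n) (W : Wd m n I) (i : I) :
    pre B x W (B i) = Finsupp.single ((x, i) :: W) (1 : R) := by
  simp [pre]

variable (hB : B i₀ = 1)
include hB

theorem R3 (i j : m) (z : Wd m n I →₀ R) :
    X A B i₀ (.a i) (X A B i₀ (.b j) z) = (if i = j then z else 0) +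
      ∑ l, A i l • X A B i₀ (.s l j) z := by
  revert z
  refine vind B ?_ ?_ ?_
  · simp
  · intro x y hx hy
    simp only [map_add, hx, hy, smul_add, Finset.sum_add_distrib]
    split_ifs <;> abel
  · intro W u
    rw [X_nf A B i₀ (by rfl), pre_basis, ← hB, X_single, chi]
    have h1 : redex i₀ (Lt.a i : Lt m n) i₀ ((Lt.b j, u) :: W) = true := by simp [redex, red]
    rw [if_pos h1]
    simp only [rw0, rwr]
    congr 1
    refine Finset.sum_congr rfl fun l _ => ?_
    rw [X_nf A B i₀ (by rfl), pre_basis, Finsupp.smul_single, smul_eq_mul, mul_one]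

theorem R4 (l j : n) (z : Wd m n I →₀ R) :
    X A B i₀ (.c l) (X A B i₀ (.d j) z) = (if l = j then z else 0) +
      ∑ p, X A B i₀ (.s l p) (A p j • z) := by
  revert z
  refine vind B ?_ ?_ ?_
  · simp
  · intro x y hx hy
    simp only [map_add, hx, hy, smul_add, Finset.sum_add_distrib]
    split_ifs <;> abel
  · intro W u
    rw [X_nf A B i₀ (by rfl), pre_basis, ← hB, X_single, chi]
    have h1 : redex i₀ (Lt.c l : Lt m n) i₀ ((Lt.d j, u) :: W) = true := by simp [redex, red]
    rw [if_pos h1]
    simp only [rw0, rwr]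
    congr 1
    refine Finset.sum_congr rfl fun p _ => ?_
    rw [Finsupp.smul_single, smul_eq_mul, X_nf A B i₀ (by rfl)]

theorem R1 (l : n) (z : Wd m n I →₀ R) :
    X A B i₀ .r (X A B i₀ (.d l) z) = ∑ j, X A B i₀ (.b j) (A j l • z) := by
  revert z
  refine vind B ?_ ?_ ?_
  · simp
  · intro x y hx hy
    simp only [map_add, hx, hy, smul_add, Finset.sum_add_distrib]
  · intro W u
    rw [X_nf A B i₀ (by rfl), pre_basis, ← hB, X_single, chi]
    have h1 : redex i₀ (Lt.r : Lt m n) i₀ ((Lt.d l, u) :: W) = true := by simp [redex, red]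
    rw [if_pos h1]
    simp only [rw0, rwr]
    refine Finset.sum_congr rfl fun p _ => ?_
    rw [Finsupp.smul_single, smul_eq_mul, X_nf A B i₀ (by rfl)]

omit hB [Fintype m] [Fintype n] [DecidableEq m] [DecidableEq n] in
theorem redex_c_r (l : n) (u : I) (W : Wd m n I) :
    redex i₀ (Lt.c l : Lt m n) u W = redex i₀ Lt.r u W := by
  rcases W with _ | ⟨⟨y, t⟩, W⟩
  · rfl
  · cases y <;> simp [redex, red]

theorem R2 (i : m) (z : Wd m n I →₀ R) :
    X A B i₀ (.a i) (X A B i₀ .r z) = ∑ l, A i l • X A B i₀ (.c l) z := by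
  revert z
  refine vind B ?_ ?_ ?_
  · simp
  · intro x y hx hy
    simp only [map_add, hx, hy, smul_add, Finset.sum_add_distrib]
  · intro W u
    rw [X_single, chi]
    by_cases h1 : redex i₀ (Lt.r : Lt m n) u W = true
    · rw [if_pos h1]
      rcases W with _ | ⟨⟨y, t⟩, W⟩
      · simp [redex] at h1
      · cases y with
        | d j =>
          have hu : u = i₀ := by simpa [redex, red] using h1
          subst hu
          simp only [rw0, rwr]
          have e1 : ∀ l, X A B u (Lt.c l) (Finsupp.single ((Lt.d j, t) :: W) (B u)) =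
              (if l = j then Finsupp.single W (B t) else 0) +
              ∑ p, pre B (Lt.s l p) W (A p j * B t) := by
            intro l
            rw [X_single, chi, redex_c_r, if_pos h1]
            rfl
          simp only [e1]
          rw [map_sum]
          have e2 : ∀ p, X A B u (Lt.a i) (pre B (Lt.b p) W (A p j * B t)) =
              (if i = p then Finsupp.single W (A p j * B t) else 0) +
              ∑ l, A i l • pre B (Lt.s l p) W (A p j * B t) := by
            intro p
            rw [← X_nf A B u (by rfl : nf (Lt.b p : Lt m n) = true), R3 A B u hB]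
            congr 1
            refine Finset.sum_congr rfl fun l _ => ?_
            rw [X_nf A B u (by rfl)]
          simp only [e2, Finset.sum_add_distrib, smul_add, Finset.smul_sum]
          congr 1
          · simp
          · rw [Finset.sum_comm]
        | a _ => simp [redex, red] at h1
        | b _ => simp [redex, red] at h1
        | c _ => simp [redex, red] at h1
        | s _ _ => simp [redex, red] at h1
        | r => simp [redex, red] at h1
    · rw [if_neg h1, ← hB, X_single, chi]
      have h2 : redex i₀ (Lt.a i : Lt m n) i₀ ((Lt.r, u) :: W) = true := by simp [redex, red]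
      rw [if_pos h2]
      simp only [rw0, rwr]
      refine Finset.sum_congr rfl fun l _ => ?_
      rw [X_single, chi, redex_c_r, if_neg h1, Finsupp.smul_single, smul_eq_mul, mul_one]

omit hB in
/-- the vector obtained by letting a word act -/
noncomputable def P (v : Wd m n I →₀ R) : Wd m n I → (Wd m n I →₀ R)
  | [] => v
  | (x, i) :: W => X A B i₀ x (B i • P v W)

omit hB in
/-- right multiplication by `v` -/
noncomputable def rho (v : Wd m n I →₀ R) : (Wd m n I →₀ R) →ₗ[R] (Wd m n I →₀ R) :=
  Finsupp.linearCombination R (P A B i₀ v)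

omit hB in
theorem rho_single (v : Wd m n I →₀ R) (W : Wd m n I) (c : R) :
    rho A B i₀ v (Finsupp.single W c) = c • P A B i₀ v W := by
  simp [rho]

omit hB in
theorem rho_pre (v : Wd m n I →₀ R) (x : Lt m n) (W : Wd m n I) (c : R) :
    rho A B i₀ v (pre B x W c) = X A B i₀ x (c • P A B i₀ v W) := by
  have hc : c ∈ Submodule.span (ZMod 2) (Set.range B) := by rw [B.span_eq]; trivial
  induction hc using Submodule.span_induction with
  | mem y hy =>
    obtain ⟨i, rfl⟩ := hy
    rw [pre_basis, rho_single, one_smul, P]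
  | zero => simp
  | add x y _ _ hx hy => rw [map_add, map_add, hx, hy, add_smul, map_add]
  | smul k x _ hx =>
    have hk : k = 0 ∨ k = 1 := by
      revert k; decide
    rcases hk with rfl | rfl
    · simp
    · rw [one_smul]; exact hx

theorem comm (v : Wd m n I →₀ R) (x : Lt m n) (z : Wd m n I →₀ R) :
    X A B i₀ x (rho A B i₀ v z) = rho A B i₀ v (X A B i₀ x z) := by
  revert z
  refine vind B ?_ ?_ ?_
  · simp
  · intro x y hx hy
    simp only [map_add, hx, hy]
  · intro W i
    rw [rho_single, X_single, chi]
    by_cases h : redex i₀ x i W = true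
    · rw [if_pos h]
      rcases W with _ | ⟨⟨y, t⟩, W⟩
      · simp [redex] at h
      · have hi : i = i₀ := by
          simp only [redex, Bool.and_eq_true, decide_eq_true_eq] at h
          exact h.1
        have hr : red x y = true := by
          simp only [redex, Bool.and_eq_true, decide_eq_true_eq] at h
          exact h.2
        subst hi
        rw [hB, one_smul, P]
        set z' := B t • P A B i v W with hz'
        cases x <;> cases y <;> simp only [red, Bool.false_eq_true] at hr
        case a.b i' j =>
          rw [R3 A B i hB]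
          simp only [rw0, rwr, map_add, map_sum, rho_single]
          congr 1
          · split_ifs
            · rw [rho_single]
            · simp
        case a.r i' =>
          rw [R2 A B i hB]
          simp only [rw0, rwr, map_sum, rho_single]
          rfl
        case c.d l j =>
          rw [R4 A B i hB]
          simp only [rw0, rwr, map_add, map_sum, rho_pre]
          congr 1
          · split_ifs
            · rw [rho_single]
            · simp
          · refine Finset.sum_congr rfl fun p _ => ?_
            rw [hz', smul_smul]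
        case r.d j =>
          rw [R1 A B i hB]
          simp only [rw0, rwr, map_sum, rho_pre]
          refine Finset.sum_congr rfl fun p _ => ?_
          rw [hz', smul_smul]
    · rw [if_neg h, rho_single, one_smul, P]

omit hB in
/-- normal words -/
def Nrm : Wd m n I → Prop
  | [] => True
  | (x, i) :: W => redex i₀ x i W = false ∧ Nrm W

omit hB in
/-- the normal part -/
noncomputable def NN (R : Type) [Ring R] (m n : Type) {I : Type} [DecidableEq I] (i₀ : I) :
    Submodule R (Wd m n I →₀ R) :=
  Finsupp.supported R R {W | Nrm i₀ W}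

omit hB [Algebra (ZMod 2) R] [Fintype m] [Fintype n] [DecidableEq m] [DecidableEq n] in
theorem single_mem_NN {W : Wd m n I} (h : Nrm i₀ W) (c : R) : Finsupp.single W c ∈ NN R m n i₀ :=
  Finsupp.single_mem_supported R c h

omit hB in
theorem pre_mem_NN {x : Lt m n} {W : Wd m n I} (h : Nrm i₀ W) (hx : nf x = true) (c : R) :
    pre B x W c ∈ NN R m n i₀ := by
  have hc : c ∈ Submodule.span (ZMod 2) (Set.range B) := by rw [B.span_eq]; trivial
  induction hc using Submodule.span_induction with
  | mem y hy =>
    obtain ⟨i, rfl⟩ := hy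
    rw [pre_basis]
    exact single_mem_NN (R := R) i₀ (W := (x, i) :: W) ⟨redex_nf i₀ hx i W, h⟩ _
  | zero => simp
  | add x y _ _ hx hy => rw [map_add]; exact Submodule.add_mem _ hx hy
  | smul k x _ hx =>
    have hk : k = 0 ∨ k = 1 := by
      revert k; decide
    rcases hk with rfl | rfl
    · simp
    · rw [one_smul]; exact hx

omit hB in
theorem chi_mem_NN (x : Lt m n) (i : I) {W : Wd m n I} (hW : Nrm i₀ W) :
    chi A B i₀ x i W ∈ NN R m n i₀ := by
  rw [chi]
  by_cases h : redex i₀ x i W = true
  · rw [if_pos h]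
    rcases W with _ | ⟨⟨y, t⟩, W⟩
    · exact Submodule.zero_mem _
    · have hr : red x y = true := by
        simp only [redex, Bool.and_eq_true, decide_eq_true_eq] at h
        exact h.2
      obtain ⟨hW1, hW2⟩ := hW
      cases x <;> cases y <;> simp only [red, Bool.false_eq_true] at hr
      case a.b i' j =>
        simp only [rw0, rwr]
        refine Submodule.add_mem _ ?_ (Submodule.sum_mem _ fun l _ => ?_)
        · split_ifs
          · exact single_mem_NN i₀ hW2 _
          · exact Submodule.zero_mem _
        · exact single_mem_NN (R := R) i₀ (W := (Lt.s l j, t) :: W)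
            ⟨redex_nf i₀ (by rfl) _ _, hW2⟩ _
      case a.r i' =>
        simp only [rw0, rwr]
        refine Submodule.sum_mem _ fun l _ => ?_
        exact single_mem_NN (R := R) i₀ (W := (Lt.c l, t) :: W)
          ⟨by rw [redex_c_r]; exact hW1, hW2⟩ _
      case c.d l j =>
        simp only [rw0, rwr]
        refine Submodule.add_mem _ ?_ (Submodule.sum_mem _ fun l _ => ?_)
        · split_ifs
          · exact single_mem_NN i₀ hW2 _
          · exact Submodule.zero_mem _
        · exact pre_mem_NN B i₀ hW2 (by rfl) _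
      case r.d j =>
        simp only [rw0, rwr]
        refine Submodule.sum_mem _ fun l _ => ?_
        exact pre_mem_NN B i₀ hW2 (by rfl) _
  · rw [if_neg h]
    exact single_mem_NN (R := R) i₀ (W := (x, i) :: W) ⟨by simpa using h, hW⟩ _

omit hB in
theorem X_mem_NN (x : Lt m n) {z : Wd m n I →₀ R} (hz : z ∈ NN R m n i₀) :
    X A B i₀ x z ∈ NN R m n i₀ := by
  have key : ∀ (W : Wd m n I) (_ : Nrm i₀ W) (c : R),
      X A B i₀ x (Finsupp.single W c) ∈ NN R m n i₀ := by
    intro W hW c
    have hc : c ∈ Submodule.span (ZMod 2) (Set.range B) := by rw [B.span_eq]; trivial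
    induction hc using Submodule.span_induction with
    | mem y hy =>
      obtain ⟨i, rfl⟩ := hy
      rw [X_single]
      exact chi_mem_NN A B i₀ x i hW
    | zero => simp
    | add x y _ _ hx hy =>
      rw [Finsupp.single_add, map_add]; exact Submodule.add_mem _ hx hy
    | smul k x _ hx =>
      have hk : k = 0 ∨ k = 1 := by
        revert k; decide
      rcases hk with rfl | rfl
      · simp
      · rw [one_smul]; exact hx
  have hsum : z = z.sum Finsupp.single := (Finsupp.sum_single z).symm
  rw [hsum, Finsupp.sum, map_sum]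
  refine Submodule.sum_mem _ fun W hW => ?_
  exact key W (hz hW) _


/-! ### degree arguments -/

omit hB in
/-- the non-rewriting part of a letter -/
noncomputable def main (x : Lt m n) : (Wd m n I →₀ R) →ₗ[ZMod 2] (Wd m n I →₀ R) :=
  Finsupp.lsum (ZMod 2) fun W => B.constr (ZMod 2) fun i =>
    if redex i₀ x i W = true then 0 else Finsupp.single ((x, i) :: W) 1

omit hB in
/-- the rewriting part of a letter -/
noncomputable def rew (x : Lt m n) : (Wd m n I →₀ R) →ₗ[ZMod 2] (Wd m n I →₀ R) :=
  Finsupp.lsum (ZMod 2) fun W => B.constr (ZMod 2) fun i =>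
    if redex i₀ x i W = true then rw0 A B x W else 0

omit hB [Fintype m] [Fintype n] [DecidableEq m] [DecidableEq n] in
theorem main_single (x : Lt m n) (W : Wd m n I) (i : I) :
    main B i₀ x (Finsupp.single W (B i)) =
      if redex i₀ x i W = true then 0 else Finsupp.single ((x, i) :: W) (1 : R) := by
  simp [main]

omit hB in
theorem rew_single (x : Lt m n) (W : Wd m n I) (i : I) :
    rew A B i₀ x (Finsupp.single W (B i)) = if redex i₀ x i W = true then rw0 A B x W else 0 := by
  simp [rew]

omit hB in
theorem X_eq (x : Lt m n) (z : Wd m n I →₀ R) :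
    X A B i₀ x z = main B i₀ x z + rew A B i₀ x z := by
  revert z
  refine vind B ?_ ?_ ?_
  · simp
  · intro z z' h h'
    rw [map_add, map_add, map_add, h, h']
    abel
  · intro W i
    rw [X_single, main_single, rew_single, chi]
    split_ifs <;> simp

omit hB [Algebra (ZMod 2) R] [Fintype m] [Fintype n] [DecidableEq m] [DecidableEq n] in
/-- words of bounded length -/
noncomputable def Dle (R : Type) [Ring R] (m n I : Type) (d : ℕ) : Submodule R (Wd m n I →₀ R) :=
  Finsupp.supported R R {W | W.length ≤ d}

omit hB [Algebra (ZMod 2) R] [Fintype m] [Fintype n] [DecidableEq m] [DecidableEq n]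
  [DecidableEq I] in
theorem single_mem_Dle {W : Wd m n I} {d : ℕ} (h : W.length ≤ d) (c : R) :
    Finsupp.single W c ∈ Dle R m n I d :=
  Finsupp.single_mem_supported R c h

omit hB [Algebra (ZMod 2) R] [Fintype m] [Fintype n] [DecidableEq m] [DecidableEq n]
  [DecidableEq I] in
theorem Dle_mono {d d' : ℕ} (h : d ≤ d') : Dle R m n I d ≤ Dle R m n I d' :=
  Finsupp.supported_mono fun _ hW => le_trans hW h

omit hB [Algebra (ZMod 2) R] [Fintype m] [Fintype n] [DecidableEq m] [DecidableEq n]
  [DecidableEq I] in
theorem Dle_apply {d : ℕ} {z : Wd m n I →₀ R} (hz : z ∈ Dle R m n I d) {Z : Wd m n I}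
    (h : d < Z.length) : z Z = 0 := by
  by_contra h1
  have := hz (Finsupp.mem_support_iff.mpr h1)
  exact absurd this (by simpa using h)

omit hB [Fintype m] [Fintype n] [DecidableEq m] [DecidableEq n] [DecidableEq I] in
/-- induction over the basis for a supported submodule -/
theorem sind (S : Set (Wd m n I)) (N : Submodule R (Wd m n I →₀ R))
    (f : (Wd m n I →₀ R) →ₗ[ZMod 2] (Wd m n I →₀ R))
    (h : ∀ W ∈ S, ∀ i, f (Finsupp.single W (B i)) ∈ N) :
    ∀ z ∈ Finsupp.supported R R S, f z ∈ N := by
  intro z hz
  have key : ∀ W ∈ S, ∀ c : R, f (Finsupp.single W c) ∈ N := by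
    intro W hW c
    have hc : c ∈ Submodule.span (ZMod 2) (Set.range B) := by rw [B.span_eq]; trivial
    induction hc using Submodule.span_induction with
    | mem y hy =>
      obtain ⟨i, rfl⟩ := hy
      exact h W hW i
    | zero => simp
    | add x y _ _ hx hy =>
      rw [Finsupp.single_add, map_add]; exact Submodule.add_mem _ hx hy
    | smul k x _ hx =>
      have hk : k = 0 ∨ k = 1 := by
        revert k; decide
      rcases hk with rfl | rfl
      · simp
      · rw [one_smul]; exact hx
  have hsum : z = z.sum Finsupp.single := (Finsupp.sum_single z).symm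
  rw [hsum, Finsupp.sum, map_sum]
  exact Submodule.sum_mem _ fun W hW => key W (hz hW) _

omit hB [Fintype m] [Fintype n] [DecidableEq m] [DecidableEq n] [DecidableEq I] in
theorem pre_mem_Dle (x : Lt m n) {W : Wd m n I} {d : ℕ} (h : W.length + 1 ≤ d) (c : R) :
    pre B x W c ∈ Dle R m n I d := by
  have hc : c ∈ Submodule.span (ZMod 2) (Set.range B) := by rw [B.span_eq]; trivial
  induction hc using Submodule.span_induction with
  | mem y hy =>
    obtain ⟨i, rfl⟩ := hy
    rw [pre_basis]
    exact single_mem_Dle (by simpa using h) _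
  | zero => simp
  | add x y _ _ hx hy => rw [map_add]; exact Submodule.add_mem _ hx hy
  | smul k x _ hx =>
    have hk : k = 0 ∨ k = 1 := by
      revert k; decide
    rcases hk with rfl | rfl
    · simp
    · rw [one_smul]; exact hx

omit hB in
theorem rw0_mem_Dle (x : Lt m n) (W : Wd m n I) {d : ℕ} (h : W.length ≤ d) :
    rw0 A B x W ∈ Dle R m n I d := by
  rcases W with _ | ⟨⟨y, t⟩, W⟩
  · exact Submodule.zero_mem _
  · simp only [List.length_cons] at h
    simp only [rw0]
    unfold rwr
    split
    · refine Submodule.add_mem _ ?_ (Submodule.sum_mem _ fun l _ => ?_)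
      · split_ifs
        · exact single_mem_Dle (by omega) _
        · exact Submodule.zero_mem _
      · exact single_mem_Dle (by simpa using h) _
    · exact Submodule.sum_mem _ fun l _ => single_mem_Dle (by simpa using h) _
    · refine Submodule.add_mem _ ?_ (Submodule.sum_mem _ fun l _ => pre_mem_Dle B _ h _)
      split_ifs
      · exact single_mem_Dle (by omega) _
      · exact Submodule.zero_mem _
    · exact Submodule.sum_mem _ fun l _ => pre_mem_Dle B _ h _
    · exact Submodule.zero_mem _

omit hB [Fintype m] [Fintype n] [DecidableEq m] [DecidableEq n] in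
theorem main_mem_Dle (x : Lt m n) {d : ℕ} {z : Wd m n I →₀ R} (hz : z ∈ Dle R m n I d) :
    main B i₀ x z ∈ Dle R m n I (d + 1) := by
  refine sind B _ _ _ ?_ z hz
  intro W hW i
  rw [main_single]
  split_ifs
  · exact Submodule.zero_mem _
  · exact single_mem_Dle (by simpa using hW) _

omit hB in
theorem rew_mem_Dle (x : Lt m n) {d : ℕ} {z : Wd m n I →₀ R} (hz : z ∈ Dle R m n I d) :
    rew A B i₀ x z ∈ Dle R m n I d := by
  refine sind B _ _ _ ?_ z hz
  intro W hW i
  rw [rew_single]
  split_ifs
  · exact rw0_mem_Dle A B x W hW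
  · exact Submodule.zero_mem _

omit hB in
theorem X_mem_Dle (x : Lt m n) {d : ℕ} {z : Wd m n I →₀ R} (hz : z ∈ Dle R m n I d) :
    X A B i₀ x z ∈ Dle R m n I (d + 1) := by
  rw [X_eq]
  exact Submodule.add_mem _ (main_mem_Dle B i₀ x hz)
    (Dle_mono (Nat.le_succ d) (rew_mem_Dle A B i₀ x hz))

omit hB in
theorem P_mem_Dle {d : ℕ} {z : Wd m n I →₀ R} (hz : z ∈ Dle R m n I d) (W : Wd m n I) :
    P A B i₀ z W ∈ Dle R m n I (d + W.length) := by
  induction W with
  | nil => exact hz
  | cons p W ih =>
    obtain ⟨x, i⟩ := p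
    exact X_mem_Dle A B i₀ x (Submodule.smul_mem _ _ ih)

omit hB in
theorem P_append (z : Wd m n I →₀ R) (W W' : Wd m n I) :
    P A B i₀ z (W ++ W') = P A B i₀ (P A B i₀ z W') W := by
  induction W with
  | nil => rfl
  | cons p W ih =>
    obtain ⟨x, i⟩ := p
    simp only [List.cons_append, P, ih]

omit hB in
theorem P_add (z z' : Wd m n I →₀ R) (W : Wd m n I) :
    P A B i₀ (z + z') W = P A B i₀ z W + P A B i₀ z' W := by
  induction W with
  | nil => rfl
  | cons p W ih =>
    obtain ⟨x, i⟩ := p
    simp only [P, ih, smul_add, map_add]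

omit hB in
theorem P_zero (W : Wd m n I) : P A B i₀ 0 W = 0 := by
  induction W with
  | nil => rfl
  | cons p W ih =>
    obtain ⟨x, i⟩ := p
    simp only [P, ih, smul_zero, map_zero]

omit hB in
theorem P_sum {ι : Type} (s : Finset ι) (f : ι → (Wd m n I →₀ R)) (W : Wd m n I) :
    P A B i₀ (∑ k ∈ s, f k) W = ∑ k ∈ s, P A B i₀ (f k) W := by
  classical
  induction s using Finset.induction_on with
  | empty => simp [P_zero]
  | insert a s ha ih => rw [Finset.sum_insert ha, Finset.sum_insert ha, P_add, ih]

omit hB [Fintype m] [Fintype n] [DecidableEq m] [DecidableEq n] in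
theorem main_apply [DecidableEq (Lt m n)] (x : Lt m n) (z : Wd m n I →₀ R) (y : Lt m n) (w : I)
    (U : Wd m n I) :
    main B i₀ x z ((y, w) :: U) =
      if y = x ∧ redex i₀ x w U = false then algebraMap (ZMod 2) R (B.repr (z U) w) else 0 := by
  revert z
  refine vind B ?_ ?_ ?_
  · simp
  · intro z z' h h'
    rw [map_add, Finsupp.add_apply, h, h', Finsupp.add_apply, map_add, Finsupp.add_apply, map_add]
    split_ifs <;> simp
  · intro W i
    rw [main_single]
    by_cases hW : W = U
    · subst hW
      rw [Finsupp.single_eq_same, B.repr_self]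
      by_cases hi : i = w
      · subst hi
        rw [Finsupp.single_eq_same, map_one]
        by_cases hr : redex i₀ x i W = true
        · rw [if_pos hr, if_neg (by simp [hr])]
          rfl
        · rw [if_neg hr]
          by_cases hy : y = x
          · subst hy
            rw [Finsupp.single_eq_same, if_pos ⟨rfl, by simpa using hr⟩]
          · rw [if_neg (fun h => hy h.1), Finsupp.single_eq_of_ne]
            intro h
            simp only [List.cons.injEq, Prod.mk.injEq] at h
            first | exact hy h.1.1 | exact hy h.1.1.symm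
      · rw [Finsupp.single_eq_of_ne (by first | exact hi | exact Ne.symm hi), map_zero, ite_self]
        split_ifs
        · rfl
        · rw [Finsupp.single_eq_of_ne]
          intro h
          simp only [List.cons.injEq, Prod.mk.injEq] at h
          first | exact hi h.1.2 | exact hi h.1.2.symm
    · rw [Finsupp.single_eq_of_ne (by first | exact hW | exact Ne.symm hW), map_zero,
        Finsupp.zero_apply, map_zero, ite_self]
      split_ifs
      · rfl
      · rw [Finsupp.single_eq_of_ne]
        intro h
        simp only [List.cons.injEq, Prod.mk.injEq] at h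
        first | exact hW h.2 | exact hW h.2.symm

omit hB [Fintype m] [Fintype n] [DecidableEq m] [DecidableEq n] in
theorem main_nil (x : Lt m n) (z : Wd m n I →₀ R) : main B i₀ x z [] = 0 := by
  revert z
  refine vind B ?_ ?_ ?_
  · simp
  · intro z z' h h'
    rw [map_add, Finsupp.add_apply, h, h', add_zero]
  · intro W i
    rw [main_single]
    split_ifs
    · rfl
    · rw [Finsupp.single_eq_of_ne]
      simp

omit hB [Algebra (ZMod 2) R] [Fintype m] [Fintype n] [DecidableEq m] [DecidableEq n]
  [DecidableEq I] in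
theorem md_apply [DecidableEq (Wd m n I)] {W' W1 : Wd m n I} (h : W'.length = W1.length)
    (f : Wd m n I →₀ R) (Z : Wd m n I) :
    (Finsupp.mapDomain (fun U => W' ++ U) f) (W1 ++ Z) = if W' = W1 then f Z else 0 := by
  split_ifs with h1
  · subst h1
    exact Finsupp.mapDomain_apply (List.append_right_injective W') f Z
  · apply Finsupp.mapDomain_of_notMem_range
    rintro ⟨Z', hZ'⟩
    exact h1 (List.append_inj_left hZ' h)

/-- normality of a word followed by a letter -/
def NrmL {m n I : Type} [DecidableEq I] (i₀ : I) (W : Wd m n I) (y : Lt m n) : Prop :=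
  ∀ (u : I), Nrm i₀ (W ++ [(y, u)])

omit hB [Algebra (ZMod 2) R] [Fintype m] [Fintype n] [DecidableEq m] [DecidableEq n] in
theorem redex_append (x : Lt m n) (i : I) (W : Wd m n I) (y : Lt m n) (u u' : I) (U : Wd m n I) :
    redex i₀ x i (W ++ (y, u) :: U) = redex i₀ x i (W ++ [(y, u')]) := by
  rcases W with _ | ⟨p, W⟩ <;> rfl

omit hB in
/-- exactness: a normal word acts on a compatible word by concatenation -/
theorem P_exact (W : Wd m n I) (y : Lt m n) (hW : NrmL i₀ W y) (hB : B i₀ = 1) (u : I)
    (U : Wd m n I) :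
    P A B i₀ (Finsupp.single ((y, u) :: U) (1 : R)) W = Finsupp.single (W ++ (y, u) :: U) 1 := by
  induction W with
  | nil => rfl
  | cons p W ih =>
    obtain ⟨x, i⟩ := p
    have h1 : NrmL i₀ W y := fun u => (hW u).2
    have h2 : redex i₀ x i (W ++ (y, u) :: U) = false := by
      rw [redex_append i₀ x i W y u u U]
      exact (hW u).1
    rw [P, ih h1, Finsupp.smul_single, smul_eq_mul, mul_one, X_single, chi, h2]
    simp

omit hB in
theorem P_main (W : Wd m n I) (y : Lt m n) (hW : NrmL i₀ W y) (hB : B i₀ = 1)
    (z : Wd m n I →₀ R) :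
    P A B i₀ (main B i₀ y z) W = Finsupp.mapDomain (fun U => W ++ U) (main B i₀ y z) := by
  revert z
  refine vind B ?_ ?_ ?_
  · simp [P_zero]
  · intro z z' h h'
    rw [map_add, P_add, h, h', Finsupp.mapDomain_add]
  · intro V i
    rw [main_single]
    split_ifs
    · simp [P_zero]
    · rw [P_exact A B i₀ W y hW hB, Finsupp.mapDomain_single]

omit hB in
theorem P_concat (W : Wd m n I) (x : Lt m n) (i : I) (hW : NrmL i₀ W x) (hB : B i₀ = 1)
    (z : Wd m n I →₀ R) :
    P A B i₀ z (W ++ [(x, i)]) = Finsupp.mapDomain (fun U => W ++ U) (main B i₀ x (B i • z)) +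
      P A B i₀ (rew A B i₀ x (B i • z)) W := by
  rw [P_append, P, P, X_eq, P_add, P_main A B i₀ W x hW hB]

omit hB [Algebra (ZMod 2) R] [Fintype m] [Fintype n] [DecidableEq m] [DecidableEq n] in
theorem NrmL_of (W : Wd m n I) (x : Lt m n) (i : I) (h : Nrm i₀ (W ++ [(x, i)])) :
    NrmL i₀ W x := by
  intro u
  induction W with
  | nil => exact ⟨rfl, trivial⟩
  | cons p W ih =>
    obtain ⟨y, j⟩ := p
    refine ⟨?_, ih h.2⟩
    have h1 : redex i₀ y j (W ++ [(x, i)]) = false := h.1
    rw [redex_append i₀ y j W x i u []] at h1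
    exact h1

/-! ### the domain property -/

omit hB [Fintype m] [Fintype n] [DecidableEq m] [DecidableEq n] in
theorem main_nf {x : Lt m n} (hx : nf x = true) (W : Wd m n I) (c : R) :
    main B i₀ x (Finsupp.single W c) = pre B x W c := by
  have : (main B i₀ x) ∘ₗ (Finsupp.lsingle W) = pre B x W := by
    apply B.ext
    intro i
    simp only [LinearMap.comp_apply, Finsupp.lsingle_apply]
    rw [main_single, redex_nf i₀ hx, pre_basis]
    simp
  exact LinearMap.congr_fun this c

omit hB [Fintype m] [Fintype n] [DecidableEq m] [DecidableEq n] in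
include i₀ in
theorem pre_apply [DecidableEq (Lt m n)] [DecidableEq (Wd m n I)] {x : Lt m n} (hx : nf x = true)
    (W : Wd m n I) (c : R) (y : Lt m n) (w : I) (U : Wd m n I) :
    pre B x W c ((y, w) :: U) =
      if y = x ∧ W = U then algebraMap (ZMod 2) R (B.repr c w) else 0 := by
  rw [← main_nf B i₀ hx, main_apply, redex_nf i₀ hx]
  by_cases h : W = U
  · subst h
    rw [Finsupp.single_eq_same]
    simp
  · rw [Finsupp.single_eq_of_ne (by first | exact h | exact Ne.symm h)]
    simp [h]

/-- letters that never end a reducible pair -/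
def ns : Lt m n → Bool
  | .b _ => false
  | .d _ => false
  | .r => false
  | _ => true

omit hB [Algebra (ZMod 2) R] [Fintype m] [Fintype n] [DecidableEq m] [DecidableEq n] in
theorem redex_ns {y : Lt m n} (hy : ns y = true) (x : Lt m n) (i t : I) (W : Wd m n I) :
    redex i₀ x i ((y, t) :: W) = false := by
  cases x <;> cases y <;> simp_all [ns, redex, red]

omit hB in
theorem rew_ns {y : Lt m n} (hy : ns y = true) (x : Lt m n) (t : I) (W : Wd m n I) (c : R) :
    rew A B i₀ x (Finsupp.single ((y, t) :: W) c) = 0 := by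
  have : (rew A B i₀ x) ∘ₗ (Finsupp.lsingle ((y, t) :: W)) = 0 := by
    apply B.ext
    intro i
    simp only [LinearMap.comp_apply, Finsupp.lsingle_apply, LinearMap.zero_apply]
    rw [rew_single, redex_ns i₀ hy]
    simp
  exact LinearMap.congr_fun this c

omit hB in
theorem P_ns (hB : B i₀ = 1) {q : Lt m n} (hq : ns q = true) (W2 : Wd m n I) (x2 : Lt m n)
    (i2 : I) (hW : NrmL i₀ W2 x2) (t : I) (U : Wd m n I) (c : R) :
    P A B i₀ (Finsupp.single ((q, t) :: U) c) (W2 ++ [(x2, i2)]) =
      Finsupp.mapDomain (fun U => W2 ++ U)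
        (main B i₀ x2 (Finsupp.single ((q, t) :: U) (B i2 * c))) := by
  rw [P_concat A B i₀ W2 x2 i2 hW hB, Finsupp.smul_single, smul_eq_mul, rew_ns A B i₀ hq, P_zero,
    add_zero]

omit hB [Algebra (ZMod 2) R] [Fintype m] [Fintype n] [DecidableEq m] [DecidableEq n] in
theorem NrmL_mono {x q : Lt m n} (h : ∀ y, red y q = true → red y x = true) {W : Wd m n I}
    (hW : NrmL i₀ W x) : NrmL i₀ W q := by
  intro u
  have hu := hW u
  induction W with
  | nil => exact ⟨rfl, trivial⟩
  | cons p W ih =>
    obtain ⟨y, j⟩ := p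
    refine ⟨?_, ih (fun u => (hW u).2) hu.2⟩
    rcases W with _ | ⟨p', W⟩
    · have h1 : redex i₀ y j [(x, u)] = false := hu.1
      change redex i₀ y j [(q, u)] = false
      simp only [redex, Bool.and_eq_false_iff, decide_eq_false_iff_not] at h1 ⊢
      rcases h1 with h1 | h1
      · exact Or.inl h1
      · right
        by_contra h2
        simp only [Bool.not_eq_false] at h2
        rw [h y h2] at h1
        exact absurd h1 (by simp)
    · exact hu.1

omit hB in
theorem P_pre (hB : B i₀ = 1) {q : Lt m n} (hq : nf q = true) (W : Wd m n I) (hW : NrmL i₀ W q)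
    (U : Wd m n I) (c : R) :
    P A B i₀ (pre B q U c) W = Finsupp.mapDomain (fun U => W ++ U) (pre B q U c) := by
  rw [← main_nf B i₀ hq, P_main A B i₀ W q hW hB]

section dom
variable [DecidableEq (Lt m n)] [DecidableEq (Wd m n I)]

omit hB in
/-- the last coefficient of a word with given prefix and last letter -/
noncomputable def pick (W1 : Wd m n I) (x : Lt m n) (W : Wd m n I) : R :=
  if W.dropLast = W1 then
    (match W.getLast? with
      | some (x', i) => if x' = x then B i else 0
      | none => 0)
  else 0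

omit hB [Fintype m] [Fintype n] [DecidableEq m] [DecidableEq n] [DecidableEq I] in
theorem pick_concat (W1 : Wd m n I) (x : Lt m n) (W' : Wd m n I) (x' : Lt m n) (i : I) :
    pick B W1 x (W' ++ [(x', i)]) = if W' = W1 ∧ x' = x then B i else 0 := by
  unfold pick
  rw [List.dropLast_concat, List.getLast?_concat]
  by_cases h : W' = W1 <;> by_cases h' : x' = x <;> simp [h, h']

omit hB in
theorem algmap_inj [Nontrivial R] {a : ZMod 2} (h : algebraMap (ZMod 2) R a = 0) : a = 0 :=
  (map_eq_zero (algebraMap (ZMod 2) R)).mp h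

omit hB in
theorem top_formula (hB : B i₀ = 1) {v : Wd m n I →₀ R} {N d : ℕ} (hv : v ∈ Dle R m n I d)
    {W : Wd m n I} (hW : Nrm i₀ W) (hW0 : W ≠ []) (hWN : W.length ≤ N) {W1 : Wd m n I}
    (hW1 : W1.length + 1 = N) (x : Lt m n) (w : I) {U : Wd m n I} (hU : U.length = d)
    (hr : redex i₀ x w U = false) :
    (P A B i₀ v W) (W1 ++ (x, w) :: U) =
      algebraMap (ZMod 2) R (B.repr (pick B W1 x W * v U) w) := by
  obtain ⟨W', ⟨x', i'⟩, rfl⟩ : ∃ W' p, W = W' ++ [p] :=
    ⟨W.dropLast, W.getLast hW0, (List.dropLast_append_getLast hW0).symm⟩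
  rw [pick_concat]
  have hlen : (W' ++ [(x', i')]).length = W'.length + 1 := by simp
  have hlZ : (W1 ++ (x, w) :: U).length = N + d := by simp; omega
  rw [hlen] at hWN
  by_cases hl : W'.length + 1 = N
  · have hnl := NrmL_of i₀ W' x' i' hW
    rw [P_concat A B i₀ W' x' i' hnl hB, Finsupp.add_apply, md_apply (by omega)]
    have h2 : (P A B i₀ (rew A B i₀ x' (B i' • v)) W') (W1 ++ (x, w) :: U) = 0 := by
      apply Dle_apply (P_mem_Dle A B i₀ (rew_mem_Dle A B i₀ x' (Submodule.smul_mem _ _ hv)) W')
      rw [hlZ]; omega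
    rw [h2, add_zero]
    by_cases h3 : W' = W1
    · rw [if_pos h3, main_apply]
      by_cases h4 : x' = x
      · subst h4
        rw [if_pos ⟨rfl, hr⟩, if_pos ⟨h3, rfl⟩, Finsupp.smul_apply, smul_eq_mul]
      · rw [if_neg (fun h => h4 h.1.symm), if_neg (fun h => h4 h.2)]
        simp
    · rw [if_neg h3, if_neg (fun h => h3 h.1)]
      simp
  · have h3 : ¬ (W' = W1 ∧ x' = x) := by
      rintro ⟨rfl, -⟩
      exact hl hW1
    rw [if_neg h3]
    simp only [zero_mul, map_zero, Finsupp.zero_apply]
    apply Dle_apply (P_mem_Dle A B i₀ hv _)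
    rw [hlZ, hlen]
    omega

omit hB in
theorem repr_pick (T : Finset (Wd m n I)) (hT : ∀ W ∈ T, W ≠ []) (W1 : Wd m n I) (x : Lt m n)
    (i : I) : B.repr (∑ W ∈ T, pick B W1 x W) i = if W1 ++ [(x, i)] ∈ T then 1 else 0 := by
  rw [map_sum, Finsupp.finset_sum_apply]
  have h1 : ∀ W ∈ T, B.repr (pick B W1 x W) i = if W1 ++ [(x, i)] = W then 1 else 0 := by
    intro W hW
    obtain ⟨W', ⟨x', i'⟩, rfl⟩ : ∃ W' p, W = W' ++ [p] :=
      ⟨W.dropLast, W.getLast (hT W hW), (List.dropLast_append_getLast (hT W hW)).symm⟩
    rw [pick_concat]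
    by_cases h : W' = W1 ∧ x' = x
    · obtain ⟨rfl, rfl⟩ := h
      rw [if_pos ⟨rfl, rfl⟩, B.repr_self]
      by_cases hi : i' = i
      · subst hi
        simp
      · rw [Finsupp.single_eq_of_ne (by first | exact hi | exact Ne.symm hi), if_neg]
        intro h
        apply hi
        have := List.append_inj_right h rfl
        simp at this
        exact this.symm
    · rw [if_neg h, map_zero, Finsupp.zero_apply, if_neg]
      intro h'
      apply h
      have h2 := List.append_inj' h' rfl
      refine ⟨h2.1.symm, ?_⟩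
      have := h2.2
      simp at this
      exact this.1.symm
  rw [Finset.sum_congr rfl h1, Finset.sum_ite_eq]

omit hB in
/-- analysis of the top terms -/
theorem stepA [IsDomain R] (hB : B i₀ = 1) (hu : ∀ u v : R, u * v = 1 → u = 1)
    {v : Wd m n I →₀ R} {N d : ℕ} (hv : v ∈ Dle R m n I d) (T : Finset (Wd m n I))
    (hT : ∀ W ∈ T, Nrm i₀ W ∧ W ≠ [] ∧ W.length ≤ N) (hN : 2 ≤ N)
    (hZ : ∀ Z : Wd m n I, 2 ≤ Z.length → (∑ W ∈ T, P A B i₀ v W) Z = 0)
    {W1 : Wd m n I} {x : Lt m n} {i : I} (hW1 : W1 ++ [(x, i)] ∈ T) (hl : W1.length + 1 = N)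
    {U : Wd m n I} (hU : U.length = d) (hvU : v U ≠ 0) :
    i = i₀ ∧ v U = 1 ∧ ∃ y t U', U = (y, t) :: U' ∧ red x y = true := by
  set y0 : R := ∑ W ∈ T, pick B W1 x W with hy0
  have hr0 : B.repr y0 i = 1 := by
    rw [hy0, repr_pick B T (fun W hW => (hT W hW).2.1), if_pos hW1]
  have hy00 : y0 ≠ 0 := by
    intro h
    rw [h] at hr0
    simp at hr0
  have hc0 : y0 * v U ≠ 0 := mul_ne_zero hy00 hvU
  have hcoef : ∀ w, redex i₀ x w U = false → B.repr (y0 * v U) w = 0 := by
    intro w hw
    apply algmap_inj (R := R)
    have h1 := hZ (W1 ++ (x, w) :: U) (by simp; omega)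
    rw [Finsupp.finset_sum_apply] at h1
    rw [← h1, hy0, Finset.sum_mul, map_sum, Finsupp.finset_sum_apply, map_sum]
    refine Finset.sum_congr rfl fun W hW => ?_
    obtain ⟨h2, h3, h4⟩ := hT W hW
    exact (top_formula A B i₀ hB hv h2 h3 h4 hl x w hU hw).symm
  obtain ⟨w, hw⟩ : ∃ w, B.repr (y0 * v U) w ≠ 0 := by
    by_contra h
    push Not at h
    apply hc0
    apply B.repr.injective
    ext w
    simpa using h w
  have hred : ∀ w, B.repr (y0 * v U) w ≠ 0 → redex i₀ x w U = true := by
    intro w hw
    by_contra h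
    exact hw (hcoef w (by simpa using h))
  have hwr := hred w hw
  obtain ⟨y, t, U', hUe, hry, hwi⟩ : ∃ y t U', U = (y, t) :: U' ∧ red x y = true ∧ w = i₀ := by
    rcases U with _ | ⟨⟨y, t⟩, U'⟩
    · simp [redex] at hwr
    · simp only [redex, Bool.and_eq_true, decide_eq_true_eq] at hwr
      exact ⟨y, t, U', rfl, hwr.2, hwr.1⟩
  have hall : ∀ w, B.repr (y0 * v U) w ≠ 0 → w = i₀ := by
    intro w hw
    have := hred w hw
    rw [hUe] at this
    simp only [redex, Bool.and_eq_true, decide_eq_true_eq] at this
    exact this.1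
  have hrepr : B.repr (y0 * v U) = Finsupp.single i₀ 1 := by
    ext w'
    by_cases h : w' = i₀
    · subst h
      rw [Finsupp.single_eq_same]
      rw [hwi] at hw
      revert hw
      generalize B.repr (y0 * v U) w' = a
      revert a
      decide
    · rw [Finsupp.single_eq_of_ne (by first | exact h | exact Ne.symm h)]
      by_contra h2
      exact h (hall w' h2)
  have hprod : y0 * v U = 1 := by
    apply B.repr.injective
    rw [hrepr, ← hB, B.repr_self]
  have hy1 : y0 = 1 := hu _ _ hprod
  refine ⟨?_, ?_, y, t, U', hUe, hry⟩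
  · rw [hy1, ← hB, B.repr_self] at hr0
    by_contra h
    rw [Finsupp.single_eq_of_ne (by first | exact h | exact Ne.symm h)] at hr0
    exact absurd hr0 (by decide)
  · rw [hy1, one_mul] at hprod
    exact hprod

end dom
end
end S3

end Pool.Agent.RDOre
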