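import Pool.Agent.RDOre.Base
set_option autoImplicit false

namespace Pool.Agent.RDOre

open Matrix

theorem GData.map {R : Type} [Ring R] {m n : Type} [Fintype m] [Fintype n] [DecidableEq m]
    [DecidableEq n] {A : Matrix m n R} (h : GData A) {S : Type} [Ring S] (φ : R →+* S) :
    GData (A.map φ) := by
  obtain ⟨ρ, α, β, γ, δ, s, h1, h2, h3⟩ := h
  refine ⟨ρ.map φ, α.map φ, β.map φ, γ.map φ, δ.map φ, s.map φ, ?_, ?_, ?_⟩
  · rw [← Matrix.map_mul, h1, Matrix.map_mul]
  · rw [← Matrix.map_mul, h2, Matrix.map_mul]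
  · rw [← Matrix.map_mul, ← Matrix.map_mul, h3, Matrix.map_add _ (map_add φ), Matrix.map_mul,
      Matrix.map_mul]

open Filter in
/-- equality along a filter -/
def rc {I : Type} (u : Filter I) (S : I → Type) [∀ i, Ring (S i)] : RingCon (∀ i, S i) where
  r x y := ∀ᶠ i in u, x i = y i
  iseqv := ⟨fun x => Eventually.of_forall fun _ => rfl, fun h => h.mono fun _ h => h.symm,
    fun h1 h2 => (h1.and h2).mono fun _ h => h.1.trans h.2⟩
  add' h1 h2 := (h1.and h2).mono fun i h => by rw [Pi.add_apply, Pi.add_apply, h.1, h.2]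
  mul' h1 h2 := (h1.and h2).mono fun i h => by rw [Pi.mul_apply, Pi.mul_apply, h.1, h.2]

theorem rc_eq {I : Type} {u : Filter I} {S : I → Type} [∀ i, Ring (S i)] {x y : ∀ i, S i} :
    (rc u S).mk' x = (rc u S).mk' y ↔ ∀ᶠ i in u, x i = y i :=
  (rc u S).eq

theorem rc_surj {I : Type} {u : Filter I} {S : I → Type} [∀ i, Ring (S i)]
    (z : (rc u S).Quotient) : ∃ x : ∀ i, S i, (rc u S).mk' x = z :=
  (rc u S).mk'_surjective z

theorem good_ultra {I : Type} (u : Ultrafilter I) (S : I → Type) [∀ i, Ring (S i)]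
    (h : ∀ i, Good (S i)) : Good (rc (u : Filter I) S).Quotient := by
  have hnt : Nontrivial (rc (u : Filter I) S).Quotient := by
    refine ⟨⟨(rc (u : Filter I) S).mk' 0, (rc (u : Filter I) S).mk' 1, fun he => ?_⟩⟩
    obtain ⟨i, hi⟩ := (rc_eq.1 he).exists
    have := (h i).dom
    exact zero_ne_one hi
  refine ⟨?_, ?_, ?_⟩
  · have : NoZeroDivisors (rc (u : Filter I) S).Quotient := by
      refine ⟨fun {a b} hab => ?_⟩
      obtain ⟨x, rfl⟩ := rc_surj a
      obtain ⟨y, rfl⟩ := rc_surj b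
      rw [← map_mul, ← map_zero (rc (u : Filter I) S).mk', rc_eq] at hab
      have h2 : ∀ᶠ i in (u : Filter I), x i = 0 ∨ y i = 0 := hab.mono fun i hi => by
        have := (h i).dom
        exact mul_eq_zero.1 hi
      rcases Ultrafilter.eventually_or.1 h2 with h3 | h3
      · left
        rw [← map_zero (rc (u : Filter I) S).mk', rc_eq]
        exact h3
      · right
        rw [← map_zero (rc (u : Filter I) S).mk', rc_eq]
        exact h3
    exact NoZeroDivisors.to_isDomain _
  · have : (2 : (rc (u : Filter I) S).Quotient) = (rc (u : Filter I) S).mk' 2 := (map_ofNat _ 2).symm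
    rw [this, ← map_zero (rc (u : Filter I) S).mk', rc_eq]
    exact Filter.Eventually.of_forall fun i => (h i).two
  · intro a b hab
    obtain ⟨x, rfl⟩ := rc_surj a
    obtain ⟨y, rfl⟩ := rc_surj b
    rw [← map_mul, ← map_one (rc (u : Filter I) S).mk', rc_eq] at hab
    rw [← map_one (rc (u : Filter I) S).mk', rc_eq]
    exact hab.mono fun i hi => (h i).units _ _ hi

/-- data along the filter gives data in the reduced product -/
theorem GData_rc {I : Type} (u : Filter I) (S : I → Type) [∀ i, Ring (S i)]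
    {m n : Type} [Fintype m] [Fintype n] [DecidableEq m] [DecidableEq n]
    (A : Matrix m n (∀ i, S i))
    (h : ∀ᶠ i in u, GData (A.map (Pi.evalRingHom S i))) : GData (A.map (rc u S).mk') := by
  classical
  unfold GData at h
  have h' : ∀ i, ∃ (ρ : Matrix Unit Unit (S i)) (α : Matrix m Unit (S i)) (β : Matrix Unit m (S i))
      (γ : Matrix n Unit (S i)) (δ : Matrix Unit n (S i)) (s : Matrix n m (S i)),
      GData (A.map (Pi.evalRingHom S i)) → β * (A.map (Pi.evalRingHom S i)) = ρ * δ ∧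
        α * ρ = (A.map (Pi.evalRingHom S i)) * γ ∧
        α * β * (A.map (Pi.evalRingHom S i)) = (A.map (Pi.evalRingHom S i)) +
          (A.map (Pi.evalRingHom S i)) * s * (A.map (Pi.evalRingHom S i)) := by
    intro i
    by_cases hi : GData (A.map (Pi.evalRingHom S i))
    · obtain ⟨ρ, α, β, γ, δ, s, h1, h2, h3⟩ := hi
      exact ⟨ρ, α, β, γ, δ, s, fun _ => ⟨h1, h2, h3⟩⟩
    · exact ⟨0, 0, 0, 0, 0, 0, fun hh => absurd hh hi⟩
  choose ρ α β γ δ s hh using h'
  have key : ∀ {p q : Type} (X Y : Matrix p q (∀ i, S i)),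
      (∀ᶠ i in u, X.map (Pi.evalRingHom S i) = Y.map (Pi.evalRingHom S i)) →
      X.map (rc u S).mk' = Y.map (rc u S).mk' := by
    intro p q X Y hXY
    ext a b
    simp only [Matrix.map_apply]
    rw [rc_eq]
    exact hXY.mono fun i hi => congrFun (congrFun hi a) b
  let lift : ∀ {p q : Type} (X : ∀ i, Matrix p q (S i)), Matrix p q (∀ i, S i) :=
    fun {p q} X => Matrix.of fun a b i => X i a b
  have hl : ∀ {p q : Type} (X : ∀ i, Matrix p q (S i)) (i : I),
      (lift X).map (Pi.evalRingHom S i) = X i := fun X i => rfl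
  refine ⟨(lift ρ).map (rc u S).mk', (lift α).map (rc u S).mk', (lift β).map (rc u S).mk',
    (lift γ).map (rc u S).mk', (lift δ).map (rc u S).mk', (lift s).map (rc u S).mk', ?_, ?_, ?_⟩
  · rw [← Matrix.map_mul, ← Matrix.map_mul]
    refine key _ _ (h.mono fun i hi => ?_)
    rw [Matrix.map_mul, Matrix.map_mul, hl, hl, hl]
    exact (hh i hi).1
  · rw [← Matrix.map_mul, ← Matrix.map_mul]
    refine key _ _ (h.mono fun i hi => ?_)
    rw [Matrix.map_mul, Matrix.map_mul, hl, hl, hl]
    exact (hh i hi).2.1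
  · rw [← Matrix.map_mul, ← Matrix.map_mul, ← Matrix.map_mul, ← Matrix.map_mul,
      ← Matrix.map_add _ (map_add _)]
    refine key _ _ (h.mono fun i hi => ?_)
    rw [Matrix.map_add _ (map_add _), Matrix.map_mul, Matrix.map_mul, Matrix.map_mul,
      Matrix.map_mul, hl, hl, hl]
    exact (hh i hi).2.2

/-- all tasks at once: finite lists of tasks by induction, then an ultraproduct over finite sets -/
theorem stepAll {R : Type} [Ring R] (hR : Good R)
    (master : ∀ {R : Type} [Ring R] (_hR : Good R) (m n : ℕ) (A : Matrix (Fin m) (Fin n) R),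
      ∃ (S : Type) (_ : Ring S) (φ : R →+* S), Good S ∧ Function.Injective φ ∧ GData (A.map φ)) :
    ∃ (S : Type) (_ : Ring S) (φ : R →+* S), Good S ∧ Function.Injective φ ∧
      ∀ (m n : ℕ) (A : Matrix (Fin m) (Fin n) R), GData (A.map φ) := by
  classical
  have fin : ∀ F : Finset (Σ p : ℕ × ℕ, Matrix (Fin p.1) (Fin p.2) R),
      ∃ (S : Type) (_ : Ring S) (φ : R →+* S), Good S ∧ Function.Injective φ ∧
        ∀ t ∈ F, GData (t.2.map φ) := by
    intro F
    induction F using Finset.induction_on with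
    | empty => exact ⟨R, inferInstance, RingHom.id R, hR, Function.injective_id, by simp⟩
    | insert t F _ ih =>
      obtain ⟨S, rS, φ, hS, hφ, hF⟩ := ih
      obtain ⟨S', rS', φ', hS', hφ', hA⟩ := master hS t.1.1 t.1.2 (t.2.map φ)
      refine ⟨S', rS', φ'.comp φ, hS', hφ'.comp hφ, fun t' ht' => ?_⟩
      rcases Finset.mem_insert.1 ht' with rfl | h
      · have : (t'.2.map (φ'.comp φ)) = (t'.2.map φ).map φ' := by
          rw [Matrix.map_map]; rfl
        rw [this]; exact hA
      · have : (t'.2.map (φ'.comp φ)) = (t'.2.map φ).map φ' := by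
          rw [Matrix.map_map]; rfl
        rw [this]
        exact (hF t' h).map φ'
  choose S rS φ hS hφ hF using fin
  let u : Ultrafilter (Finset (Σ p : ℕ × ℕ, Matrix (Fin p.1) (Fin p.2) R)) :=
    Ultrafilter.of Filter.atTop
  refine ⟨(rc (u : Filter _) S).Quotient, inferInstance,
    ((rc (u : Filter _) S).mk').comp (RingHom.pi φ), good_ultra u S hS, ?_, ?_⟩
  · intro a b hab
    obtain ⟨i, hi⟩ := (rc_eq.1 hab).exists
    exact hφ i hi
  · intro m n A
    have h1 : A.map (((rc (u : Filter _) S).mk').comp (RingHom.pi φ)) =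
        (A.map (RingHom.pi φ)).map (rc (u : Filter _) S).mk' := by
      rw [Matrix.map_map]; rfl
    rw [h1]
    refine GData_rc _ _ _ ?_
    have h2 : ∀ᶠ F in (u : Filter (Finset (Σ p : ℕ × ℕ, Matrix (Fin p.1) (Fin p.2) R))),
        {(⟨(m, n), A⟩ : Σ p : ℕ × ℕ, Matrix (Fin p.1) (Fin p.2) R)} ≤ F :=
      (Filter.eventually_ge_atTop _).filter_mono (Ultrafilter.of_le _)
    refine h2.mono fun F hF' => ?_
    have := hF F ⟨(m, n), A⟩ (hF' (Finset.mem_singleton_self _))
    exact this


/-- extension of an element of the `n`-th ring to a coherent sequence -/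
noncomputable def ext (G : ℕ → Type) [∀ n, Ring (G n)] (φ : ∀ n, G n →+* G (n + 1)) (n : ℕ) (a : G n) :
    ∀ m, G m :=
  fun m => if h : n ≤ m then Nat.leRecOn h (fun {k} => φ k) a else 0

section
variable {G : ℕ → Type} [∀ n, Ring (G n)] {φ : ∀ n, G n →+* G (n + 1)}

theorem ext_self (n : ℕ) (a : G n) : ext G φ n a n = a := by
  simp only [ext, le_refl, dif_pos]
  exact Nat.leRecOn_self a

theorem ext_succ (n m : ℕ) (h : n ≤ m) (a : G n) :
    ext G φ n a (m + 1) = φ m (ext G φ n a m) := by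
  have h' : n ≤ m + 1 := by omega
  simp only [ext, dif_pos h, dif_pos h']
  exact Nat.leRecOn_succ h a

/-- a sequence coherent from `n` on is the extension of its `n`-th entry -/
theorem eq_ext (x : ∀ m, G m) (n : ℕ) (hx : ∀ m, n ≤ m → x (m + 1) = φ m (x m)) :
    ∀ m, n ≤ m → x m = ext G φ n (x n) m := by
  intro m hm
  induction m, hm using Nat.le_induction with
  | base => rw [ext_self]
  | succ m hm ih => rw [hx m hm, ext_succ n m hm, ← ih]

variable (G φ) in
/-- eventually coherent sequences -/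
def coh : Subring (∀ n, G n) where
  carrier := {x | ∃ N, ∀ m, N ≤ m → x (m + 1) = φ m (x m)}
  mul_mem' := by
    rintro x y ⟨N, hN⟩ ⟨M, hM⟩
    refine ⟨max N M, fun m hm => ?_⟩
    rw [Pi.mul_apply, Pi.mul_apply, map_mul, hN m (le_trans (le_max_left _ _) hm),
      hM m (le_trans (le_max_right _ _) hm)]
  one_mem' := ⟨0, fun m _ => by rw [Pi.one_apply, Pi.one_apply, map_one]⟩
  add_mem' := by
    rintro x y ⟨N, hN⟩ ⟨M, hM⟩
    refine ⟨max N M, fun m hm => ?_⟩
    rw [Pi.add_apply, Pi.add_apply, map_add, hN m (le_trans (le_max_left _ _) hm),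
      hM m (le_trans (le_max_right _ _) hm)]
  zero_mem' := ⟨0, fun m _ => by rw [Pi.zero_apply, Pi.zero_apply, map_zero]⟩
  neg_mem' := by
    rintro x ⟨N, hN⟩
    refine ⟨N, fun m hm => ?_⟩
    rw [Pi.neg_apply, Pi.neg_apply, map_neg, hN m hm]

end

/-- the ultrafilter used -/
noncomputable def uu : Ultrafilter ℕ := Ultrafilter.of Filter.atTop

theorem uu_ev {p : ℕ → Prop} (N : ℕ) (h : ∀ n, N ≤ n → p n) : ∀ᶠ n in (uu : Filter ℕ), p n :=
  ((Filter.eventually_ge_atTop N).mono h).filter_mono (Ultrafilter.of_le _)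

/-- the limit ring -/
noncomputable def Lim (G : ℕ → Type) [∀ n, Ring (G n)] (φ : ∀ n, G n →+* G (n + 1)) :
    Subring (rc (uu : Filter ℕ) G).Quotient :=
  (coh G φ).map (rc (uu : Filter ℕ) G).mk'

section
variable {G : ℕ → Type} [∀ n, Ring (G n)] {φ : ∀ n, G n →+* G (n + 1)}

/-- the maps to the limit -/
noncomputable def toLim (n : ℕ) : G n →+* Lim G φ where
  toFun a := ⟨(rc (uu : Filter ℕ) G).mk' (ext G φ n a),
    ⟨ext G φ n a, ⟨n, fun m hm => ext_succ n m hm a⟩, rfl⟩⟩
  map_one' := by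
    apply Subtype.ext
    change (rc (uu : Filter ℕ) G).mk' _ = 1
    rw [← map_one (rc (uu : Filter ℕ) G).mk', rc_eq]
    exact uu_ev n fun m hm =>
      (eq_ext (φ := φ) (1 : ∀ m, G m) n (fun m _ => by simp) m hm).symm
  map_zero' := by
    apply Subtype.ext
    change (rc (uu : Filter ℕ) G).mk' _ = 0
    rw [← map_zero (rc (uu : Filter ℕ) G).mk', rc_eq]
    exact uu_ev n fun m hm =>
      (eq_ext (φ := φ) (0 : ∀ m, G m) n (fun m _ => by simp) m hm).symm
  map_mul' a b := by
    apply Subtype.ext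
    change (rc (uu : Filter ℕ) G).mk' _ =
      (rc (uu : Filter ℕ) G).mk' (ext G φ n a) * (rc (uu : Filter ℕ) G).mk' (ext G φ n b)
    rw [← map_mul, rc_eq]
    refine uu_ev n fun m hm => ?_
    have := eq_ext (φ := φ) (ext G φ n a * ext G φ n b) n
      (fun m hm => by rw [Pi.mul_apply, Pi.mul_apply, ext_succ n m hm, ext_succ n m hm, map_mul])
      m hm
    rw [this, Pi.mul_apply, ext_self, ext_self]
  map_add' a b := by
    apply Subtype.ext
    change (rc (uu : Filter ℕ) G).mk' _ =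
      (rc (uu : Filter ℕ) G).mk' (ext G φ n a) + (rc (uu : Filter ℕ) G).mk' (ext G φ n b)
    rw [← map_add, rc_eq]
    refine uu_ev n fun m hm => ?_
    have := eq_ext (φ := φ) (ext G φ n a + ext G φ n b) n
      (fun m hm => by rw [Pi.add_apply, Pi.add_apply, ext_succ n m hm, ext_succ n m hm, map_add])
      m hm
    rw [this, Pi.add_apply, ext_self, ext_self]

theorem toLim_succ (n : ℕ) (a : G n) :
    (toLim n a : Lim G φ) = toLim (n + 1) (φ n a) := by
  apply Subtype.ext
  change (rc (uu : Filter ℕ) G).mk' (ext G φ n a) =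
    (rc (uu : Filter ℕ) G).mk' (ext G φ (n + 1) (φ n a))
  rw [rc_eq]
  refine uu_ev (n + 1) fun m hm => ?_
  have := eq_ext (φ := φ) (ext G φ n a) (n + 1) (fun m hm => ext_succ n m (by omega) a) m hm
  rw [this, ext_succ n n le_rfl, ext_self]

theorem toLim_inj (hφ : ∀ n, Function.Injective (φ n)) :
    Function.Injective (toLim 0 : G 0 →+* Lim G φ) := by
  intro a b hab
  have h1 := congrArg Subtype.val hab
  change (rc (uu : Filter ℕ) G).mk' (ext G φ 0 a) = (rc (uu : Filter ℕ) G).mk' (ext G φ 0 b) at h1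
  obtain ⟨m, hm⟩ := (rc_eq.1 h1).exists
  have h2 : ∀ m, ext G φ 0 a m = ext G φ 0 b m → a = b := by
    intro m
    induction m with
    | zero => intro h; rwa [ext_self, ext_self] at h
    | succ m ih =>
      intro h
      rw [ext_succ 0 m (Nat.zero_le _), ext_succ 0 m (Nat.zero_le _)] at h
      exact ih (hφ m h)
  exact h2 m hm

/-- every matrix over the limit comes from a finite stage -/
theorem stage {p q : Type} [Fintype p] [Fintype q] (A : Matrix p q (Lim G φ)) :
    ∃ (N : ℕ) (B : Matrix p q (G N)), A = B.map (toLim N) := by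
  have h1 : ∀ a b, ∃ x : ∀ n, G n, (∃ N, ∀ m, N ≤ m → x (m + 1) = φ m (x m)) ∧
      (rc (uu : Filter ℕ) G).mk' x = (A a b).1 := fun a b => (A a b).2
  choose x hx hxA using h1
  choose N hN using hx
  refine ⟨∑ a, ∑ b, N a b, Matrix.of fun a b => x a b _, ?_⟩
  ext a b
  rw [Matrix.map_apply, Matrix.of_apply, ← hxA a b]
  change _ = (rc (uu : Filter ℕ) G).mk' _
  rw [rc_eq]
  refine uu_ev (∑ a, ∑ b, N a b) fun m hm => ?_
  refine eq_ext (φ := φ) (x a b) _ (fun m hm => hN a b m (le_trans ?_ hm)) m hm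
  exact le_trans (Finset.single_le_sum (f := fun b => N a b) (fun _ _ => Nat.zero_le _)
    (Finset.mem_univ b)) (Finset.single_le_sum (f := fun a => ∑ b, N a b)
    (fun _ _ => Nat.zero_le _) (Finset.mem_univ a))

theorem good_lim (h : ∀ n, Good (G n)) : Good (Lim G φ) := by
  have hU := good_ultra uu G h
  have := hU.dom
  refine ⟨inferInstance, ?_, ?_⟩
  · apply Subtype.ext
    exact hU.two
  · intro a b hab
    apply Subtype.ext
    exact hU.units a.1 b.1 (congrArg Subtype.val hab)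

end

/-- bundled rings -/
structure GR where
  R : Type
  [ring : Ring R]
  good : Good R

attribute [instance] GR.ring

/-- the omega limit of a chain of extensions -/
theorem stepOmega {R : Type} [Ring R] (hR : Good R)
    (all : ∀ {R : Type} [Ring R] (_hR : Good R),
      ∃ (S : Type) (_ : Ring S) (φ : R →+* S), Good S ∧ Function.Injective φ ∧
      ∀ (m n : ℕ) (A : Matrix (Fin m) (Fin n) R), GData (A.map φ)) :
    ∃ (S : Type) (_ : Ring S) (φ : R →+* S), Good S ∧ Function.Injective φ ∧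
      ∀ (m n : ℕ) (A : Matrix (Fin m) (Fin n) S), GData A := by
  have h1 : ∀ g : GR, ∃ (g' : GR) (φ : g.R →+* g'.R), Function.Injective φ ∧
      ∀ (m n : ℕ) (A : Matrix (Fin m) (Fin n) g.R), GData (A.map φ) := by
    intro g
    obtain ⟨S, rS, φ, hS, hφ, hA⟩ := all g.good
    exact ⟨⟨S, hS⟩, φ, hφ, hA⟩
  choose nx φ hφ hA using h1
  obtain ⟨sq, hs0, ψ, hψ⟩ : ∃ (sq : ℕ → GR) (_ : sq 0 = ⟨R, hR⟩) (ψ : ∀ n, (sq n).R →+* (sq (n + 1)).R),
      ∀ n, Function.Injective (ψ n) ∧
      ∀ (m k : ℕ) (A : Matrix (Fin m) (Fin k) (sq n).R), GData (A.map (ψ n)) :=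
    ⟨fun n => Nat.rec ⟨R, hR⟩ (fun _ g => nx g) n, rfl, fun n => φ _, fun n => ⟨hφ _, hA _⟩⟩
  have e0 : ∃ f : R →+* (sq 0).R, Function.Injective f := by
    rw [hs0]
    exact ⟨RingHom.id R, Function.injective_id⟩
  obtain ⟨f, hf⟩ := e0
  refine ⟨Lim (fun n => (sq n).R) ψ, inferInstance, (toLim (G := fun n => (sq n).R) (φ := ψ) 0).comp f,
    good_lim fun n => (sq n).good,
    (toLim_inj (G := fun n => (sq n).R) (φ := ψ) fun n => (hψ n).1).comp hf, ?_⟩
  intro m n A
  obtain ⟨N, B, rfl⟩ := stage (G := fun n => (sq n).R) (φ := ψ) A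
  have h2 : B.map (toLim (G := fun n => (sq n).R) (φ := ψ) N) =
      (B.map (ψ N)).map (toLim (G := fun n => (sq n).R) (φ := ψ) (N + 1)) := by
    ext a b
    simp only [Matrix.map_apply]
    rw [toLim_succ]
  rw [h2]
  exact ((hψ N).2 m n B).map _


end Pool.Agent.RDOre
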