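import Pool.Agent.RDOre.Letters
set_option autoImplicit false

namespace Pool.Agent.RDOre

open Matrix

namespace S3

section
variable {R : Type} [Ring R] [Algebra (ZMod 2) R] {m n : Type} [Fintype m] [Fintype n]
  [DecidableEq m] [DecidableEq n] {I : Type} [DecidableEq I]
  (A : Matrix m n R) (B : Module.Basis I (ZMod 2) R) (i₀ : I)
  [DecidableEq (Lt m n)] [DecidableEq (Wd m n I)]

/-! ### second level analysis -/

omit [Algebra (ZMod 2) R] [Fintype m] [Fintype n] [DecidableEq m] [DecidableEq n]
  [DecidableEq I] [DecidableEq (Lt m n)] [DecidableEq (Wd m n I)] in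
theorem split_top {v : Wd m n I →₀ R} {d : ℕ} (hd : 1 ≤ d) (hv : v ∈ Dle R m n I d)
    (h1 : ∀ U : Wd m n I, U.length = d → v U ≠ 0 → v U = 1) :
    v - ∑ U ∈ v.support.filter (fun U => U.length = d), Finsupp.single U (1 : R) ∈
      Dle R m n I (d - 1) := by
  classical
  intro U hU
  rw [Finset.mem_coe, Finsupp.mem_support_iff, Finsupp.sub_apply, Finsupp.finsetSum_apply] at hU
  by_contra hlt
  simp only [Set.mem_setOf_eq, not_le] at hlt
  apply hU
  by_cases hvU : v U = 0
  · rw [hvU, Finset.sum_eq_zero, sub_zero]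
    intro U' hU'
    by_cases h : U' = U
    · subst h
      simp [hvU] at hU'
    · rw [Finsupp.single_eq_of_ne (by first | exact h | exact Ne.symm h)]
  · have hlen : U.length ≤ d := hv (Finsupp.mem_support_iff.mpr hvU)
    have hlen' : U.length = d := by omega
    rw [h1 U hlen' hvU, Finset.sum_eq_single U]
    · rw [Finsupp.single_eq_same, sub_self]
    · intro U' _ hne
      rw [Finsupp.single_eq_of_ne (by first | exact hne | exact Ne.symm hne)]
    · intro hno
      exfalso; apply hno; simp [hvU, hlen']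

theorem P_second (hB : B i₀ = 1) {v : Wd m n I →₀ R} {d : ℕ} (hd : 1 ≤ d)
    (hv : v ∈ Dle R m n I d) (h1 : ∀ U : Wd m n I, U.length = d → v U ≠ 0 → v U = 1)
    {W' : Wd m n I} {x : Lt m n} (hW : Nrm i₀ (W' ++ [(x, i₀)]))
    (hr : ∀ U : Wd m n I, U.length = d → v U ≠ 0 → redex i₀ x i₀ U = true)
    {Z1 : Wd m n I} (hZ1 : Z1.length = W'.length) {q : Lt m n} (hq : q ≠ x) (u : I)
    {Z2 : Wd m n I} (hZ2 : Z2.length + 1 = d) :
    (P A B i₀ v (W' ++ [(x, i₀)])) (Z1 ++ (q, u) :: Z2) =
      ∑ U ∈ v.support.filter (fun U => U.length = d),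
        (P A B i₀ (rw0 A B x U) W') (Z1 ++ (q, u) :: Z2) := by
  have hnl := NrmL_of i₀ W' x i₀ hW
  rw [P_concat A B i₀ W' x i₀ hnl hB, hB, one_smul, Finsupp.add_apply, md_apply hZ1.symm]
  have e1 : (if W' = Z1 then (main B i₀ x v) ((q, u) :: Z2) else 0) = 0 := by
    rw [main_apply]
    simp [hq]
  rw [e1, zero_add]
  set vt := ∑ U ∈ v.support.filter (fun U => U.length = d), Finsupp.single U (1 : R) with hvt
  have hvl : v - vt ∈ Dle R m n I (d - 1) := split_top hd hv h1
  have hvs : v = vt + (v - vt) := by abel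
  have e2 : rew A B i₀ x v = (∑ U ∈ v.support.filter (fun U => U.length = d), rw0 A B x U) +
      rew A B i₀ x (v - vt) := by
    have : rew A B i₀ x v = rew A B i₀ x vt + rew A B i₀ x (v - vt) := by
      rw [← map_add, ← hvs]
    rw [this]
    congr 1
    rw [hvt, map_sum]
    refine Finset.sum_congr rfl fun U hU => ?_
    rw [← hB, rew_single, if_pos]
    have := Finset.mem_filter.mp hU
    exact hr U this.2 (Finsupp.mem_support_iff.mp this.1)
  rw [e2, P_add, Finsupp.add_apply, P_sum, Finsupp.finsetSum_apply]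
  have e3 : (P A B i₀ (rew A B i₀ x (v - vt)) W') (Z1 ++ (q, u) :: Z2) = 0 := by
    apply Dle_apply (P_mem_Dle A B i₀ (rew_mem_Dle A B i₀ x hvl) W')
    simp only [List.length_append, List.length_cons]
    omega
  rw [e3, add_zero]

theorem P_short (hB : B i₀ = 1) {v : Wd m n I →₀ R} {N d : ℕ} (hv : v ∈ Dle R m n I d)
    (hN : 2 ≤ N) {W : Wd m n I} (hW : Nrm i₀ W) (hW0 : W ≠ []) (hWN : W.length < N)
    {Z1 : Wd m n I} (hZ1 : Z1.length + 1 = N) (q : Lt m n) (u : I)
    {Z2 : Wd m n I} (hZ2 : Z2.length + 1 = d) (h0 : v ((q, u) :: Z2) = 0) :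
    (P A B i₀ v W) (Z1 ++ (q, u) :: Z2) = 0 := by
  by_cases hlen : W.length + 1 < N
  · apply Dle_apply (P_mem_Dle A B i₀ hv W)
    simp only [List.length_append, List.length_cons]
    omega
  have hZ0 : Z1 ≠ [] := by
    rintro rfl
    simp at hZ1
    omega
  obtain ⟨Z1', ⟨p, w⟩, rfl⟩ : ∃ Z' p, Z1 = Z' ++ [p] :=
    ⟨Z1.dropLast, Z1.getLast hZ0, (List.dropLast_append_getLast hZ0).symm⟩
  obtain ⟨W', ⟨x', i'⟩, rfl⟩ : ∃ W' p, W = W' ++ [p] :=
    ⟨W.dropLast, W.getLast hW0, (List.dropLast_append_getLast hW0).symm⟩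
  have hnl := NrmL_of i₀ W' x' i' hW
  simp only [List.length_append, List.length_cons, List.length_nil] at hlen hZ1 hWN
  have e0 : (Z1' ++ [(p, w)]) ++ (q, u) :: Z2 = Z1' ++ (p, w) :: ((q, u) :: Z2) := by simp
  rw [P_concat A B i₀ W' x' i' hnl hB, Finsupp.add_apply]
  have e1 : (P A B i₀ (rew A B i₀ x' (B i' • v)) W') (Z1' ++ [(p, w)] ++ (q, u) :: Z2) = 0 := by
    apply Dle_apply (P_mem_Dle A B i₀ (rew_mem_Dle A B i₀ x' (Submodule.smul_mem _ _ hv)) W')
    simp only [List.length_append, List.length_cons, List.length_nil]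
    omega
  rw [e1, add_zero, e0, md_apply (by omega), main_apply, Finsupp.smul_apply, h0]
  simp

theorem ns_apply (hB : B i₀ = 1) {q' : Lt m n} (hq : ns q' = true) {W2 Z2 : Wd m n I}
    (hl : W2.length = Z2.length) {x2 : Lt m n} (i2 : I) (hW : NrmL i₀ W2 x2) (t : I)
    (U : Wd m n I) (c : R) (x3 : Lt m n) (w : I) (q : Lt m n) (t₀ : I) (U₀ : Wd m n I) :
    (P A B i₀ (Finsupp.single ((q', t) :: U) c) (W2 ++ [(x2, i2)]))
      (Z2 ++ (x3, w) :: (q, t₀) :: U₀) =
      if (W2 = Z2 ∧ x2 = x3) ∧ (q', t) :: U = (q, t₀) :: U₀ then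
        algebraMap (ZMod 2) R (B.repr (B i2 * c) w) else 0 := by
  rw [P_ns A B i₀ hB hq W2 x2 i2 hW, md_apply hl, main_apply]
  by_cases h1 : W2 = Z2
  · by_cases h2 : x2 = x3
    · by_cases h3 : (q', t) :: U = (q, t₀) :: U₀
      · have h4 : redex i₀ x2 w ((q, t₀) :: U₀) = false := by
          rw [← h3]
          exact redex_ns i₀ hq _ _ _ _
        rw [if_pos h1, h4, h3, Finsupp.single_eq_same]
        simp [h1, h2]
      · rw [Finsupp.single_eq_of_ne (by first | exact h3 | exact Ne.symm h3)]
        simp [h3]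
    · have h2' : ¬ x3 = x2 := fun h => h2 h.symm
      simp [h2, h2']
  · simp [h1]

/-- the letter produced by a rewriting with a left letter `a` -/
def sub : Lt m n → n → Lt m n
  | .b j, l => .s l j
  | _, l => .c l

omit [Fintype m] [Fintype n] [DecidableEq m] [DecidableEq n] [DecidableEq (Lt m n)] in
theorem ns_sub (y : Lt m n) (l : n) : ns (sub y l) = true := by
  cases y <;> rfl

omit [Fintype m] [Fintype n] [DecidableEq m] [DecidableEq n] [DecidableEq (Lt m n)] in
theorem sub_ne (y : Lt m n) (l : n) (i : m) : sub y l ≠ .a i := by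
  cases y <;> simp [sub]

omit [Fintype m] [Fintype n] [DecidableEq m] [DecidableEq n] [DecidableEq (Lt m n)] in
theorem red_a (y : Lt m n) (i i' : m) : red (.a i) y = red (.a i') y := by
  cases y <;> rfl

omit [Fintype m] [Fintype n] [DecidableEq m] [DecidableEq n] [DecidableEq (Lt m n)] in
theorem red_ns (x : Lt m n) {q : Lt m n} (hq : ns q = true) : red x q = false := by
  cases x <;> cases q <;> simp_all [ns, red]

omit [Fintype m] [Fintype n] [DecidableEq m] [DecidableEq n] [DecidableEq (Lt m n)] in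
theorem sub_inj {i i' : m} {y y' : Lt m n} {l l' : n} (hy : red (.a i) y = true)
    (hy' : red (.a i') y' = true) (h : sub y l = sub y' l') : y = y' ∧ l = l' := by
  cases y <;> cases y' <;> simp_all [sub, red]

theorem rwA (i : m) {y : Lt m n} (hy : red (.a i) y = true) (t : I) (U : Wd m n I) :
    ∃ low ∈ Dle R m n I U.length, rwr A B (.a i) y t U =
      low + ∑ l, Finsupp.single ((sub y l, t) :: U) (A i l) := by
  cases y with
  | b j =>
    refine ⟨if i = j then Finsupp.single U (B t) else 0, ?_, rfl⟩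
    split_ifs
    · exact single_mem_Dle (le_refl _) _
    · exact Submodule.zero_mem _
  | r =>
    exact ⟨0, Submodule.zero_mem _, by rw [zero_add]; rfl⟩
  | a _ => simp [red] at hy
  | c _ => simp [red] at hy
  | d _ => simp [red] at hy
  | s _ _ => simp [red] at hy

theorem rwA_apply (hB : B i₀ = 1) {W2 Z2 : Wd m n I} (hl : W2.length = Z2.length) {x2 : Lt m n}
    (i2 : I) (hW : NrmL i₀ W2 x2) (i : m) {y y₀ : Lt m n} (hy : red (.a i) y = true)
    (hy₀ : red (.a i) y₀ = true) (t t₀ : I) {U U₀ : Wd m n I} (hU : U.length = U₀.length)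
    (x3 : Lt m n) (w : I) (l₀ : n) :
    (P A B i₀ (rwr A B (.a i) y t U) (W2 ++ [(x2, i2)]))
      (Z2 ++ (x3, w) :: (sub y₀ l₀, t₀) :: U₀) =
      if (y, t) :: U = (y₀, t₀) :: U₀ then
        (if W2 = Z2 ∧ x2 = x3 then
        algebraMap (ZMod 2) R (B.repr (B i2 * A i l₀) w) else 0) else 0 := by
  obtain ⟨low, hlow, he⟩ := rwA A B i hy t U
  rw [he, P_add, Finsupp.add_apply]
  have e1 : (P A B i₀ low (W2 ++ [(x2, i2)])) (Z2 ++ (x3, w) :: (sub y₀ l₀, t₀) :: U₀) = 0 := by
    apply Dle_apply (P_mem_Dle A B i₀ hlow _)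
    simp only [List.length_append, List.length_cons, List.length_nil]
    omega
  rw [e1, zero_add, P_sum, Finsupp.finsetSum_apply]
  simp only [ns_apply A B i₀ hB (ns_sub y _) hl i2 hW]
  have e2 : ∀ l, ((sub y l, t) :: U = (sub y₀ l₀, t₀) :: U₀) ↔
      ((y, t) :: U = (y₀, t₀) :: U₀ ∧ l = l₀) := by
    intro l
    simp only [List.cons.injEq, Prod.mk.injEq]
    constructor
    · rintro ⟨⟨h1, h2⟩, h3⟩
      obtain ⟨h4, h5⟩ := sub_inj hy hy₀ h1
      exact ⟨⟨⟨h4, h2⟩, h3⟩, h5⟩
    · rintro ⟨⟨⟨h4, h2⟩, h3⟩, h5⟩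
      exact ⟨⟨by rw [h4, h5], h2⟩, h3⟩
  simp only [e2]
  by_cases h1 : (y, t) :: U = (y₀, t₀) :: U₀
  · rw [if_pos h1]
    by_cases h2 : W2 = Z2 ∧ x2 = x3
    · rw [if_pos h2, Finset.sum_eq_single l₀]
      · rw [if_pos ⟨h2, h1, rfl⟩]
      · intro l _ hl
        rw [if_neg (fun h => hl h.2.2)]
      · intro h
        exact absurd (Finset.mem_univ _) h
    · rw [if_neg h2]
      apply Finset.sum_eq_zero
      intro l _
      rw [if_neg (fun h => h2 h.1)]
  · rw [if_neg h1]
    apply Finset.sum_eq_zero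
    intro l _
    rw [if_neg (fun h => h1 h.2.1)]

/-- picks the coefficient before the last letter -/
noncomputable def pick2 (N : ℕ) (W2 : Wd m n I) (x2 : Lt m n) (i : m) (W : Wd m n I) : R :=
  if W.length = N ∧ W.getLast? = some (.a i, i₀) then pick B W2 x2 W.dropLast else 0

theorem case1 [IsDomain R] (hA : Reg A) (hB : B i₀ = 1) {v : Wd m n I →₀ R} {N d : ℕ}
    (hv : v ∈ Dle R m n I d) (hd : 1 ≤ d) (T : Finset (Wd m n I))
    (hT : ∀ W ∈ T, Nrm i₀ W ∧ W ≠ [] ∧ W.length ≤ N) (hN : 2 ≤ N)
    (hZ : ∀ Z : Wd m n I, 2 ≤ Z.length → (∑ W ∈ T, P A B i₀ v W) Z = 0)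
    {W2 : Wd m n I} {x2 : Lt m n} {i2 : I} {is : m}
    (hW1 : W2 ++ [(x2, i2)] ++ [(.a is, i₀)] ∈ T) (hl : W2.length + 2 = N)
    {y₀ : Lt m n} {t₀ : I} {U₀ : Wd m n I} (hU : U₀.length + 1 = d)
    (hvU : v ((y₀, t₀) :: U₀) ≠ 0)
    (hTt : ∀ W ∈ T, W.length = N → ∃ (W' : Wd m n I) (i : m), W = W' ++ [(.a i, i₀)])
    (h1 : ∀ U : Wd m n I, U.length = d → v U ≠ 0 → v U = 1)
    (hh : ∀ U : Wd m n I, U.length = d → v U ≠ 0 → ∃ y t U', U = (y, t) :: U' ∧
      red (.a is : Lt m n) y = true) : False := by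
  have hh' : ∀ U : Wd m n I, U.length = d → v U ≠ 0 → ∀ i : m, ∃ y t U', U = (y, t) :: U' ∧
      red (.a i : Lt m n) y = true := by
    intro U hU1 hU2 i
    obtain ⟨y, t, U', he, hr⟩ := hh U hU1 hU2
    refine ⟨y, t, U', he, ?_⟩
    rw [red_a y i is]
    exact hr
  have hy₀ : ∀ i : m, red (.a i) y₀ = true := by
    intro i
    obtain ⟨y, t, U', he, hr⟩ := hh' _ (by simpa using hU) hvU i
    simp only [List.cons.injEq, Prod.mk.injEq] at he
    rw [he.1.1]
    exact hr
  have hv0 : ∀ l, v ((sub y₀ l, t₀) :: U₀) = 0 := by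
    intro l
    by_contra hne
    obtain ⟨y, t, U', he, hr⟩ := hh' _ (by simpa using hU) hne is
    simp only [List.cons.injEq, Prod.mk.injEq] at he
    rw [← he.1.1, red_ns _ (ns_sub y₀ l)] at hr
    exact absurd hr (by simp)
  -- the value at the chosen word
  have hval : ∀ (l₀ : n) (w : I), ∀ W ∈ T,
      (P A B i₀ v W) (W2 ++ (x2, w) :: (sub y₀ l₀, t₀) :: U₀) =
      algebraMap (ZMod 2) R (B.repr (∑ i, pick2 B i₀ N W2 x2 i W * A i l₀) w) := by
    intro l₀ w W hWT
    obtain ⟨hWn, hW0, hWl⟩ := hT W hWT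
    by_cases hlen : W.length = N
    · obtain ⟨W', i, rfl⟩ := hTt W hWT hlen
      have hlen' : W'.length + 1 = N := by simpa using hlen
      have hW'0 : W' ≠ [] := by
        rintro rfl
        simp at hlen'
        omega
      obtain ⟨V, ⟨x', i'⟩, rfl⟩ : ∃ V p, W' = V ++ [p] :=
        ⟨W'.dropLast, W'.getLast hW'0, (List.dropLast_append_getLast hW'0).symm⟩
      have hVl : V.length + 2 = N := by
        rw [List.length_append] at hlen'
        simpa using hlen'
      have hnl1 := NrmL_of i₀ _ _ i₀ hWn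
      have hnl2 : NrmL i₀ V x' := NrmL_of i₀ V x' i' (by
        have := hWn
        clear * - this
        induction V with
        | nil => exact ⟨rfl, trivial⟩
        | cons p V ih =>
          obtain ⟨y, j⟩ := p
          refine ⟨?_, ih this.2⟩
          have h1 := this.1
          rcases V with _ | ⟨p', V⟩
          · exact h1
          · exact h1)
      have e0 : W2 ++ (x2, w) :: (sub y₀ l₀, t₀) :: U₀ =
          (W2 ++ [(x2, w)]) ++ (sub y₀ l₀, t₀) :: U₀ := by simp
      have hsum : (∑ k, pick2 B i₀ N W2 x2 k (V ++ [(x', i')] ++ [(Lt.a i, i₀)]) * A k l₀) =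
          pick B W2 x2 (V ++ [(x', i')]) * A i l₀ := by
        rw [Finset.sum_eq_single i]
        · rw [pick2, if_pos, List.dropLast_concat]
          exact ⟨hlen, List.getLast?_concat⟩
        · intro k _ hk
          rw [pick2, if_neg, zero_mul]
          rintro ⟨-, h⟩
          rw [List.getLast?_concat] at h
          simp only [Option.some.injEq, Prod.mk.injEq, Lt.a.injEq, and_true] at h
          exact hk h.symm
        · intro h
          exact absurd (Finset.mem_univ _) h
      rw [hsum, pick_concat, e0, P_second A B i₀ hB hd hv h1 hWn ?_ ?_ ?_ t₀ hU]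
      · rw [Finset.sum_eq_single ((y₀, t₀) :: U₀)]
        · rw [rw0, ← e0, rwA_apply A B i₀ hB (by omega) i' hnl2 i (hy₀ i) (hy₀ i) _ _ rfl,
            if_pos rfl]
          by_cases h2 : V = W2 ∧ x' = x2
          · rw [if_pos h2, if_pos h2]
          · rw [if_neg h2, if_neg h2]
            simp
        · intro U hUm hUne
          have hUm' := Finset.mem_filter.mp hUm
          obtain ⟨y, t, U', rfl, hr⟩ := hh' U hUm'.2 (Finsupp.mem_support_iff.mp hUm'.1) i
          rw [rw0, ← e0, rwA_apply A B i₀ hB (by omega) i' hnl2 i hr (hy₀ i) _ _ ?_,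
            if_neg hUne]
          have := hUm'.2
          simp only [List.length_cons] at this
          omega
        · intro hno
          exfalso
          apply hno
          rw [Finset.mem_filter]
          exact ⟨Finsupp.mem_support_iff.mpr hvU, by simpa using hU⟩
      · intro U hU1 hU2
        obtain ⟨y, t, U', rfl, hr⟩ := hh' U hU1 hU2 i
        simp [redex, hr]
      · simp only [List.length_append, List.length_cons, List.length_nil]
        omega
      · exact sub_ne _ _ _
    · have e0 : W2 ++ (x2, w) :: (sub y₀ l₀, t₀) :: U₀ =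
          (W2 ++ [(x2, w)]) ++ (sub y₀ l₀, t₀) :: U₀ := by simp
      rw [e0, P_short A B i₀ hB hv hN hWn hW0 (by omega) (by simp; omega) _ _ hU (hv0 l₀)]
      have : (∑ k, pick2 B i₀ N W2 x2 k W * A k l₀) = 0 := by
        apply Finset.sum_eq_zero
        intro k _
        rw [pick2, if_neg (fun h => hlen h.1), zero_mul]
      rw [this]
      simp
  set Y : m → R := fun i => ∑ W ∈ T, pick2 B i₀ N W2 x2 i W with hY
  have hYA : ∀ l₀, ∑ i, Y i * A i l₀ = 0 := by
    intro l₀
    apply B.repr.injective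
    ext w
    rw [map_zero, Finsupp.zero_apply]
    have h2 := hZ (W2 ++ (x2, w) :: (sub y₀ l₀, t₀) :: U₀) (by
      simp only [List.length_append, List.length_cons]
      omega)
    rw [Finsupp.finsetSum_apply, Finset.sum_congr rfl (hval l₀ w), ← map_sum,
      ← Finsupp.finsetSum_apply, ← map_sum, Finset.sum_comm] at h2
    have h3 := algmap_inj h2
    rw [← h3]
    congr 2
    refine Finset.sum_congr rfl fun i _ => ?_
    rw [hY, Finset.sum_mul]
  have hY0 : (Matrix.of fun (_ : Unit) i => Y i) = 0 := by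
    apply hA.2
    ext u l
    rw [Matrix.mul_apply, Matrix.zero_apply]
    exact hYA l
  have hY1 : Y is = 0 := congr_fun (congr_fun hY0 ()) is
  have h4 : B.repr (Y is) i2 = 1 := by
    rw [hY, map_sum, Finsupp.finsetSum_apply,
      Finset.sum_eq_single (W2 ++ [(x2, i2)] ++ [(Lt.a is, i₀)])]
    · rw [pick2, if_pos, List.dropLast_concat, pick_concat, if_pos ⟨rfl, rfl⟩, B.repr_self,
        Finsupp.single_eq_same]
      refine ⟨?_, List.getLast?_concat⟩
      simp only [List.length_append, List.length_cons, List.length_nil]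
      omega
    · intro W hWT hWne
      by_cases h : W.length = N ∧ W.getLast? = some (.a is, i₀)
      · rw [pick2, if_pos h]
        have hW0 := (hT W hWT).2.1
        obtain ⟨W', p, rfl⟩ : ∃ W' p, W = W' ++ [p] :=
          ⟨W.dropLast, W.getLast hW0, (List.dropLast_append_getLast hW0).symm⟩
        rw [List.dropLast_concat]
        have hp := h.2
        rw [List.getLast?_concat] at hp
        simp only [Option.some.injEq] at hp
        subst hp
        have hlen' : W'.length + 1 = N := by simpa using h.1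
        have hW'0 : W' ≠ [] := by
          rintro rfl
          simp at hlen'
          omega
        obtain ⟨V, ⟨x', i'⟩, rfl⟩ : ∃ V p, W' = V ++ [p] :=
          ⟨W'.dropLast, W'.getLast hW'0, (List.dropLast_append_getLast hW'0).symm⟩
        rw [pick_concat]
        by_cases h5 : V = W2 ∧ x' = x2
        · obtain ⟨rfl, rfl⟩ := h5
          rw [if_pos ⟨rfl, rfl⟩, B.repr_self, Finsupp.single_eq_of_ne]
          have : i' ≠ i2 := by
            rintro rfl
            exact hWne rfl
          first | exact this | exact this.symm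
        · rw [if_neg h5]
          simp
      · rw [pick2, if_neg h]
        simp
    · intro h
      exact absurd hW1 h
  rw [hY1] at h4
  simp at h4

/-- picks the coefficients of the words with given tail -/
noncomputable def hpick (U₀ : Wd m n I) (j : n) : Wd m n I → R
  | [] => 0
  | (y, t) :: U' => if y = .d j ∧ U' = U₀ then B t else 0

/-- the letter produced by a rewriting of `c` or `r` with `d` -/
def sub2 : Lt m n → m → Lt m n
  | .c l, p => .s l p
  | _, p => .b p

omit [Fintype m] [Fintype n] [DecidableEq m] [DecidableEq n] [DecidableEq (Lt m n)] in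
theorem nf_sub2 (x : Lt m n) (p : m) : nf (sub2 x p) = true := by
  cases x <;> rfl

omit [Fintype m] [Fintype n] [DecidableEq m] [DecidableEq n] [DecidableEq (Lt m n)] in
theorem sub2_inj {x x' : Lt m n} {j : n} {p p' : m} (hx : red x (.d j) = true)
    (hx' : red x' (.d j) = true) (h : sub2 x p = sub2 x' p') : x = x' ∧ p = p' := by
  cases x <;> cases x' <;> simp_all [sub2, red]

omit [Fintype m] [Fintype n] [DecidableEq m] [DecidableEq n] [DecidableEq (Lt m n)] in
theorem red_sub2 {x : Lt m n} {j : n} (hx : red x (.d j) = true) (p : m) (y : Lt m n)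
    (h : red y (sub2 x p) = true) : red y x = true := by
  cases x <;> cases y <;> simp_all [sub2, red]

omit [Fintype m] [Fintype n] [DecidableEq m] [DecidableEq n] [DecidableEq (Lt m n)] in
theorem sub2_ne {x : Lt m n} {j : n} (hx : red x (.d j) = true) (x' : Lt m n) (p : m)
    (hx' : red x' (.d j) = true) : sub2 x p ≠ x' := by
  cases x <;> cases x' <;> simp_all [sub2, red]

omit [Fintype m] [Fintype n] [DecidableEq m] [DecidableEq n] [DecidableEq (Lt m n)] in
theorem red_d (x : Lt m n) (j j' : n) : red x (.d j) = red x (.d j') := by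
  cases x <;> rfl

omit [Fintype m] [Fintype n] [DecidableEq m] [DecidableEq n] [DecidableEq (Lt m n)] in
theorem red_x_sub2 {x : Lt m n} {j : n} (hx : red x (.d j) = true) (x' : Lt m n) (p : m)
    (hx' : red x' (.d j) = true) : red x' (sub2 x p) = false := by
  cases x <;> cases x' <;> simp_all [sub2, red]

theorem rwC {x : Lt m n} {j : n} (hx : red x (.d j) = true) (t : I) (U : Wd m n I) :
    ∃ low ∈ Dle R m n I U.length, rwr A B x (.d j) t U =
      low + ∑ p, pre B (sub2 x p) U (A p j * B t) := by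
  cases x with
  | c l =>
    refine ⟨if l = j then Finsupp.single U (B t) else 0, ?_, rfl⟩
    split_ifs
    · exact single_mem_Dle (le_refl _) _
    · exact Submodule.zero_mem _
  | r =>
    exact ⟨0, Submodule.zero_mem _, by rw [zero_add]; rfl⟩
  | a _ => simp [red] at hx
  | b _ => simp [red] at hx
  | d _ => simp [red] at hx
  | s _ _ => simp [red] at hx

theorem rwC_apply (hB : B i₀ = 1) {W1 Z1 : Wd m n I} (hl : W1.length = Z1.length)
    {x x₀ : Lt m n} {j : n} (hx : red x (.d j) = true) (hx₀ : red x₀ (.d j) = true)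
    (hW : NrmL i₀ W1 x) (t : I) {U U₀ : Wd m n I} (hU : U.length = U₀.length) (u : I) (p₀ : m) :
    (P A B i₀ (rwr A B x (.d j) t U) W1) (Z1 ++ (sub2 x₀ p₀, u) :: U₀) =
      if (W1 = Z1 ∧ x = x₀) ∧ U = U₀ then
        algebraMap (ZMod 2) R (B.repr (A p₀ j * B t) u) else 0 := by
  obtain ⟨low, hlow, he⟩ := rwC A B hx t U
  rw [he, P_add, Finsupp.add_apply]
  have e1 : (P A B i₀ low W1) (Z1 ++ (sub2 x₀ p₀, u) :: U₀) = 0 := by
    apply Dle_apply (P_mem_Dle A B i₀ hlow _)
    simp only [List.length_append, List.length_cons]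
    omega
  rw [e1, zero_add, P_sum, Finsupp.finsetSum_apply]
  have e2 : ∀ p, (P A B i₀ (pre B (sub2 x p) U (A p j * B t)) W1) (Z1 ++ (sub2 x₀ p₀, u) :: U₀) =
      if (W1 = Z1 ∧ x = x₀ ∧ U = U₀) ∧ p = p₀ then
        algebraMap (ZMod 2) R (B.repr (A p j * B t) u) else 0 := by
    intro p
    have hnl : NrmL i₀ W1 (sub2 x p) := NrmL_mono i₀ (red_sub2 hx p) hW
    rw [P_pre A B i₀ hB (nf_sub2 x p) W1 hnl, md_apply hl]
    by_cases h1 : W1 = Z1
    · rw [if_pos h1, pre_apply B i₀ (nf_sub2 x p)]
      by_cases h2 : sub2 x₀ p₀ = sub2 x p ∧ U = U₀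
      · obtain ⟨h3, h4⟩ := sub2_inj hx₀ hx h2.1
        rw [if_pos h2, if_pos ⟨⟨h1, h3.symm, h2.2⟩, h4.symm⟩]
      · rw [if_neg h2, if_neg]
        rintro ⟨⟨-, h3, h4⟩, h5⟩
        exact h2 ⟨by rw [h3, h5], h4⟩
    · rw [if_neg h1, if_neg (fun h => h1 h.1.1)]
  simp only [e2]
  by_cases h1 : (W1 = Z1 ∧ x = x₀) ∧ U = U₀
  · rw [if_pos h1, Finset.sum_eq_single p₀]
    · rw [if_pos ⟨⟨h1.1.1, h1.1.2, h1.2⟩, rfl⟩]
    · intro p _ hp
      rw [if_neg (fun h => hp h.2)]
    · intro h
      exact absurd (Finset.mem_univ _) h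
  · rw [if_neg h1]
    apply Finset.sum_eq_zero
    intro p _
    rw [if_neg (fun h => h1 ⟨⟨h.1.1, h.1.2.1⟩, h.1.2.2⟩)]

theorem case2 [IsDomain R] (hA : Reg A) (hB : B i₀ = 1) {v : Wd m n I →₀ R} {N d : ℕ}
    (hv : v ∈ Dle R m n I d) (hd : 1 ≤ d) (T : Finset (Wd m n I))
    (hT : ∀ W ∈ T, Nrm i₀ W ∧ W ≠ [] ∧ W.length ≤ N) (hN : 2 ≤ N)
    (hZ : ∀ Z : Wd m n I, 2 ≤ Z.length → (∑ W ∈ T, P A B i₀ v W) Z = 0)
    {W1 : Wd m n I} {xs : Lt m n}
    (hW1 : W1 ++ [(xs, i₀)] ∈ T) (hl : W1.length + 1 = N)
    {j₀ : n} (hxs : red xs (.d j₀) = true) {t₀ : I} {U₀ : Wd m n I} (hU : U₀.length + 1 = d)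
    (hvU : v ((.d j₀, t₀) :: U₀) ≠ 0)
    (hTt : ∀ W ∈ T, W.length = N → ∃ (W' : Wd m n I) (x : Lt m n), W = W' ++ [(x, i₀)] ∧
      red x (.d j₀) = true)
    (h1 : ∀ U : Wd m n I, U.length = d → v U ≠ 0 → v U = 1)
    (hh : ∀ U : Wd m n I, U.length = d → v U ≠ 0 → ∃ y t U', U = (y, t) :: U' ∧
      red xs y = true) : False := by
  have hh' : ∀ U : Wd m n I, U.length = d → v U ≠ 0 → ∃ (j : n) (t : I) (U' : Wd m n I),
      U = (.d j, t) :: U' := by
    intro U hU1 hU2
    obtain ⟨y, t, U', he, hr⟩ := hh U hU1 hU2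
    cases xs <;> cases y <;> simp only [red, Bool.false_eq_true] at hr hxs
    · exact ⟨_, _, _, he⟩
    · exact ⟨_, _, _, he⟩
  have hv0 : ∀ (p : m) (u : I), v ((sub2 xs p, u) :: U₀) = 0 := by
    intro p u
    by_contra hne
    obtain ⟨y, t, U', he, hr⟩ := hh _ (by simpa using hU) hne
    simp only [List.cons.injEq, Prod.mk.injEq] at he
    rw [← he.1.1, red_x_sub2 hxs xs p hxs] at hr
    exact absurd hr (by simp)
  -- the value at the chosen word
  have hval : ∀ (p₀ : m) (u : I), ∀ W ∈ T,
      (P A B i₀ v W) (W1 ++ (sub2 xs p₀, u) :: U₀) =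
      if W = W1 ++ [(xs, i₀)] then
      algebraMap (ZMod 2) R (B.repr (∑ j, A p₀ j *
        ∑ U ∈ v.support.filter (fun U => U.length = d), hpick B U₀ j U) u) else 0 := by
    intro p₀ u W hWT
    obtain ⟨hWn, hW0, hWl⟩ := hT W hWT
    by_cases hlen : W.length = N
    · obtain ⟨W', x, rfl, hx⟩ := hTt W hWT hlen
      have hlen' : W'.length + 1 = N := by simpa using hlen
      have hnl := NrmL_of i₀ W' x i₀ hWn
      rw [P_second A B i₀ hB hd hv h1 hWn ?_ ?_ ?_ u hU]
      · have e1 : ∀ U ∈ v.support.filter (fun U => U.length = d),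
            (P A B i₀ (rw0 A B x U) W') (W1 ++ (sub2 xs p₀, u) :: U₀) =
            if W' ++ [(x, i₀)] = W1 ++ [(xs, i₀)] then
              algebraMap (ZMod 2) R (B.repr (∑ j, A p₀ j * hpick B U₀ j U) u) else 0 := by
          intro U hUm
          have hUm' := Finset.mem_filter.mp hUm
          obtain ⟨j, t, U', rfl⟩ := hh' U hUm'.2 (Finsupp.mem_support_iff.mp hUm'.1)
          have hUl := hUm'.2
          simp only [List.length_cons] at hUl
          rw [red_d x j₀ j] at hx
          have hxs' := hxs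
          rw [red_d xs j₀ j] at hxs'
          rw [rw0, rwC_apply A B i₀ hB (by omega) hx hxs' hnl t (by omega) u p₀]
          have e2 : (∑ k, A p₀ k * hpick B U₀ k ((Lt.d j, t) :: U')) =
              if U' = U₀ then A p₀ j * B t else 0 := by
            simp only [hpick]
            rw [Finset.sum_eq_single j]
            · split_ifs with h2 h3 h3
              · rfl
              · exact absurd h2.2 h3
              · exact absurd ⟨rfl, h3⟩ h2
              · rw [mul_zero]
            · intro k _ hk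
              rw [if_neg, mul_zero]
              rintro ⟨h, -⟩
              simp only [Lt.d.injEq] at h
              exact hk h.symm
            · intro h
              exact absurd (Finset.mem_univ _) h
          rw [e2]
          have e3 : (W' ++ [(x, i₀)] = W1 ++ [(xs, i₀)]) ↔ (W' = W1 ∧ x = xs) := by
            constructor
            · intro h
              have h2 := List.append_inj' h rfl
              refine ⟨h2.1, ?_⟩
              have := h2.2
              simp at this
              exact this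
            · rintro ⟨rfl, rfl⟩
              rfl
          by_cases h2 : W' = W1 ∧ x = xs
          · by_cases h3 : U' = U₀
            · rw [if_pos ⟨h2, h3⟩, if_pos (e3.mpr h2), if_pos h3]
            · rw [if_neg (fun h => h3 h.2), if_pos (e3.mpr h2), if_neg h3]
              simp
          · rw [if_neg (fun h => h2 h.1), if_neg (fun h => h2 (e3.mp h))]
        rw [Finset.sum_congr rfl e1]
        by_cases h2 : W' ++ [(x, i₀)] = W1 ++ [(xs, i₀)]
        · simp only [if_pos h2]
          rw [← map_sum, ← Finsupp.finsetSum_apply, ← map_sum, Finset.sum_comm]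
          simp only [Finset.mul_sum]
        · simp only [if_neg h2]
          simp
      · intro U hU1 hU2
        obtain ⟨j, t, U', rfl⟩ := hh' U hU1 hU2
        rw [red_d x j₀ j] at hx
        simp [redex, hx]
      · omega
      · exact sub2_ne hxs x p₀ hx
    · rw [P_short A B i₀ hB hv hN hWn hW0 (by omega) hl _ _ hU (hv0 p₀ u), if_neg]
      rintro rfl
      apply hlen
      simp only [List.length_append, List.length_cons, List.length_nil]
      omega
  set h : n → R := fun j => ∑ U ∈ v.support.filter (fun U => U.length = d), hpick B U₀ j U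
    with hh0
  have hAh : ∀ p₀, ∑ j, A p₀ j * h j = 0 := by
    intro p₀
    apply B.repr.injective
    ext u
    rw [map_zero, Finsupp.zero_apply]
    have h2 := hZ (W1 ++ (sub2 xs p₀, u) :: U₀) (by
      simp only [List.length_append, List.length_cons]
      omega)
    rw [Finsupp.finsetSum_apply, Finset.sum_congr rfl (hval p₀ u), Finset.sum_ite_eq',
      if_pos hW1] at h2
    exact algmap_inj h2
  have hh1 : (Matrix.of fun i (_ : Unit) => h i) = 0 := by
    apply hA.1
    ext p u
    rw [Matrix.mul_apply, Matrix.zero_apply]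
    exact hAh p
  have hh2 : h j₀ = 0 := congr_fun (congr_fun hh1 j₀) ()
  have h4 : B.repr (h j₀) t₀ = 1 := by
    rw [hh0, map_sum, Finsupp.finsetSum_apply,
      Finset.sum_eq_single ((Lt.d j₀, t₀) :: U₀)]
    · rw [hpick, if_pos ⟨rfl, rfl⟩, B.repr_self, Finsupp.single_eq_same]
    · intro U hUm hUne
      have hUm' := Finset.mem_filter.mp hUm
      obtain ⟨j, t, U', rfl⟩ := hh' U hUm'.2 (Finsupp.mem_support_iff.mp hUm'.1)
      rw [hpick]
      by_cases h5 : (Lt.d j : Lt m n) = .d j₀ ∧ U' = U₀
      · rw [if_pos h5, B.repr_self, Finsupp.single_eq_of_ne]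
        have : t ≠ t₀ := by
          rintro rfl
          apply hUne
          rw [h5.1, h5.2]
        first | exact this | exact this.symm
      · rw [if_neg h5]
        simp
    · intro hno
      exfalso
      apply hno
      rw [Finset.mem_filter]
      exact ⟨Finsupp.mem_support_iff.mpr hvU, by simpa using hU⟩
  rw [hh2] at h4
  simp at h4

omit [Fintype m] [Fintype n] [DecidableEq m] [DecidableEq n] [DecidableEq (Lt m n)] in
theorem red_ax {is : m} {x y : Lt m n} (h : red (.a is) y = true) (h' : red x y = true) :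
    ∃ i, x = .a i := by
  cases y <;> simp only [red, Bool.false_eq_true] at h <;> cases x <;>
    simp only [red, Bool.false_eq_true] at h' <;> exact ⟨_, rfl⟩

theorem key [IsDomain R] (hA : Reg A) (hB : B i₀ = 1) (hu : ∀ u v : R, u * v = 1 → u = 1)
    {v : Wd m n I →₀ R} (hv : v ≠ 0) {N : ℕ} (T : Finset (Wd m n I))
    (hT : ∀ W ∈ T, Nrm i₀ W ∧ W ≠ [] ∧ W.length ≤ N) (hN : 2 ≤ N)
    (hTN : ∃ W ∈ T, W.length = N) :
    ∃ Z : Wd m n I, 2 ≤ Z.length ∧ (∑ W ∈ T, P A B i₀ v W) Z ≠ 0 := by
  by_contra hcon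
  push Not at hcon
  -- the degree of `v`
  have hne : v.support.Nonempty := Finsupp.support_nonempty_iff.mpr hv
  obtain ⟨Us, hUs, hmax⟩ := Finset.exists_max_image v.support List.length hne
  set d := Us.length with hd0
  have hvd : v ∈ Dle R m n I d := fun U hU => hmax U hU
  have hvUs : v Us ≠ 0 := Finsupp.mem_support_iff.mp hUs
  obtain ⟨Ws, hWs, hWsl⟩ := hTN
  have hSA : ∀ W ∈ T, W.length = N → ∃ (W' : Wd m n I) (x : Lt m n), W = W' ++ [(x, i₀)] ∧
      W'.length + 1 = N ∧ ∀ U : Wd m n I, U.length = d → v U ≠ 0 → v U = 1 ∧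
      ∃ y t U', U = (y, t) :: U' ∧ red x y = true := by
    intro W hW hWl
    have hW0 := (hT W hW).2.1
    obtain ⟨W', ⟨x, i⟩, rfl⟩ : ∃ W' p, W = W' ++ [p] :=
      ⟨W.dropLast, W.getLast hW0, (List.dropLast_append_getLast hW0).symm⟩
    have hl : W'.length + 1 = N := by simpa using hWl
    have := fun (U : Wd m n I) (h1 : U.length = d) (h2 : v U ≠ 0) =>
      stepA A B i₀ hB hu hvd T hT hN hcon hW hl h1 h2
    have hi := (this Us rfl hvUs).1
    subst hi
    exact ⟨W', x, rfl, hl, fun U h1 h2 => (this U h1 h2).2⟩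
  obtain ⟨W1, xs, rfl, hl, hall⟩ := hSA Ws hWs hWsl
  have h1 : ∀ U : Wd m n I, U.length = d → v U ≠ 0 → v U = 1 := fun U h h' => (hall U h h').1
  have hh : ∀ U : Wd m n I, U.length = d → v U ≠ 0 → ∃ y t U', U = (y, t) :: U' ∧
    red xs y = true := fun U h h' => (hall U h h').2
  obtain ⟨ys, ts, U₀, hUe, hrs⟩ := hh Us rfl hvUs
  have hUl : U₀.length + 1 = d := by rw [hd0, hUe]; simp
  have hd : 1 ≤ d := by omega
  rw [hUe] at hvUs
  have hUsd : ((ys, ts) :: U₀ : Wd m n I).length = d := by simpa using hUl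
  cases xs with
  | a is =>
    have hW10 : W1 ≠ [] := by
      rintro rfl
      simp at hl
      omega
    obtain ⟨W2, ⟨x2, i2⟩, rfl⟩ : ∃ W' p, W1 = W' ++ [p] :=
      ⟨W1.dropLast, W1.getLast hW10, (List.dropLast_append_getLast hW10).symm⟩
    refine case1 A B i₀ hA hB hvd hd T hT hN hcon (W2 := W2) (x2 := x2) (i2 := i2) (is := is)
      hWs ?_ hUl hvUs ?_ h1 hh
    · rw [List.length_append] at hl
      simpa using hl
    · intro W hW hWl
      obtain ⟨W', x, rfl, -, hall'⟩ := hSA W hW hWl
      obtain ⟨y, t, U', he, hr⟩ := (hall' _ hUsd hvUs).2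
      simp only [List.cons.injEq, Prod.mk.injEq] at he
      obtain ⟨⟨rfl, -⟩, -⟩ := he
      obtain ⟨i, rfl⟩ := red_ax hrs hr
      exact ⟨W', i, rfl⟩
  | b _ => exact absurd hrs (by cases ys <;> simp [red])
  | d _ => exact absurd hrs (by cases ys <;> simp [red])
  | s _ _ => exact absurd hrs (by cases ys <;> simp [red])
  | c l =>
    obtain ⟨j₀, rfl⟩ : ∃ j, ys = .d j := by
      cases ys with
      | d j => exact ⟨j, rfl⟩
      | a _ => simp [red] at hrs
      | b _ => simp [red] at hrs
      | c _ => simp [red] at hrs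
      | s _ _ => simp [red] at hrs
      | r => simp [red] at hrs
    refine case2 A B i₀ hA hB hvd hd T hT hN hcon hWs hl (j₀ := j₀) rfl hUl hvUs ?_ h1 hh
    intro W hW hWl
    obtain ⟨W', x, rfl, -, hall'⟩ := hSA W hW hWl
    obtain ⟨y, t, U', he, hr⟩ := (hall' _ hUsd hvUs).2
    simp only [List.cons.injEq, Prod.mk.injEq] at he
    obtain ⟨⟨rfl, -⟩, -⟩ := he
    exact ⟨W', x, rfl, hr⟩
  | r =>
    obtain ⟨j₀, rfl⟩ : ∃ j, ys = .d j := by
      cases ys with
      | d j => exact ⟨j, rfl⟩
      | a _ => simp [red] at hrs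
      | b _ => simp [red] at hrs
      | c _ => simp [red] at hrs
      | s _ _ => simp [red] at hrs
      | r => simp [red] at hrs
    refine case2 A B i₀ hA hB hvd hd T hT hN hcon hWs hl (j₀ := j₀) rfl hUl hvUs ?_ h1 hh
    intro W hW hWl
    obtain ⟨W', x, rfl, -, hall'⟩ := hSA W hW hWl
    obtain ⟨y, t, U', he, hr⟩ := (hall' _ hUsd hvUs).2
    simp only [List.cons.injEq, Prod.mk.injEq] at he
    obtain ⟨⟨rfl, -⟩, -⟩ := he
    exact ⟨W', x, rfl, hr⟩

theorem X_eq_main {x : Lt m n} (hx : nf x = true) (z : Wd m n I →₀ R) :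
    X A B i₀ x z = main B i₀ x z := by
  revert z
  refine vind B ?_ ?_ ?_
  · simp
  · intro z z' h h'
    rw [map_add, map_add, h, h']
  · intro W i
    rw [X_single, main_single, chi, redex_nf i₀ hx]
    simp

theorem dom_prop [IsDomain R] (hA : Reg A) (hB : B i₀ = 1) (hu : ∀ u v : R, u * v = 1 → u = 1)
    (j : m) (τ : Wd m n I →₀ R) (hτ : τ ∈ NN R m n i₀) (v : Wd m n I →₀ R)
    (hc : ∃ c : R, rho A B i₀ v τ = c • Finsupp.single [] 1) :
    τ = 0 ∨ v = 0 ∨ ((∃ c : R, τ = c • Finsupp.single [] 1) ∧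
      (∃ c : R, v = c • Finsupp.single [] 1)) := by
  by_cases hτ0 : τ = 0
  · exact Or.inl hτ0
  by_cases hv0 : v = 0
  · exact Or.inr (Or.inl hv0)
  right; right
  obtain ⟨c, hc⟩ := hc
  by_cases hdeg : ∀ W ∈ τ.support, W = []
  · -- degree zero
    have h1 : τ = Finsupp.single [] (τ []) := by
      ext W
      by_cases hW : W = []
      · rw [hW, Finsupp.single_eq_same]
      · rw [Finsupp.single_eq_of_ne (by first | exact hW | exact Ne.symm hW)]
        by_contra h
        exact hW (hdeg W (Finsupp.mem_support_iff.mpr h))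
    set t := τ [] with ht
    have ht0 : t ≠ 0 := by
      intro h
      rw [h, Finsupp.single_zero] at h1
      exact hτ0 h1
    rw [h1, rho_single] at hc
    change t • v = _ at hc
    refine ⟨⟨t, by rw [Finsupp.smul_single, smul_eq_mul, mul_one]; exact h1⟩, v [], ?_⟩
    rw [Finsupp.smul_single, smul_eq_mul, mul_one]
    ext W
    by_cases hW : W = []
    · rw [hW, Finsupp.single_eq_same]
    · rw [Finsupp.single_eq_of_ne (by first | exact hW | exact Ne.symm hW)]
      have h2 : t * v W = 0 := by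
        have := DFunLike.congr_fun hc W
        rw [Finsupp.smul_apply, Finsupp.smul_apply,
          Finsupp.single_eq_of_ne (by first | exact hW | exact Ne.symm hW), smul_zero,
          smul_eq_mul] at this
        exact this
      rcases mul_eq_zero.mp h2 with h | h
      · exact absurd h ht0
      · exact h
  · exfalso
    push Not at hdeg
    obtain ⟨W₀, hW₀, hW₀0⟩ := hdeg
    set τ1 := X A B i₀ (.b j) τ with hτ1
    have hnf : nf (.b j : Lt m n) = true := rfl
    have e1 : τ1 = main B i₀ (.b j) τ := X_eq_main A B i₀ hnf τ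
    have e2 : τ1 [] = 0 := by rw [e1, main_nil]
    have e3 : ∀ y w U, τ1 ((y, w) :: U) =
        if y = .b j then algebraMap (ZMod 2) R (B.repr (τ U) w) else 0 := by
      intro y w U
      rw [e1, main_apply, redex_nf i₀ hnf]
      simp
    have e4 : ∀ W ∈ τ1.support, τ1 W = 1 := by
      intro W hW
      rw [Finsupp.mem_support_iff] at hW
      rcases W with _ | ⟨⟨y, w⟩, U⟩
      · exact absurd e2 hW
      · rw [e3] at hW ⊢
        by_cases h : y = .b j
        · rw [if_pos h] at hW ⊢
          revert hW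
          generalize B.repr (τ U) w = a
          intro hW
          have : a = 0 ∨ a = 1 := by clear hW; revert a; decide
          rcases this with rfl | rfl
          · simp at hW
          · simp
        · rw [if_neg h] at hW
          exact absurd rfl hW
    have e5 : rho A B i₀ v τ1 = ∑ W ∈ τ1.support, P A B i₀ v W := by
      rw [rho, Finsupp.linearCombination_apply, Finsupp.sum]
      refine Finset.sum_congr rfl fun W hW => ?_
      rw [e4 W hW, one_smul]
    have e6 : rho A B i₀ v τ1 = pre B (.b j) [] c := by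
      rw [hτ1, ← comm A B i₀ hB, hc, Finsupp.smul_single, smul_eq_mul, mul_one, X_nf A B i₀ hnf]
    have e7 : rho A B i₀ v τ1 ∈ Dle R m n I 1 := by
      rw [e6]
      exact pre_mem_Dle B _ (by simp) _
    -- the support
    have hτ1N : τ1 ∈ NN R m n i₀ := X_mem_NN A B i₀ _ hτ
    obtain ⟨w, hw⟩ : ∃ w, B.repr (τ W₀) w ≠ 0 := by
      by_contra h
      push Not at h
      apply Finsupp.mem_support_iff.mp hW₀
      apply B.repr.injective
      ext w
      simpa using h w
    have hmem : ((Lt.b j, w) :: W₀ : Wd m n I) ∈ τ1.support := by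
      rw [Finsupp.mem_support_iff, e3, if_pos rfl]
      intro h
      exact hw (algmap_inj h)
    obtain ⟨Ws, hWs, hmax⟩ := Finset.exists_max_image τ1.support List.length ⟨_, hmem⟩
    have hW₀l : 1 ≤ W₀.length := by
      rcases W₀ with _ | ⟨p, W⟩
      · exact absurd rfl hW₀0
      · simp
    have hN : 2 ≤ Ws.length := by
      have := hmax _ hmem
      simp only [List.length_cons] at this
      omega
    obtain ⟨Z, hZ1, hZ2⟩ := key A B i₀ hA hB hu hv0 τ1.support (fun W hW =>
      ⟨hτ1N hW, by
        rintro rfl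
        exact Finsupp.mem_support_iff.mp hW e2, hmax W hW⟩) hN ⟨Ws, hWs, rfl⟩
    apply hZ2
    rw [← e5]
    exact Dle_apply e7 (by omega)

theorem good_S (hR : Good R) (hA : Reg A) (hB : B i₀ = 1) (j : m) :
    Good (opRing (rho A B i₀) (NN R m n i₀)) := by
  have hdom := hR.dom
  refine opRing_good hR _ _ (Finsupp.single [] 1) ?_ ?_ ?_ ?_
  · exact single_mem_NN (R := R) i₀ (W := []) trivial 1
  · intro c hc
    have := DFunLike.congr_fun hc []
    simpa using this
  · intro v
    rw [rho_single, one_smul]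
    rfl
  · intro τ hτ v _ hc
    exact dom_prop A B i₀ hA hB hR.units j τ hτ v hc

/-- the letters as elements of the ring -/
noncomputable def ell (hB : B i₀ = 1) (x : Lt m n) : opRing (rho A B i₀) (NN R m n i₀) :=
  ⟨(X A B i₀ x).toAddMonoidHom, fun v z => comm A B i₀ hB v x z,
    fun _ hz => X_mem_NN A B i₀ x hz⟩

theorem ell_apply (hB : B i₀ = 1) (x : Lt m n) (z : Wd m n I →₀ R) :
    (ell A B i₀ hB x : AddMonoid.End (Wd m n I →₀ R)) z = X A B i₀ x z := rfl

end
end S3

theorem opRing_ext {R : Type} [Ring R] {V : Type} [AddCommGroup V] [Module R V]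
    {ρ : V → (V →ₗ[R] V)} {N : Submodule R V} {S T : opRing ρ N}
    (h : ∀ z, (S : AddMonoid.End V) z = (T : AddMonoid.End V) z) : S = T :=
  Subtype.ext (AddMonoidHom.ext h)

/-- evaluation of operators at a vector -/
def evl {R : Type} [Ring R] {V : Type} [AddCommGroup V] [Module R V]
    (ρ : V → (V →ₗ[R] V)) (N : Submodule R V) (z : V) : opRing ρ N →+ V where
  toFun T := (T : AddMonoid.End V) z
  map_zero' := rfl
  map_add' _ _ := rfl

open S3 in
/-- Step 3 -/
theorem step3 {R : Type} [Ring R] (hR : Good R) {m n : Type} [Fintype m] [Fintype n]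
    [DecidableEq m] [DecidableEq n] (A : Matrix m n R) (hA : Reg A) :
    ∃ (S : Type) (_ : Ring S) (φ : R →+* S), Good S ∧ Function.Injective φ ∧ Data (A.map φ) := by
  classical
  have hdom := hR.dom
  by_cases hm : Nonempty m
  · obtain ⟨j₀⟩ := hm
    have hchar : CharP R 2 := CharTwo.of_one_ne_zero_of_two_eq_zero one_ne_zero hR.two
    let _ : Algebra (ZMod 2) R := ZMod.algebra R 2
    -- a basis containing one
    have hli : LinearIndepOn (ZMod 2) id ({1} : Set R) := LinearIndepOn.singleton (by simp)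
    let s := hli.extend (Set.subset_univ _)
    let B : Module.Basis s (ZMod 2) R := Module.Basis.extend hli
    have h1s : (1 : R) ∈ s := hli.subset_extend (Set.subset_univ _) rfl
    let i₀ : s := ⟨1, h1s⟩
    have hB : B i₀ = 1 := by
      rw [Module.Basis.extend_apply_self]
    let V := Wd m n s →₀ R
    refine ⟨opRing (rho A B i₀) (NN R m n i₀), inferInstance, scal _ _, good_S A B i₀ hR hA hB j₀,
      scal_injective _ _ (Finsupp.single [] 1) ?_, ?_⟩
    · intro c hc
      have := DFunLike.congr_fun hc []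
      simpa using this
    · set L := ell A B i₀ hB with hL
      have hsum : ∀ {ι : Type} (s : Finset ι) (f : ι → opRing (rho A B i₀) (NN R m n i₀))
          (z : V), ((∑ k ∈ s, f k : opRing (rho A B i₀) (NN R m n i₀)) : AddMonoid.End V) z =
          ∑ k ∈ s, (f k : AddMonoid.End V) z := by
        intro ι s f z
        exact map_sum (evl (rho A B i₀) (NN R m n i₀) z) f s
      refine ⟨Matrix.of fun _ _ => L .r, Matrix.of fun i _ => L (.a i),
        Matrix.of fun _ j => L (.b j), Matrix.of fun l _ => L (.c l),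
        Matrix.of fun _ l => L (.d l), Matrix.of fun l j => L (.s l j), ?_, ?_, ?_, ?_, ?_⟩
      · intro h
        have h1 : L .r = 0 := congr_fun (congr_fun h ()) ()
        have h2 : X A B i₀ .r (Finsupp.single [] 1) = 0 := by
          rw [← ell_apply A B i₀ hB, ← hL, h1]
          rfl
        rw [← hB, X_single, chi, if_neg (by simp [redex])] at h2
        have h3 := DFunLike.congr_fun h2 [(Lt.r, i₀)]
        simp at h3
      · ext u l : 1
        simp only [Matrix.mul_apply, Matrix.of_apply, Matrix.map_apply, Finset.univ_unique,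
          Finset.sum_singleton]
        apply opRing_ext
        intro z
        rw [hsum]
        exact (R1 A B i₀ hB l z).symm
      · ext i u : 1
        simp only [Matrix.mul_apply, Matrix.of_apply, Matrix.map_apply, Finset.univ_unique,
          Finset.sum_singleton]
        apply opRing_ext
        intro z
        rw [hsum]
        exact R2 A B i₀ hB i z
      · ext i j : 1
        simp only [Matrix.mul_apply, Matrix.of_apply, Matrix.map_apply, Finset.univ_unique,
          Finset.sum_singleton, Matrix.add_apply]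
        apply opRing_ext
        intro z
        have e1 : ((1 : Matrix m m (opRing (rho A B i₀) (NN R m n i₀))) i j +
            ∑ l, (scal (rho A B i₀) (NN R m n i₀)) (A i l) * L (.s l j) :
            opRing (rho A B i₀) (NN R m n i₀)) =
            (if i = j then 1 else 0) + ∑ l, (scal (rho A B i₀) (NN R m n i₀)) (A i l) * L (.s l j) := by
          rw [Matrix.one_apply]
        rw [e1]
        have e2 : (((if i = j then 1 else 0) + ∑ l, (scal (rho A B i₀) (NN R m n i₀)) (A i l) *
            L (.s l j) : opRing (rho A B i₀) (NN R m n i₀)) : AddMonoid.End V) z =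
            (if i = j then z else 0) + ∑ l, A i l • X A B i₀ (.s l j) z := by
          have e3 : (((if i = j then 1 else 0) + ∑ l, (scal (rho A B i₀) (NN R m n i₀)) (A i l) *
            L (.s l j) : opRing (rho A B i₀) (NN R m n i₀)) : AddMonoid.End V) z =
            ((if i = j then 1 else 0 : opRing (rho A B i₀) (NN R m n i₀)) : AddMonoid.End V) z +
            ((∑ l, (scal (rho A B i₀) (NN R m n i₀)) (A i l) *
            L (.s l j) : opRing (rho A B i₀) (NN R m n i₀)) : AddMonoid.End V) z := rfl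
          rw [e3, hsum]
          congr 1
          split_ifs <;> rfl
        rw [e2]
        exact R3 A B i₀ hB i j z
      · ext l j : 1
        simp only [Matrix.mul_apply, Matrix.of_apply, Matrix.map_apply, Finset.univ_unique,
          Finset.sum_singleton, Matrix.add_apply]
        apply opRing_ext
        intro z
        rw [Matrix.one_apply]
        have e2 : (((if l = j then 1 else 0) + ∑ p, L (.s l p) *
            (scal (rho A B i₀) (NN R m n i₀)) (A p j) :
            opRing (rho A B i₀) (NN R m n i₀)) : AddMonoid.End V) z =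
            (if l = j then z else 0) + ∑ p, X A B i₀ (.s l p) (A p j • z) := by
          have e3 : (((if l = j then 1 else 0) + ∑ p, L (.s l p) *
            (scal (rho A B i₀) (NN R m n i₀)) (A p j) :
            opRing (rho A B i₀) (NN R m n i₀)) : AddMonoid.End V) z =
            ((if l = j then 1 else 0 : opRing (rho A B i₀) (NN R m n i₀)) : AddMonoid.End V) z +
            ((∑ p, L (.s l p) * (scal (rho A B i₀) (NN R m n i₀)) (A p j) :
              opRing (rho A B i₀) (NN R m n i₀)) : AddMonoid.End V) z := rfl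
          rw [e3, hsum]
          congr 1
          split_ifs <;> rfl
        rw [e2]
        exact R4 A B i₀ hB l j z
  · -- no rows
    have hm' : IsEmpty m := not_nonempty_iff.mp hm
    have hn' : IsEmpty n := by
      by_contra hn
      rw [not_isEmpty_iff] at hn
      obtain ⟨l⟩ := hn
      have h1 := hA.1 (Matrix.of fun _ _ => 1) (by ext i; exact hm'.elim i)
      have h2 : (1 : R) = 0 := congr_fun (congr_fun h1 l) ()
      exact one_ne_zero h2
    refine ⟨R, inferInstance, RingHom.id R, hR, Function.injective_id, 1, 0, 0, 0, 0, 0, ?_, ?_,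
      ?_, ?_, ?_⟩
    · intro h
      have h2 : (1 : R) = 0 := by
        have := congr_fun (congr_fun h ()) ()
        simpa using this
      exact one_ne_zero h2
    · ext i j; exact hn'.elim j
    · ext i j; exact hm'.elim i
    · ext i j; exact hm'.elim i
    · ext i j; exact hn'.elim i

end Pool.Agent.RDOre
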