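import Pool.Agent.RDOre.StepE2
import Pool.Agent.RDOre.Step3
import Pool.Agent.RDOre.FreeLetters
import Pool.Agent.RDOre.Limit
set_option autoImplicit false

namespace Pool.Agent.RDOre

open Matrix

theorem map_one' {R : Type} [Ring R] {m : Type} [DecidableEq m] {S : Type} [Ring S] (φ : R →+* S) :
    (1 : Matrix m m R).map φ = 1 := by
  exact Matrix.map_one φ (map_zero φ) (map_one φ)

theorem map_ne_zero' {R : Type} [Ring R] {m n : Type} {S : Type} [Ring S] (φ : R →+* S)
    (hφ : Function.Injective φ) {A : Matrix m n R} (hA : A ≠ 0) : A.map φ ≠ 0 := by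
  intro h
  apply hA
  ext i j
  apply hφ
  simpa using congrFun (congrFun h i) j

theorem Data.map {R : Type} [Ring R] {m n : Type} [Fintype m] [Fintype n] [DecidableEq m]
    [DecidableEq n] {A : Matrix m n R} (h : Data A) {S : Type} [Ring S] (φ : R →+* S)
    (hφ : Function.Injective φ) : Data (A.map φ) := by
  obtain ⟨ρ, α, β, γ, δ, s, h0, h1, h2, h3, h4⟩ := h
  refine ⟨ρ.map φ, α.map φ, β.map φ, γ.map φ, δ.map φ, s.map φ, ?_, ?_, ?_, ?_, ?_⟩
  · exact map_ne_zero' φ hφ h0
  · rw [← Matrix.map_mul, h1, Matrix.map_mul]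
  · rw [← Matrix.map_mul, h2, Matrix.map_mul]
  · rw [← Matrix.map_mul, h3, Matrix.map_add _ (map_add φ), Matrix.map_mul, map_one']
  · rw [← Matrix.map_mul, h4, Matrix.map_add _ (map_add φ), Matrix.map_mul, map_one']

theorem unit_mul_eq_zero {R : Type} [Ring R] [IsDomain R] {q : Type} (ρ : Matrix Unit Unit R)
    (hρ : ρ ≠ 0) (X : Matrix Unit q R) (h : ρ * X = 0) : X = 0 := by
  have h0 : ρ () () ≠ 0 := by
    intro h
    apply hρ
    ext i j
    simpa using h
  ext i j
  have h1 := congrFun (congrFun h ()) j
  simp [Matrix.mul_apply] at h1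
  rcases h1 with h1 | h1
  · exact absurd h1 h0
  · simpa using h1

theorem mul_unit_eq_zero {R : Type} [Ring R] [IsDomain R] {q : Type} (ρ : Matrix Unit Unit R)
    (hρ : ρ ≠ 0) (X : Matrix q Unit R) (h : X * ρ = 0) : X = 0 := by
  have h0 : ρ () () ≠ 0 := by
    intro h
    apply hρ
    ext i j
    simpa using h
  ext i j
  have h1 := congrFun (congrFun h i) ()
  simp [Matrix.mul_apply] at h1
  rcases h1 with h1 | h1
  · simpa using h1
  · exact absurd h1 h0

theorem Data.reg {R : Type} [Ring R] {m n : Type} [Fintype m] [Fintype n] [DecidableEq m]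
    [DecidableEq n] [IsDomain R] {A : Matrix m n R} (h : Data A) : Reg A := by
  obtain ⟨ρ, α, β, γ, δ, s, h0, h1, h2, h3, h4⟩ := h
  constructor
  · intro X hX
    have e1 : ρ * (δ * X) = 0 := by
      rw [← Matrix.mul_assoc, ← h1, Matrix.mul_assoc, hX, Matrix.mul_zero]
    have e2 := unit_mul_eq_zero ρ h0 _ e1
    have e3 : γ * (δ * X) = X + s * (A * X) := by
      rw [← Matrix.mul_assoc, h4, Matrix.add_mul, Matrix.one_mul, Matrix.mul_assoc]
    rw [e2, hX, Matrix.mul_zero, Matrix.mul_zero, add_zero] at e3
    exact e3.symm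
  · intro Y hY
    have e1 : (Y * α) * ρ = 0 := by
      rw [Matrix.mul_assoc, h2, ← Matrix.mul_assoc, hY, Matrix.zero_mul]
    have e2 := mul_unit_eq_zero ρ h0 _ e1
    have e3 : (Y * α) * β = Y + (Y * A) * s := by
      rw [Matrix.mul_assoc, h3, Matrix.mul_add, Matrix.mul_one, Matrix.mul_assoc]
    rw [e2, hY, Matrix.zero_mul, Matrix.zero_mul, add_zero] at e3
    exact e3.symm

/-- retracts of matrices with data have weak data -/
theorem gdata_of_block {R : Type} [Ring R] {m n : Type} [Fintype m] [Fintype n] [DecidableEq m]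
    [DecidableEq n] {A : Matrix m n R} {e : Matrix n n R} {f : Matrix m m R} {c : Matrix n m R}
    (he : e * e = e) (hAe : A * e = 0) (hf : f * f = f) (hfA : f * A = 0)
    (h : Data (fromBlocks A f e c)) : GData A := by
  obtain ⟨ρ, α, β, γ, δ, s, h0, h1, h2, h3, h4⟩ := h
  set B := fromBlocks A f e c with hB
  let ι : Matrix (n ⊕ m) n R := fromRows (1 - e) 0
  let j : Matrix (m ⊕ n) m R := fromRows 1 0
  let p : Matrix m (m ⊕ n) R := fromCols (1 - f) 0
  let q : Matrix n (n ⊕ m) R := fromCols 1 0
  have e1 : B * ι = j * A := by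
    simp only [B, ι, j]
    rw [fromBlocks_mul_fromRows, fromRows_mul]
    congr 1
    · simp [Matrix.mul_sub, hAe]
    · simp [Matrix.mul_sub, he]
  have e2 : p * B = A * q := by
    simp only [B, p, q]
    rw [fromCols_mul_fromBlocks, mul_fromCols]
    congr 1
    · simp [Matrix.sub_mul, hfA]
    · simp [Matrix.sub_mul, hf]
  have e3 : p * j = 1 - f := by
    simp only [p, j]
    rw [fromCols_mul_fromRows]
    simp
  refine ⟨ρ, p * α, β * j, q * γ, δ * ι, q * s * j, ?_, ?_, ?_⟩
  · rw [Matrix.mul_assoc, ← e1, ← Matrix.mul_assoc, h1, Matrix.mul_assoc]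
  · rw [Matrix.mul_assoc, h2, ← Matrix.mul_assoc, e2, Matrix.mul_assoc]
  · have : p * α * (β * j) * A = p * (α * β) * (j * A) := by
      simp only [Matrix.mul_assoc]
    rw [this, h3, Matrix.mul_add, Matrix.add_mul, Matrix.mul_one, ← Matrix.mul_assoc p j A, e3,
      Matrix.sub_mul, Matrix.one_mul, hfA, sub_zero]
    congr 1
    rw [← Matrix.mul_assoc p B s, e2]
    simp only [Matrix.mul_assoc]

theorem exists_entry {R : Type} [Ring R] {m n : Type} {A : Matrix m n R} (h : A ≠ 0) :
    ∃ i j, A i j ≠ 0 := by
  by_contra h1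
  push Not at h1
  exact h (by ext i j; simpa using h1 i j)

/-- making a split right kernel persistent -/
theorem lockR {R : Type} [Ring R] (hR : Good R) {m n : Type} [Fintype m] [Fintype n]
    [DecidableEq m] [DecidableEq n] (A : Matrix m n R) (e : Matrix n n R) (he : e * e = e)
    (hAe : A * e = 0) (hex : ∀ X : Matrix n Unit R, A * X = 0 → e * X = X) (hne : e ≠ 1) :
    ∃ (S : Type) (_ : Ring S) (φ : R →+* S), Good S ∧ Function.Injective φ ∧
      ∀ (T : Type) [Ring T] [IsDomain T] (ψ : S →+* T), Function.Injective ψ →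
        ∀ X : Matrix n Unit T, (A.map φ).map ψ * X = 0 → (e.map φ).map ψ * X = X := by
  obtain ⟨T1, _, φ, x, g1, i1, hL, hRt, hcomm, hk, -⟩ := stepL hR (m ⊕ n)
  have : IsDomain T1 := g1.dom
  let G1 : Matrix m Unit T1 := Matrix.of fun i _ => x (Sum.inl i)
  let G2 : Matrix n Unit T1 := Matrix.of fun i _ => x (Sum.inr i)
  let B : Matrix (m ⊕ n) (n ⊕ Unit) T1 := fromBlocks (A.map φ) G1 (e.map φ) G2
  have hB : Reg B := by
    constructor
    · intro X hX
      obtain ⟨i0, j0, hij⟩ := exists_entry (sub_ne_zero.mpr (Ne.symm hne))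
      set X1 : Matrix n Unit T1 := X.toRows₁ with hX1
      set X2 : Matrix Unit Unit T1 := X.toRows₂ with hX2
      have hXe : X = fromRows X1 X2 := (fromRows_toRows X).symm
      rw [hXe] at hX
      simp only [B] at hX
      rw [fromBlocks_mul_fromRows] at hX
      have h1 : A.map φ * X1 + G1 * X2 = 0 := by
        ext i j
        have := congrFun (congrFun hX (Sum.inl i)) j
        simpa using this
      have h2 : e.map φ * X1 + G2 * X2 = 0 := by
        ext i j
        have := congrFun (congrFun hX (Sum.inr i)) j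
        simpa using this
      have h3 : ((1 - e).map φ) * (G2 * X2) = 0 := by
        have h4 : ((1 - e).map φ) * (e.map φ * X1 + G2 * X2) = 0 := by
          rw [h2, Matrix.mul_zero]
        rw [Matrix.mul_add, ← Matrix.mul_assoc, ← Matrix.map_mul, Matrix.sub_mul, Matrix.one_mul,
          he, sub_self] at h4
        simpa using h4
      have h5 : X2 () () = 0 := by
        have h6 := congrFun (congrFun h3 i0) ()
        simp only [Matrix.mul_apply, Finset.univ_unique, Finset.sum_singleton, of_apply,
          Matrix.zero_apply, Matrix.map_apply, G2] at h6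
        have h7 := hL (fun k => match k with
          | Sum.inl _ => 0
          | Sum.inr j => φ ((1 - e) i0 j) * X2 () ()) (by
            rw [Fintype.sum_sum_type]
            simp only [mul_zero, Finset.sum_const_zero, zero_add]
            rw [← h6]
            refine Finset.sum_congr rfl fun j _ => ?_
            rw [← mul_assoc, hcomm, mul_assoc])
        have h8 := congrFun h7 (Sum.inr j0)
        simp only [Pi.zero_apply] at h8
        rcases mul_eq_zero.mp h8 with h9 | h9
        · exact absurd ((map_eq_zero_iff φ i1).mp h9) hij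
        · exact h9
      have h6 : X2 = 0 := by
        ext i j
        simpa using h5
      rw [h6, Matrix.mul_zero, add_zero] at h1 h2
      have h7 := hk m n A e hex X1 h1
      rw [h2] at h7
      rw [hXe, h6, ← h7]
      ext i j
      rcases i with i | i <;> simp
    · intro Y hY
      have h1 : ∑ k, Y () k * x k = 0 := by
        have := congrFun (congrFun hY ()) (Sum.inr ())
        simp only [B, G1, G2, Matrix.mul_apply, Fintype.sum_sum_type, fromBlocks_apply₁₂,
          fromBlocks_apply₂₂, of_apply, Matrix.zero_apply] at this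
        rw [Fintype.sum_sum_type]
        exact this
      have h2 := hRt _ h1
      ext i j
      simpa using congrFun h2 j
  obtain ⟨T2, _, φ2, g2, i2, d2⟩ := step3 g1 B hB
  refine ⟨T2, inferInstance, φ2.comp φ, g2, i2.comp i1, ?_⟩
  intro T _ _ ψ hψ X hX
  have hr := (d2.map ψ hψ).reg
  set A' := (A.map (φ2.comp φ)).map ψ with hA'
  set e' := (e.map (φ2.comp φ)).map ψ with he'
  have hBm : (B.map φ2).map ψ = fromBlocks A' ((G1.map φ2).map ψ) e' ((G2.map φ2).map ψ) := by
    ext i j
    rcases i with i | i <;> rcases j with j | j <;> simp [B, A', e']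
  have e1 : e' * e' = e' := by
    rw [he', ← Matrix.map_mul, ← Matrix.map_mul, he]
  have e2 : A' * e' = 0 := by
    rw [he', hA', ← Matrix.map_mul, ← Matrix.map_mul, hAe]
    simp
  have h1 := hr.1 (fromRows (X - e' * X) 0) (by
    rw [hBm, fromBlocks_mul_fromRows, Matrix.mul_sub, Matrix.mul_sub, ← Matrix.mul_assoc,
      ← Matrix.mul_assoc, e1, e2, hX]
    ext i j
    rcases i with i | i <;> simp)
  have h2 : X - e' * X = 0 := by
    ext i j
    have := congrFun (congrFun h1 (Sum.inl i)) j
    simpa using this
  exact (sub_eq_zero.mp h2).symm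

theorem map_comp' {R S T : Type} [Ring R] [Ring S] [Ring T] (φ : R →+* S) (ψ : S →+* T)
    {m n : Type} (A : Matrix m n R) : A.map (ψ.comp φ) = (A.map φ).map ψ := by
  ext i j
  simp

theorem GData.zero {R : Type} [Ring R] {m n : Type} [Fintype m] [Fintype n] [DecidableEq m]
    [DecidableEq n] : GData (0 : Matrix m n R) :=
  ⟨0, 0, 0, 0, 0, 0, by simp, by simp, by simp⟩

theorem master {R : Type} [Ring R] (hR : Good R) {m n : Type} [Fintype m] [Fintype n]
    [DecidableEq m] [DecidableEq n] (A : Matrix m n R) :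
    ∃ (S : Type) (_ : Ring S) (φ : R →+* S), Good S ∧ Function.Injective φ ∧ GData (A.map φ) := by
  by_cases hA : A = 0
  · subst hA
    refine ⟨R, inferInstance, RingHom.id R, hR, Function.injective_id, ?_⟩
    have : (0 : Matrix m n R).map (RingHom.id R) = 0 := by ext i j; simp
    rw [this]
    exact GData.zero
  -- split the right kernel
  obtain ⟨S1, _, φ1, g1, i1, e, he, hAe, hex⟩ := stepE hR A
  have hne : e ≠ 1 := by
    rintro rfl
    rw [Matrix.mul_one] at hAe
    exact map_ne_zero' φ1 i1 hA hAe
  obtain ⟨S2, _, φ2, g2, i2, lock⟩ := lockR g1 (A.map φ1) e he hAe hex hne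
  -- split the left kernel
  obtain ⟨S3, _, φ3, g3, i3, f, hf, hfA, hfx⟩ := stepE' g2 ((A.map φ1).map φ2)
  have hfne : f ≠ 1 := by
    rintro rfl
    rw [Matrix.one_mul] at hfA
    exact map_ne_zero' φ3 i3 (map_ne_zero' φ2 i2 (map_ne_zero' φ1 i1 hA)) hfA
  -- letters
  obtain ⟨S4, _, φ4, x, g4, i4, hL, hRt, hcomm, -, hk⟩ := stepL g3 (n × m)
  have : IsDomain S4 := g4.dom
  have right := lock S4 (φ4.comp φ3) (i4.comp i3)
  have left := hk m n (((A.map φ1).map φ2).map φ3) f hfx
  set e3 : Matrix n n S3 := (e.map φ2).map φ3 with he3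
  set A3 : Matrix m n S3 := ((A.map φ1).map φ2).map φ3 with hA3
  have he3e : e3 * e3 = e3 := by rw [he3, ← Matrix.map_mul, ← Matrix.map_mul, he]
  have hA3e : A3 * e3 = 0 := by
    rw [he3, hA3, ← Matrix.map_mul, ← Matrix.map_mul, hAe]
    simp
  rw [map_comp', map_comp'] at right
  change ∀ X : Matrix n Unit S4, A3.map φ4 * X = 0 → e3.map φ4 * X = X at right
  have he3ne : e3 ≠ 1 := by
    intro h
    apply sub_ne_zero.mpr (Ne.symm hne)
    by_contra h1
    have h2 := map_ne_zero' φ3 i3 (map_ne_zero' φ2 i2 h1)
    apply h2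
    rw [Matrix.map_sub _ (map_sub φ2), Matrix.map_sub _ (map_sub φ3), map_one', map_one']
    change 1 - e3 = 0
    rw [h, sub_self]
  let C : Matrix n m S4 := of fun j l => x (j, l)
  let c : Matrix n m S4 := (1 - e3.map φ4) * C * (1 - f.map φ4)
  have he4 : e3.map φ4 * e3.map φ4 = e3.map φ4 := by rw [← Matrix.map_mul, he3e]
  have hf4 : f.map φ4 * f.map φ4 = f.map φ4 := by rw [← Matrix.map_mul, hf]
  have hAe4 : A3.map φ4 * e3.map φ4 = 0 := by rw [← Matrix.map_mul, hA3e]; simp
  have hfA4 : f.map φ4 * A3.map φ4 = 0 := by rw [← Matrix.map_mul, hfA]; simp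
  have hec : e3.map φ4 * c = 0 := by
    have h0 : e3.map φ4 * (1 - e3.map φ4) = 0 := by
      rw [Matrix.mul_sub, Matrix.mul_one, he4, sub_self]
    simp only [c]
    rw [← Matrix.mul_assoc, ← Matrix.mul_assoc, h0, Matrix.zero_mul, Matrix.zero_mul]
  have hcf : c * f.map φ4 = 0 := by
    have h0 : (1 - f.map φ4) * f.map φ4 = 0 := by
      rw [Matrix.sub_mul, Matrix.one_mul, hf4, sub_self]
    simp only [c]
    rw [Matrix.mul_assoc, h0, Matrix.mul_zero]
  have key : Reg (fromBlocks (A3.map φ4) (f.map φ4) (e3.map φ4) c) := by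
    constructor
    · intro X hX
      set X1 : Matrix n Unit S4 := X.toRows₁ with hX1
      set X2 : Matrix m Unit S4 := X.toRows₂ with hX2
      have hXe : X = fromRows X1 X2 := (fromRows_toRows X).symm
      rw [hXe, fromBlocks_mul_fromRows] at hX
      have h1 : A3.map φ4 * X1 + f.map φ4 * X2 = 0 := by
        ext i j
        have := congrFun (congrFun hX (Sum.inl i)) j
        simpa using this
      have h2 : e3.map φ4 * X1 + c * X2 = 0 := by
        ext i j
        have := congrFun (congrFun hX (Sum.inr i)) j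
        simpa using this
      have h3 : f.map φ4 * X2 = 0 := by
        have := congrArg (fun Z => f.map φ4 * Z) h1
        simp only [Matrix.mul_add, Matrix.mul_zero] at this
        rwa [← Matrix.mul_assoc, ← Matrix.mul_assoc, hfA4, hf4, Matrix.zero_mul, zero_add] at this
      rw [h3, add_zero] at h1
      have h4 : e3.map φ4 * X1 = 0 := by
        have := congrArg (fun Z => e3.map φ4 * Z) h2
        simp only [Matrix.mul_add, Matrix.mul_zero] at this
        rwa [← Matrix.mul_assoc, ← Matrix.mul_assoc, hec, he4, Matrix.zero_mul, add_zero] at this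
      have h5 : X1 = 0 := by
        have := right X1 h1
        rw [h4] at this
        exact this.symm
      rw [h4, zero_add] at h2
      have h6 : (1 - e3.map φ4) * (C * X2) = 0 := by
        have : c * X2 = (1 - e3.map φ4) * (C * X2) := by
          have h0 : (1 - f.map φ4) * X2 = X2 := by
            rw [Matrix.sub_mul, Matrix.one_mul, h3, sub_zero]
          simp only [c]
          rw [Matrix.mul_assoc, h0, Matrix.mul_assoc]
        rw [← this]; exact h2
      obtain ⟨i0, j0, hij⟩ := exists_entry (sub_ne_zero.mpr (Ne.symm he3ne))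
      have h7 : X2 = 0 := by
        ext l u
        have h8 := congrFun (congrFun h6 i0) u
        simp only [Matrix.mul_apply, Matrix.zero_apply] at h8
        have h9 := hL (fun p => φ4 ((1 - e3) i0 p.1) * X2 p.2 u) (by
          rw [← h8, Fintype.sum_prod_type]
          refine Finset.sum_congr rfl fun j _ => ?_
          rw [Finset.mul_sum]
          refine Finset.sum_congr rfl fun l _ => ?_
          rw [← mul_assoc, hcomm, mul_assoc]
          congr 1
          simp only [Matrix.sub_apply, map_sub, Matrix.map_apply]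
          congr 1
          simp [Matrix.one_apply, apply_ite φ4])
        have h10 := congrFun h9 (j0, l)
        simp only [Pi.zero_apply] at h10
        rcases mul_eq_zero.mp h10 with h11 | h11
        · exact absurd ((map_eq_zero_iff φ4 i4).mp h11) hij
        · simpa using h11
      rw [hXe, h5, h7]
      ext i j
      rcases i with i | i <;> simp
    · intro Y hY
      set Y1 : Matrix Unit m S4 := Y.toCols₁ with hY1
      set Y2 : Matrix Unit n S4 := Y.toCols₂ with hY2
      have hYe : Y = fromCols Y1 Y2 := (fromCols_toCols Y).symm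
      rw [hYe, fromCols_mul_fromBlocks] at hY
      have h1 : Y1 * A3.map φ4 + Y2 * e3.map φ4 = 0 := by
        ext i j
        have := congrFun (congrFun hY i) (Sum.inl j)
        simpa using this
      have h2 : Y1 * f.map φ4 + Y2 * c = 0 := by
        ext i j
        have := congrFun (congrFun hY i) (Sum.inr j)
        simpa using this
      have h3 : Y2 * e3.map φ4 = 0 := by
        have := congrArg (fun Z => Z * e3.map φ4) h1
        simp only [Matrix.add_mul, Matrix.zero_mul] at this
        rwa [Matrix.mul_assoc, Matrix.mul_assoc, hAe4, he4, Matrix.mul_zero, zero_add] at this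
      rw [h3, add_zero] at h1
      have h4 : Y1 * f.map φ4 = 0 := by
        have := congrArg (fun Z => Z * f.map φ4) h2
        simp only [Matrix.add_mul, Matrix.zero_mul] at this
        rwa [Matrix.mul_assoc, Matrix.mul_assoc, hcf, hf4, Matrix.mul_zero, add_zero] at this
      have h5 : Y1 = 0 := by
        have := left Y1 h1
        rw [h4] at this
        exact this.symm
      rw [h4, zero_add] at h2
      have h6 : (Y2 * C) * (1 - f.map φ4) = 0 := by
        have : Y2 * c = (Y2 * C) * (1 - f.map φ4) := by
          have h0 : Y2 * (1 - e3.map φ4) = Y2 := by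
            rw [Matrix.mul_sub, Matrix.mul_one, h3, sub_zero]
          simp only [c]
          rw [← Matrix.mul_assoc, ← Matrix.mul_assoc, h0]
        rw [← this]; exact h2
      obtain ⟨i0, j0, hij⟩ := exists_entry (sub_ne_zero.mpr (Ne.symm hfne))
      have h7 : Y2 = 0 := by
        ext u j
        have h8 := congrFun (congrFun h6 u) j0
        simp only [Matrix.mul_apply, Matrix.zero_apply] at h8
        have h9 := hRt (fun p => Y2 u p.1 * φ4 ((1 - f) p.2 j0)) (by
          rw [← h8, Fintype.sum_prod_type, Finset.sum_comm]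
          refine Finset.sum_congr rfl fun l _ => ?_
          rw [Finset.sum_mul]
          refine Finset.sum_congr rfl fun j _ => ?_
          rw [mul_assoc, ← hcomm, ← mul_assoc]
          congr 1
          simp only [Matrix.sub_apply, map_sub, Matrix.map_apply]
          congr 1
          simp [Matrix.one_apply, apply_ite φ4])
        have h10 := congrFun h9 (j, i0)
        simp only [Pi.zero_apply] at h10
        rcases mul_eq_zero.mp h10 with h11 | h11
        · simpa using h11
        · exact absurd ((map_eq_zero_iff φ4 i4).mp h11) hij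
      rw [hYe, h5, h7]
      ext i j
      rcases j with j | j <;> simp
  obtain ⟨S5, _, φ5, g5, i5, d5⟩ := step3 g4 _ key
  refine ⟨S5, inferInstance, φ5.comp (φ4.comp (φ3.comp (φ2.comp φ1))), g5,
    i5.comp (i4.comp (i3.comp (i2.comp i1))), ?_⟩
  have hblock : (fromBlocks (A3.map φ4) (f.map φ4) (e3.map φ4) c).map φ5 =
      fromBlocks ((A3.map φ4).map φ5) ((f.map φ4).map φ5) ((e3.map φ4).map φ5) (c.map φ5) := by
    ext i j
    rcases i with i | i <;> rcases j with j | j <;> simp
  rw [hblock] at d5
  have := gdata_of_block (by rw [← Matrix.map_mul, he4]) (by rw [← Matrix.map_mul, hAe4]; simp)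
    (by rw [← Matrix.map_mul, hf4]) (by rw [← Matrix.map_mul, hfA4]; simp) d5
  rw [map_comp', map_comp', map_comp', map_comp']
  exact this


end Pool.Agent.RDOre
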