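import Pool.Agent.RDOre.Base
set_option autoImplicit false

namespace Pool.Agent.RDOre

open Matrix

namespace SE

/-- splitting of a subspace -/
theorem splitting {E : Type} [AddCommGroup E] [Module (ZMod 2) E] (K : Submodule (ZMod 2) E) :
    ∃ (B : Type) (κ : E →ₗ[ZMod 2] E) (c : E →ₗ[ZMod 2] (B →₀ ZMod 2)) (bh : B → E),
      (∀ x, κ x ∈ K) ∧ (∀ x ∈ K, κ x = x) ∧ (∀ x ∈ K, c x = 0) ∧
      (∀ x, x = κ x + Finsupp.linearCombination (ZMod 2) bh (c x)) ∧
      (∀ b, c (bh b) = Finsupp.single b 1) := by
  obtain ⟨K', hK'⟩ := K.exists_isCompl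
  let B0 := Module.Basis.ofVectorSpace (ZMod 2) K'
  refine ⟨Module.Basis.ofVectorSpaceIndex (ZMod 2) K', K.projection K' hK',
    B0.repr.toLinearMap ∘ₗ (K'.projectionOnto K hK'.symm), fun b => (B0 b : E), ?_, ?_, ?_, ?_, ?_⟩
  · intro x
    exact Submodule.projection_apply_mem hK' x
  · intro x hx
    exact Submodule.projection_apply_of_mem_left hK' hx
  · intro x hx
    rw [LinearMap.comp_apply, (Submodule.projectionOnto_apply_eq_zero_iff hK'.symm).mpr hx,
      map_zero]
  · intro x
    have h1 : Finsupp.linearCombination (ZMod 2) (fun b => (B0 b : E))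
        (B0.repr ((K'.projectionOnto K hK'.symm) x)) =
        ((K'.projectionOnto K hK'.symm) x : E) := by
      have h2 := B0.linearCombination_repr ((K'.projectionOnto K hK'.symm) x)
      have h3 := congrArg (K'.subtype) h2
      rw [Finsupp.apply_linearCombination] at h3
      exact h3
    have h4 := Submodule.projection_add_projection_eq_self hK' x
    conv_lhs => rw [← h4]
    congr 1
    exact h1.symm
  · intro b
    rw [LinearMap.comp_apply, Submodule.projectionOnto_apply_left]
    exact B0.repr_self b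

section
variable {R : Type} [Ring R] [Algebra (ZMod 2) R] {m n : Type} [Fintype m] [Fintype n]
  [DecidableEq m] [DecidableEq n] (A : Matrix m n R)

/-- the kernel -/
def KK : Submodule (ZMod 2) (n → R) where
  carrier := {x | A *ᵥ x = 0}
  add_mem' := by
    intro x y hx hy
    simp only [Set.mem_setOf_eq] at *
    rw [Matrix.mulVec_add, hx, hy, add_zero]
  zero_mem' := Matrix.mulVec_zero A
  smul_mem' := by
    intro c x hx
    simp only [Set.mem_setOf_eq] at *
    rw [Matrix.mulVec_smul, hx, smul_zero]

theorem mem_KK {x : n → R} : x ∈ KK A ↔ A *ᵥ x = 0 := Iff.rfl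

/-- matrices preserving the kernel -/
def SS : Submodule (ZMod 2) (Matrix n n R) where
  carrier := {Y | ∀ z ∈ KK A, Y *ᵥ z ∈ KK A}
  add_mem' := by
    intro x y hx hy z hz
    rw [Matrix.add_mulVec]
    exact Submodule.add_mem _ (hx z hz) (hy z hz)
  zero_mem' := by
    intro z hz
    rw [Matrix.zero_mulVec]
    exact Submodule.zero_mem _
  smul_mem' := by
    intro c x hx z hz
    rw [Matrix.smul_mulVec]
    exact Submodule.smul_mem _ _ (hx z hz)

theorem mem_SS {Y : Matrix n n R} : Y ∈ SS A ↔ ∀ z ∈ KK A, Y *ᵥ z ∈ KK A := Iff.rfl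

/-- the left annihilator of the kernel -/
def LL : Submodule R (n → R) where
  carrier := {h | ∀ z ∈ KK A, h ⬝ᵥ z = 0}
  add_mem' := by
    intro x y hx hy z hz
    rw [add_dotProduct, hx z hz, hy z hz, add_zero]
  zero_mem' := by
    intro z hz
    exact zero_dotProduct z
  smul_mem' := by
    intro c x hx z hz
    rw [smul_dotProduct, hx z hz, smul_zero]

theorem mem_LL {h : n → R} : h ∈ LL A ↔ ∀ z ∈ KK A, h ⬝ᵥ z = 0 := Iff.rfl

/-- the module of coefficients -/
abbrev NQ := (n → R) ⧸ LL A

/-- the choices -/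
structure Dat where
  Bn : Type
  Bq : Type
  κ : (n → R) →ₗ[ZMod 2] (n → R)
  cN : (n → R) →ₗ[ZMod 2] (Bn →₀ ZMod 2)
  bh : Bn → (n → R)
  κ_mem : ∀ x, κ x ∈ KK A
  κ_id : ∀ x ∈ KK A, κ x = x
  cN_zero : ∀ x ∈ KK A, cN x = 0
  decN : ∀ x, x = κ x + Finsupp.linearCombination (ZMod 2) bh (cN x)
  cN_bh : ∀ b, cN (bh b) = Finsupp.single b 1
  κS : Matrix n n R →ₗ[ZMod 2] Matrix n n R
  cS : Matrix n n R →ₗ[ZMod 2] (Bq →₀ ZMod 2)
  qh : Bq → Matrix n n R
  κS_mem : ∀ x, κS x ∈ SS A
  κS_id : ∀ x ∈ SS A, κS x = x
  cS_zero : ∀ x ∈ SS A, cS x = 0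
  decS : ∀ x, x = κS x + Finsupp.linearCombination (ZMod 2) qh (cS x)
  cS_qh : ∀ b, cS (qh b) = Finsupp.single b 1
  τ : NQ A →ₗ[ZMod 2] (n → R)
  hτ : ∀ g, (LL A).mkQ (τ g) = g

theorem exists_dat : Nonempty (Dat A) := by
  obtain ⟨Bn, κ, cN, bh, h1, h2, h3, h4, h5⟩ := splitting (KK A)
  obtain ⟨Bq, κS, cS, qh, g1, g2, g3, g4, g5⟩ := splitting (SS A)
  let f : (n → R) →ₗ[ZMod 2] NQ A := (LL A).mkQ.restrictScalars (ZMod 2)
  obtain ⟨τ, hτ⟩ := f.exists_rightInverse_of_surjective
    (LinearMap.range_eq_top.mpr (Submodule.mkQ_surjective (LL A)))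
  exact ⟨⟨Bn, Bq, κ, cN, bh, h1, h2, h3, h4, h5, κS, cS, qh, g1, g2, g3, g4, g5, τ,
    fun g => LinearMap.congr_fun hτ g⟩⟩

variable {A} (D : Dat A)

abbrev Dat.W := List D.Bq × D.Bn

abbrev Dat.V := R × (D.W →₀ NQ A)

/-- embedding of columns -/
noncomputable def inj0 : (n → R) →ₗ[ZMod 2] (n → D.V) :=
  LinearMap.pi fun i => (LinearMap.inl (ZMod 2) R (D.W →₀ NQ A)) ∘ₗ LinearMap.proj i

/-- embedding of coefficients at a word -/
noncomputable def TT (w : D.W) : (n → NQ A) →ₗ[ZMod 2] (n → D.V) :=
  LinearMap.pi fun i => (LinearMap.inr (ZMod 2) R (D.W →₀ NQ A)) ∘ₗ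
    (Finsupp.lsingle w) ∘ₗ LinearMap.proj i

theorem inj0_apply (x : n → R) (i : n) : inj0 D x i = (x i, 0) := rfl

theorem TT_apply (w : D.W) (g : n → NQ A) (i : n) : TT D w g i = (0, Finsupp.single w (g i)) := rfl

variable (A) in
/-- the class of the identity matrix -/
def oneN : n → NQ A := fun i => (LL A).mkQ (Pi.single i 1)

/-- the basic generators -/
noncomputable def I1 (w : D.W) : n → D.V := TT D w (oneN A)

noncomputable def e0 : (n → R) →ₗ[ZMod 2] (n → D.V) :=
  inj0 D ∘ₗ D.κ + (Finsupp.linearCombination (ZMod 2) (fun b => I1 D ([], b))) ∘ₗ D.cN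

/-- lifting of coefficients to matrices -/
noncomputable def lft : (n → NQ A) →ₗ[ZMod 2] Matrix n n R where
  toFun g := Matrix.of fun i => D.τ (g i)
  map_add' x y := by
    ext i j
    simp
  map_smul' c x := by
    ext i j
    simp

variable (A) in
/-- classes of matrices -/
def prj : Matrix n n R →ₗ[ZMod 2] (n → NQ A) where
  toFun Y := fun i => (LL A).mkQ (Y i)
  map_add' x y := by
    funext i
    exact map_add (LL A).mkQ (x i) (y i)
  map_smul' c x := by
    funext i
    exact ((LL A).mkQ.restrictScalars (ZMod 2)).map_smul c (x i)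

theorem prj_apply (Y : Matrix n n R) (i : n) : prj A Y i = (LL A).mkQ (Y i) := rfl

theorem prj_lft (g : n → NQ A) : prj A (lft D g) = g := by
  funext i
  exact D.hτ (g i)

noncomputable def e1 (w : D.W) : (n → NQ A) →ₗ[ZMod 2] (n → D.V) :=
  (TT D w ∘ₗ prj A ∘ₗ D.κS +
    (Finsupp.linearCombination (ZMod 2) (fun q => I1 D (q :: w.1, w.2))) ∘ₗ D.cS) ∘ₗ lft D

/-- first components -/
noncomputable def fstn : (n → D.V) →ₗ[ZMod 2] (n → R) :=
  LinearMap.pi fun i => LinearMap.fst (ZMod 2) R (D.W →₀ NQ A) ∘ₗ LinearMap.proj i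

/-- second components -/
noncomputable def sndn : (n → D.V) →ₗ[ZMod 2] (D.W →₀ (n → NQ A)) :=
  ∑ i, (Finsupp.mapRange.linearMap (LinearMap.single (ZMod 2) (fun _ : n => NQ A) i)) ∘ₗ
    LinearMap.snd (ZMod 2) R (D.W →₀ NQ A) ∘ₗ LinearMap.proj i

theorem fstn_apply (z : n → D.V) (i : n) : fstn D z i = (z i).1 := rfl

theorem sndn_apply (z : n → D.V) (w : D.W) (i : n) : sndn D z w i = (z i).2 w := by
  rw [sndn, LinearMap.sum_apply, Finsupp.finsetSum_apply, Finset.sum_apply,
    Finset.sum_eq_single i]
  · simp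
  · intro j _ hj
    simp [hj.symm]
  · intro h
    exact absurd (Finset.mem_univ _) h

/-- the idempotent -/
noncomputable def eps : (n → D.V) →ₗ[ZMod 2] (n → D.V) :=
  e0 D ∘ₗ fstn D + (Finsupp.lsum (ZMod 2) (e1 D)) ∘ₗ sndn D

theorem eps_inj0 (x : n → R) : eps D (inj0 D x) = e0 D x := by
  have h1 : fstn D (inj0 D x) = x := rfl
  have h2 : sndn D (inj0 D x) = 0 := by
    ext w i
    rw [sndn_apply]
    rfl
  rw [eps, LinearMap.add_apply, LinearMap.comp_apply, LinearMap.comp_apply, h1, h2, map_zero,
    add_zero]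

theorem eps_TT (w : D.W) (g : n → NQ A) : eps D (TT D w g) = e1 D w g := by
  have h1 : fstn D (TT D w g) = 0 := rfl
  have h2 : sndn D (TT D w g) = Finsupp.single w g := by
    ext w' i
    rw [sndn_apply, TT_apply]
    by_cases h : w' = w
    · subst h
      simp
    · simp [Finsupp.single_eq_of_ne h]
  rw [eps, LinearMap.add_apply, LinearMap.comp_apply, LinearMap.comp_apply, h1, h2, map_zero,
    zero_add, Finsupp.lsum_single]

theorem decomp (z : n → D.V) :
    z = inj0 D (fstn D z) + ∑ w ∈ (sndn D z).support, TT D w (sndn D z w) := by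
  funext i
  rw [Pi.add_apply, Finset.sum_apply]
  refine Prod.ext ?_ ?_
  · rw [Prod.fst_add, Prod.fst_sum]
    simp [inj0_apply, TT_apply, fstn_apply]
  · rw [Prod.snd_add, Prod.snd_sum]
    simp only [inj0_apply, TT_apply, zero_add]
    ext w : 1
    rw [Finsupp.finsetSum_apply]
    by_cases hw : w ∈ (sndn D z).support
    · rw [Finset.sum_eq_single w]
      · rw [Finsupp.single_eq_same, sndn_apply]
      · intro w' _ hw'
        rw [Finsupp.single_eq_of_ne hw'.symm]
      · intro h
        exact absurd hw h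
    · rw [Finset.sum_eq_zero]
      · rw [Finsupp.notMem_support_iff] at hw
        rw [← sndn_apply, hw]
        rfl
      · intro w' hw'
        rw [Finsupp.single_eq_of_ne]
        rintro rfl
        exact hw hw'

theorem nind {p : (n → D.V) → Prop} (h0 : p 0) (hadd : ∀ x y, p x → p y → p (x + y))
    (h1 : ∀ x, p (inj0 D x)) (h2 : ∀ w g, p (TT D w g)) : ∀ z, p z := by
  intro z
  rw [decomp D z]
  refine hadd _ _ (h1 _) ?_
  exact Finset.sum_induction _ p hadd h0 (fun w _ => h2 w _)

/-! ### properties of the idempotent -/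

theorem mem_SS_of_prj_zero {Y : Matrix n n R} (h : prj A Y = 0) : Y ∈ SS A := by
  intro z hz
  have : Y *ᵥ z = 0 := by
    funext i
    have h1 : (LL A).mkQ (Y i) = 0 := congr_fun h i
    rw [Submodule.mkQ_apply, Submodule.Quotient.mk_eq_zero] at h1
    exact h1 z hz
  rw [this]
  exact Submodule.zero_mem _

theorem lft_prj_sub (Y : Matrix n n R) : lft D (prj A Y) - Y ∈ SS A :=
  mem_SS_of_prj_zero (by rw [map_sub, prj_lft, sub_self])

theorem lft_mem {Y : Matrix n n R} (hY : Y ∈ SS A) : lft D (prj A Y) ∈ SS A := by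
  have := Submodule.add_mem _ (lft_prj_sub D Y) hY
  rwa [sub_add_cancel] at this

theorem cS_lft_prj (Y : Matrix n n R) : D.cS (lft D (prj A Y)) = D.cS Y := by
  have := D.cS_zero _ (lft_prj_sub D Y)
  rwa [map_sub, sub_eq_zero] at this

theorem one_mem_SS : (1 : Matrix n n R) ∈ SS A := by
  intro z hz
  rw [Matrix.one_mulVec]
  exact hz

variable (A) in
theorem oneN_eq : oneN A = prj A 1 := by
  funext i
  rw [prj_apply, oneN]
  congr 1
  funext j
  rw [Matrix.one_apply, Pi.single_apply]
  simp only [eq_comm]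

/-- action of a row on a column of vectors -/
noncomputable def rowL (ζ : n → R) : (n → D.V) →ₗ[ZMod 2] D.V where
  toFun z := ∑ i, ζ i • z i
  map_add' x y := by simp [smul_add, Finset.sum_add_distrib]
  map_smul' c x := by
    simp only [Pi.smul_apply, RingHom.id_apply, Finset.smul_sum]
    refine Finset.sum_congr rfl fun i _ => ?_
    rw [smul_comm]

theorem rowL_apply (ζ : n → R) (z : n → D.V) : rowL D ζ z = ∑ i, ζ i • z i := rfl

theorem rowL_inj0 (ζ x : n → R) : rowL D ζ (inj0 D x) = (ζ ⬝ᵥ x, 0) := by
  rw [rowL_apply]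
  refine Prod.ext ?_ ?_
  · rw [Prod.fst_sum]
    rfl
  · rw [Prod.snd_sum]
    simp [inj0_apply]

theorem rowL_TT (ζ : n → R) (w : D.W) (Y : Matrix n n R) :
    rowL D ζ (TT D w (prj A Y)) = (0, Finsupp.single w ((LL A).mkQ (ζ ᵥ* Y))) := by
  rw [rowL_apply]
  refine Prod.ext ?_ ?_
  · rw [Prod.fst_sum]
    simp [TT_apply]
  · rw [Prod.snd_sum]
    simp only [TT_apply, Prod.smul_mk, smul_zero, Finsupp.smul_single]
    rw [← Finsupp.single_finsetSum]
    congr 1
    simp only [prj_apply, ← map_smul, ← map_sum]
    congr 1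
    funext j
    rw [Finset.sum_apply]
    rfl

theorem row_mem_LL (p : m) : A p ∈ LL A := fun z hz => congr_fun hz p

theorem vecMul_mem_LL {ζ : n → R} (hζ : ζ ∈ LL A) {Y : Matrix n n R} (hY : Y ∈ SS A) :
    ζ ᵥ* Y ∈ LL A := by
  intro z hz
  rw [← Matrix.dotProduct_mulVec]
  exact hζ _ (hY z hz)

theorem mkQ_zero {h : n → R} (hh : h ∈ LL A) : (LL A).mkQ h = 0 := by
  rw [Submodule.mkQ_apply, Submodule.Quotient.mk_eq_zero]
  exact hh

theorem rowL_TT_zero {ζ : n → R} (hζ : ζ ∈ LL A) (w : D.W) {Y : Matrix n n R} (hY : Y ∈ SS A) :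
    rowL D ζ (TT D w (prj A Y)) = 0 := by
  rw [rowL_TT, mkQ_zero (vecMul_mem_LL hζ hY), Finsupp.single_zero]
  rfl

theorem rowL_I1 {ζ : n → R} (hζ : ζ ∈ LL A) (w : D.W) : rowL D ζ (I1 D w) = 0 := by
  rw [I1, oneN_eq]
  exact rowL_TT_zero D hζ w one_mem_SS

theorem rowL_lc {ζ : n → R} (hζ : ζ ∈ LL A) {β : Type} (f : β → D.W) (c : β →₀ ZMod 2) :
    rowL D ζ (Finsupp.linearCombination (ZMod 2) (fun b => I1 D (f b)) c) = 0 := by
  rw [Finsupp.apply_linearCombination]
  have : (rowL D ζ) ∘ (fun b => I1 D (f b)) = fun _ => 0 := by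
    funext b
    exact rowL_I1 D hζ _
  rw [this]
  simp [Finsupp.linearCombination_apply]

theorem rowL_eps {ζ : n → R} (hζ : ζ ∈ LL A) (z : n → D.V) : rowL D ζ (eps D z) = 0 := by
  revert z
  refine nind D ?_ ?_ ?_ ?_
  · simp
  · intro x y hx hy
    rw [map_add, map_add, hx, hy, add_zero]
  · intro x
    rw [eps_inj0, e0, LinearMap.add_apply, LinearMap.comp_apply, LinearMap.comp_apply, map_add,
      rowL_inj0, rowL_lc D hζ, hζ _ (D.κ_mem x)]
    simp
  · intro w g
    rw [eps_TT, e1, LinearMap.comp_apply, LinearMap.add_apply, LinearMap.comp_apply,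
      LinearMap.comp_apply, LinearMap.comp_apply, map_add, rowL_lc D hζ,
      rowL_TT_zero D hζ w (D.κS_mem _), add_zero]

theorem eps_of_ker (z : n → D.V) (hz : ∀ p, rowL D (A p) z = 0) : eps D z = z := by
  have hx : fstn D z ∈ KK A := by
    rw [mem_KK]
    funext p
    have := congrArg Prod.fst (hz p)
    rw [rowL_apply, Prod.fst_sum] at this
    exact this
  have hY : ∀ w, lft D (sndn D z w) ∈ SS A := by
    intro w z' hz'
    rw [mem_KK, Matrix.mulVec_mulVec]
    funext p
    have h1 : (A * lft D (sndn D z w)) p ∈ LL A := by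
      rw [← Submodule.Quotient.mk_eq_zero, ← Submodule.mkQ_apply]
      have h2 : (A * lft D (sndn D z w)) p = ∑ i, A p i • (lft D (sndn D z w)) i := by
        funext j
        rw [Matrix.mul_apply, Finset.sum_apply]
        rfl
      rw [h2, map_sum]
      have h3 := congrArg (fun v : D.V => v.2 w) (hz p)
      rw [rowL_apply] at h3
      simp only [Prod.snd_sum, Finsupp.finsetSum_apply] at h3
      rw [← show ((0 : D.V).2 w) = 0 from rfl, ← h3]
      refine Finset.sum_congr rfl fun i _ => ?_
      rw [map_smul]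
      have h4 : (LL A).mkQ (lft D (sndn D z w) i) = sndn D z w i := D.hτ _
      rw [h4, sndn_apply]
      rfl
    exact h1 z' hz'
  have h1 : e0 D (fstn D z) = inj0 D (fstn D z) := by
    rw [e0, LinearMap.add_apply, LinearMap.comp_apply, LinearMap.comp_apply, D.κ_id _ hx,
      D.cN_zero _ hx, map_zero, add_zero]
  have h2 : ∀ w, e1 D w (sndn D z w) = TT D w (sndn D z w) := by
    intro w
    rw [e1, LinearMap.comp_apply, LinearMap.add_apply, LinearMap.comp_apply,
      LinearMap.comp_apply, LinearMap.comp_apply, D.κS_id _ (hY w), D.cS_zero _ (hY w), map_zero,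
      add_zero, prj_lft]
  conv_rhs => rw [decomp D z]
  rw [eps, LinearMap.add_apply, LinearMap.comp_apply, LinearMap.comp_apply, h1,
    Finsupp.lsum_apply, Finsupp.sum]
  congr 1
  exact Finset.sum_congr rfl fun w _ => h2 w

theorem eps_eps (z : n → D.V) : eps D (eps D z) = eps D z :=
  eps_of_ker D _ fun p => rowL_eps D (row_mem_LL p) z

/-! ### right multiplications -/

/-- images of the generators -/
noncomputable def PP (v : D.V) : List D.Bq → D.Bn → (n → D.V)
  | [], b => eps D (fun i => D.bh b i • v)
  | q :: l, b => eps D (fun i => rowL D (D.qh q i) (PP v l b))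

theorem rowL_PP {ζ : n → R} (hζ : ζ ∈ LL A) (v : D.V) (l : List D.Bq) (b : D.Bn) :
    rowL D ζ (PP D v l b) = 0 := by
  cases l <;> exact rowL_eps D hζ _

/-- images of coefficients at a word -/
noncomputable def phi (v : D.V) (w : D.W) : NQ A →ₗ[R] D.V :=
  (LL A).liftQ (Fintype.linearCombination R (PP D v w.1 w.2)) (by
    intro ζ hζ
    rw [LinearMap.mem_ker, Fintype.linearCombination_apply]
    exact rowL_PP D hζ v w.1 w.2)

theorem phi_mk (v : D.V) (w : D.W) (h : n → R) :
    phi D v w ((LL A).mkQ h) = rowL D h (PP D v w.1 w.2) := by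
  rw [phi, Submodule.mkQ_apply, Submodule.liftQ_apply, Fintype.linearCombination_apply]
  rfl

/-- right multiplication -/
noncomputable def rho (v : D.V) : D.V →ₗ[R] D.V :=
  LinearMap.coprod (LinearMap.toSpanSingleton R D.V v) (Finsupp.lsum ℕ (fun w : D.W => phi D v w))

theorem rho_inl (v : D.V) (t : R) : rho D v (t, 0) = t • v := by
  rw [rho, LinearMap.coprod_apply, map_zero, add_zero]
  rfl

theorem rho_single (v : D.V) (w : D.W) (g : NQ A) :
    rho D v (0, Finsupp.single w g) = phi D v w g := by
  rw [rho, LinearMap.coprod_apply, map_zero, zero_add]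
  exact Finsupp.lsum_single ..

/-- right multiplication on columns -/
noncomputable def RR (v : D.V) : (n → D.V) →ₗ[ZMod 2] (n → D.V) :=
  LinearMap.pi fun i => ((rho D v).restrictScalars (ZMod 2)) ∘ₗ LinearMap.proj i

theorem RR_apply (v : D.V) (z : n → D.V) (i : n) : RR D v z i = rho D v (z i) := rfl

theorem RR_inj0 (v : D.V) (x : n → R) : RR D v (inj0 D x) = fun i => x i • v := by
  funext i
  rw [RR_apply, inj0_apply, rho_inl]

/-- the action of matrices on the images of generators -/
noncomputable def actP (v : D.V) (w : D.W) : Matrix n n R →ₗ[ZMod 2] (n → D.V) :=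
  RR D v ∘ₗ TT D w ∘ₗ prj A

theorem actP_apply (v : D.V) (w : D.W) (Y : Matrix n n R) (i : n) :
    actP D v w Y i = rowL D (Y i) (PP D v w.1 w.2) := by
  rw [actP, LinearMap.comp_apply, LinearMap.comp_apply, RR_apply, TT_apply, rho_single, prj_apply,
    phi_mk]

theorem RR_I1 (v : D.V) (w : D.W) : RR D v (I1 D w) = PP D v w.1 w.2 := by
  funext i
  rw [I1, RR_apply, TT_apply, rho_single, oneN, phi_mk, rowL_apply, Finset.sum_eq_single i]
  · rw [Pi.single_eq_same, one_smul]
  · intro j _ hj
    rw [Pi.single_eq_of_ne hj, zero_smul]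
  · intro h
    exact absurd (Finset.mem_univ _) h

theorem rowL_actP (ζ : n → R) (v : D.V) (w : D.W) (Y : Matrix n n R) :
    rowL D ζ (actP D v w Y) = rowL D (ζ ᵥ* Y) (PP D v w.1 w.2) := by
  rw [rowL_apply]
  simp only [actP_apply, rowL_apply, Finset.smul_sum]
  rw [Finset.sum_comm]
  refine Finset.sum_congr rfl fun j _ => ?_
  have e1 : (ζ ᵥ* Y) j = ∑ i, ζ i * Y i j := rfl
  have e2 : (∑ i, ζ i * Y i j) • PP D v w.1 w.2 j = ∑ i, (ζ i * Y i j) • PP D v w.1 w.2 j :=
    Finset.sum_smul (R := R) (M := D.V) (s := Finset.univ) (f := fun i => ζ i * Y i j)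
      (x := PP D v w.1 w.2 j)
  rw [e1, e2]
  refine Finset.sum_congr rfl fun i _ => ?_
  exact smul_smul _ _ _

theorem commE (v : D.V) (z : n → D.V) : eps D (RR D v z) = RR D v (eps D z) := by
  revert z
  refine nind D ?_ ?_ ?_ ?_
  · simp
  · intro x y hx hy
    simp only [map_add, hx, hy]
  · intro x
    rw [eps_inj0, e0, LinearMap.add_apply, LinearMap.comp_apply, LinearMap.comp_apply, map_add]
    have h1 : eps D (RR D v (inj0 D x)) = eps D (RR D v (inj0 D (D.κ x))) +
        eps D (RR D v (inj0 D (Finsupp.linearCombination (ZMod 2) D.bh (D.cN x)))) := by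
      rw [← map_add, ← map_add, ← map_add, ← D.decN x]
    rw [h1]
    congr 1
    · apply eps_of_ker
      intro p
      rw [RR_inj0, rowL_apply]
      simp only [smul_smul]
      rw [← Finset.sum_smul]
      have : ∑ i, A p i * D.κ x i = 0 := congr_fun (D.κ_mem x) p
      rw [this, zero_smul]
    · rw [Finsupp.apply_linearCombination, Finsupp.apply_linearCombination,
        Finsupp.apply_linearCombination, Finsupp.apply_linearCombination]
      congr 2
      funext b
      simp only [Function.comp_apply]
      rw [RR_I1, RR_inj0]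
      rfl
  · intro w g
    rw [eps_TT, e1, LinearMap.comp_apply, LinearMap.add_apply, LinearMap.comp_apply,
      LinearMap.comp_apply, LinearMap.comp_apply, map_add]
    set Y := lft D g with hY
    have hg : g = prj A Y := (prj_lft D g).symm
    have h0 : RR D v (TT D w g) = actP D v w Y := by rw [hg]; rfl
    have h1 : eps D (RR D v (TT D w g)) = eps D (actP D v w (D.κS Y)) +
        eps D (actP D v w (Finsupp.linearCombination (ZMod 2) D.qh (D.cS Y))) := by
      rw [h0, ← map_add, ← map_add, ← D.decS Y]
    rw [h1]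
    congr 1
    · rw [eps_of_ker]
      · rfl
      · intro p
        rw [rowL_actP]
        exact rowL_PP D (vecMul_mem_LL (row_mem_LL p) (D.κS_mem _)) v _ _
    · rw [Finsupp.apply_linearCombination, Finsupp.apply_linearCombination,
        Finsupp.apply_linearCombination]
      congr 2
      funext q
      simp only [Function.comp_apply]
      rw [RR_I1]
      change _ = eps D (fun i => rowL D (D.qh q i) (PP D v w.1 w.2))
      congr 1
      funext i
      rw [actP_apply]

/-! ### coefficients and degrees -/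

theorem lc_apply {β : Type} (f : β → D.W) (hf : Function.Injective f) (c : β →₀ ZMod 2) (i : n)
    (b : β) : ((Finsupp.linearCombination (ZMod 2) (fun b => I1 D (f b)) c) i).2 (f b) =
      c b • oneN A i := by
  induction c using Finsupp.induction_linear with
  | zero => simp
  | add x y hx hy =>
    rw [map_add, Pi.add_apply, Prod.snd_add, Finsupp.add_apply, hx, hy, Finsupp.add_apply,
      add_smul]
  | single b' a =>
    rw [Finsupp.linearCombination_single]
    change a • (Finsupp.single (f b') (oneN A i)) (f b) = _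
    by_cases h : b' = b
    · subst h
      rw [Finsupp.single_eq_same, Finsupp.single_eq_same]
    · rw [Finsupp.single_eq_of_ne (fun h' => h (hf h'.symm)), Finsupp.single_eq_of_ne (Ne.symm h)]
      simp

theorem lc_apply_ne {β : Type} (f : β → D.W) (c : β →₀ ZMod 2) (i : n) (w : D.W)
    (hw : ∀ b, f b ≠ w) :
    ((Finsupp.linearCombination (ZMod 2) (fun b => I1 D (f b)) c) i).2 w = 0 := by
  induction c using Finsupp.induction_linear with
  | zero => simp
  | add x y hx hy =>
    rw [map_add, Pi.add_apply, Prod.snd_add, Finsupp.add_apply, hx, hy, add_zero]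
  | single b' a =>
    rw [Finsupp.linearCombination_single]
    change a • (Finsupp.single (f b') (oneN A i)) w = _
    rw [Finsupp.single_eq_of_ne (Ne.symm (hw b')), smul_zero]

theorem sndn_inj0 (x : n → R) : sndn D (inj0 D x) = 0 := by
  ext w i
  rw [sndn_apply]
  rfl

theorem sndn_TT (w : D.W) (g : n → NQ A) : sndn D (TT D w g) = Finsupp.single w g := by
  ext w' i
  rw [sndn_apply, TT_apply]
  by_cases h : w' = w
  · subst h
    simp
  · simp [Finsupp.single_eq_of_ne h]

theorem eps_cons (z : n → D.V) (i : n) (q : D.Bq) (l : List D.Bq) (b : D.Bn) :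
    (eps D z i).2 (q :: l, b) = (LL A).mkQ (D.κS (lft D (sndn D z (q :: l, b))) i) +
      D.cS (lft D (sndn D z (l, b))) q • oneN A i := by
  revert z
  refine nind D ?_ ?_ ?_ ?_
  · simp only [map_zero, Finsupp.zero_apply, zero_smul, add_zero]
    exact (map_zero (LL A).mkQ).symm
  · intro x y hx hy
    rw [map_add, Pi.add_apply, Prod.snd_add, Finsupp.add_apply, hx, hy]
    simp only [map_add, Finsupp.add_apply, add_smul]
    rw [show (D.κS (lft D (sndn D x (q :: l, b))) + D.κS (lft D (sndn D y (q :: l, b)))) i =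
      D.κS (lft D (sndn D x (q :: l, b))) i + D.κS (lft D (sndn D y (q :: l, b))) i from rfl,
      map_add]
    abel
  · intro x
    rw [sndn_inj0, eps_inj0, e0, LinearMap.add_apply, LinearMap.comp_apply, LinearMap.comp_apply,
      Pi.add_apply, Prod.snd_add, Finsupp.add_apply,
      lc_apply_ne D (fun b => ([], b)) _ _ _ (by intro b' h; simp at h)]
    simp only [Finsupp.zero_apply, map_zero]
    rw [zero_smul, show ((0 : Matrix n n R) i) = 0 from rfl, map_zero]
    rfl
  · intro w g
    rw [sndn_TT, eps_TT, e1, LinearMap.comp_apply, LinearMap.add_apply, LinearMap.comp_apply,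
      LinearMap.comp_apply, LinearMap.comp_apply, Pi.add_apply, Prod.snd_add, Finsupp.add_apply]
    congr 1
    · rw [TT_apply]
      by_cases h : w = (q :: l, b)
      · subst h
        rw [Finsupp.single_eq_same, Finsupp.single_eq_same]
        rfl
      · rw [Finsupp.single_eq_of_ne (Ne.symm h), Finsupp.single_eq_of_ne (Ne.symm h), map_zero,
          map_zero]
        rw [show ((0 : Matrix n n R) i) = 0 from rfl, map_zero]
    · by_cases h : w = (l, b)
      · subst h
        rw [Finsupp.single_eq_same]
        exact lc_apply D (fun q => (q :: l, b)) (fun q q' h => by simpa using h) _ i q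
      · rw [Finsupp.single_eq_of_ne (Ne.symm h), map_zero, map_zero, Finsupp.zero_apply,
          zero_smul]
        apply lc_apply_ne
        intro q' h'
        apply h
        simp only [Prod.mk.injEq, List.cons.injEq] at h'
        exact Prod.ext h'.1.2 h'.2

theorem eps_nil (z : n → D.V) (i : n) (b : D.Bn) :
    (eps D z i).2 ([], b) = (LL A).mkQ (D.κS (lft D (sndn D z ([], b))) i) +
      D.cN (fstn D z) b • oneN A i := by
  revert z
  refine nind D ?_ ?_ ?_ ?_
  · simp only [map_zero, Finsupp.zero_apply, zero_smul, add_zero]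
    exact (map_zero (LL A).mkQ).symm
  · intro x y hx hy
    rw [map_add, Pi.add_apply, Prod.snd_add, Finsupp.add_apply, hx, hy]
    simp only [map_add, Finsupp.add_apply, add_smul]
    rw [show (D.κS (lft D (sndn D x ([], b))) + D.κS (lft D (sndn D y ([], b)))) i =
      D.κS (lft D (sndn D x ([], b))) i + D.κS (lft D (sndn D y ([], b))) i from rfl,
      map_add]
    abel
  · intro x
    rw [sndn_inj0, eps_inj0, e0, LinearMap.add_apply, LinearMap.comp_apply, LinearMap.comp_apply,
      Pi.add_apply, Prod.snd_add, Finsupp.add_apply,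
      lc_apply D (fun b => ([], b)) (fun b b' h => by simpa using h)]
    simp only [Finsupp.zero_apply, map_zero]
    rw [show ((0 : Matrix n n R) i) = 0 from rfl, map_zero]
    rfl
  · intro w g
    rw [sndn_TT, eps_TT, e1, LinearMap.comp_apply, LinearMap.add_apply, LinearMap.comp_apply,
      LinearMap.comp_apply, LinearMap.comp_apply, Pi.add_apply, Prod.snd_add, Finsupp.add_apply]
    congr 1
    · rw [TT_apply]
      by_cases h : w = ([], b)
      · subst h
        rw [Finsupp.single_eq_same, Finsupp.single_eq_same]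
        rfl
      · rw [Finsupp.single_eq_of_ne (Ne.symm h), Finsupp.single_eq_of_ne (Ne.symm h), map_zero,
          map_zero]
        rw [show ((0 : Matrix n n R) i) = 0 from rfl, map_zero]
    · have h0 : fstn D (TT D w g) = 0 := rfl
      rw [h0, map_zero, Finsupp.zero_apply, zero_smul]
      apply lc_apply_ne
      intro q' h'
      simp at h'

/-- top coefficients of the columns `x v` -/
structure Top (v : D.V) (d : ℕ) (C : D.W → ((n → R) →ₗ[ZMod 2] ZMod 2)) : Prop where
  low : ∀ l b, d ≤ l.length → v.2 (l, b) = 0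
  top : ∀ (x : n → R) i l b, l.length = d →
    (eps D (fun i => x i • v) i).2 (l, b) = C (l, b) x • oneN A i
  high : ∀ (x : n → R) i l b, d < l.length → (eps D (fun i => x i • v) i).2 (l, b) = 0
  nondeg : ∀ x, (∀ l b, l.length = d → C (l, b) x = 0) → x ∈ KK A

/-- right multiplication of columns -/
noncomputable def rmul (t : R) : (n → R) →ₗ[ZMod 2] (n → R) :=
  LinearMap.pi fun i => LinearMap.mulRight (ZMod 2) t ∘ₗ LinearMap.proj i

/-- multiples of a coefficient -/
noncomputable def smulN (g : NQ A) : (n → R) →ₗ[ZMod 2] (n → NQ A) :=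
  LinearMap.pi fun i =>
    ((LinearMap.toSpanSingleton R (NQ A) g).restrictScalars (ZMod 2)) ∘ₗ LinearMap.proj i

theorem smulN_apply (g : NQ A) (x : n → R) (i : n) : smulN g x i = x i • g := rfl

/-- the top coefficients in positive degree -/
noncomputable def topC (F : D.W →₀ NQ A) : D.W → ((n → R) →ₗ[ZMod 2] ZMod 2)
  | ([], _) => 0
  | (q :: l, b) => Finsupp.lapply q ∘ₗ D.cS ∘ₗ lft D ∘ₗ smulN (F (l, b))

theorem top_exists [IsDomain R] (v : D.V) (hv : v ≠ 0) : ∃ d C, Top D v d C := by
  obtain ⟨t, F⟩ := v
  by_cases hF : F = 0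
  · subst hF
    have ht : t ≠ 0 := by
      rintro rfl
      exact hv rfl
    have hz : ∀ x : n → R, (fun i => x i • ((t, 0) : D.V)) = inj0 D (rmul t x) := by
      intro x
      funext i
      rw [inj0_apply]
      refine Prod.ext rfl ?_
      change x i • (0 : D.W →₀ NQ A) = 0
      rw [smul_zero]
    refine ⟨0, fun w => Finsupp.lapply w.2 ∘ₗ D.cN ∘ₗ rmul t, ?_, ?_, ?_, ?_⟩
    · intro l b _
      rfl
    · intro x i l b hl
      rw [List.length_eq_zero_iff] at hl
      subst hl
      rw [hz, eps_nil, sndn_inj0, Finsupp.zero_apply, map_zero, map_zero]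
      rw [show ((0 : Matrix n n R) i) = 0 from rfl, map_zero, zero_add]
      rfl
    · intro x i l b hl
      rcases l with _ | ⟨q, l⟩
      · simp at hl
      · rw [hz, eps_cons, sndn_inj0, Finsupp.zero_apply, Finsupp.zero_apply, map_zero, map_zero,
          map_zero, Finsupp.zero_apply, zero_smul]
        rw [show ((0 : Matrix n n R) i) = 0 from rfl, map_zero, zero_add]
    · intro x hx
      have h1 : D.cN (rmul t x) = 0 := by
        ext b
        exact hx [] b rfl
      have h2 : rmul t x ∈ KK A := by
        rw [D.decN (rmul t x), h1, map_zero, add_zero]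
        exact D.κ_mem _
      rw [mem_KK] at h2 ⊢
      funext p
      have h3 := congr_fun h2 p
      have h4 : (A *ᵥ (rmul t x)) p = (A *ᵥ x) p * t := by
        change ∑ i, A p i * (x i * t) = (∑ i, A p i * x i) * t
        rw [Finset.sum_mul]
        exact Finset.sum_congr rfl fun i _ => (mul_assoc _ _ _).symm
      rw [h4] at h3
      rcases mul_eq_zero.mp h3 with h | h
      · exact h
      · exact absurd h ht
  · have hne : F.support.Nonempty := Finsupp.support_nonempty_iff.mpr hF
    obtain ⟨⟨l₀, b₀⟩, hw₀, hmax⟩ := Finset.exists_max_image F.support (fun w => w.1.length) hne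
    have hF0 : ∀ l b, l₀.length < l.length → F (l, b) = 0 := by
      intro l b hl
      by_contra h
      have := hmax (l, b) (Finsupp.mem_support_iff.mpr h)
      simp only at this
      omega
    have hs : ∀ (x : n → R) (w : D.W), sndn D (fun i => x i • ((t, F) : D.V)) w =
        smulN (F w) x := by
      intro x w
      funext i
      rw [sndn_apply]
      rfl
    refine ⟨l₀.length + 1, topC D F, ?_, ?_, ?_, ?_⟩
    · intro l b hl
      exact hF0 l b (by omega)
    · intro x i l b hl
      rcases l with _ | ⟨q, l⟩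
      · simp at hl
      · have h1 : smulN (F (q :: l, b)) x = 0 := by
          rw [hF0 _ _ (by omega)]
          funext i
          rw [smulN_apply, smul_zero]
          rfl
        rw [eps_cons, hs, hs, h1, map_zero, map_zero]
        rw [show ((0 : Matrix n n R) i) = 0 from rfl, map_zero, zero_add]
        rfl
    · intro x i l b hl
      rcases l with _ | ⟨q, l⟩
      · simp at hl
      · have h1 : smulN (F (q :: l, b)) x = 0 := by
          rw [hF0 _ _ (by omega)]
          funext i
          rw [smulN_apply, smul_zero]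
          rfl
        have h2 : smulN (F (l, b)) x = 0 := by
          simp only [List.length_cons] at hl
          rw [hF0 _ _ (by omega)]
          funext i
          rw [smulN_apply, smul_zero]
          rfl
        rw [eps_cons, hs, hs, h1, h2, map_zero, map_zero, map_zero, Finsupp.zero_apply,
          zero_smul]
        rw [show ((0 : Matrix n n R) i) = 0 from rfl, map_zero, zero_add]
    · intro x hx
      have h1 : D.cS (lft D (smulN (F (l₀, b₀)) x)) = 0 := by
        ext q
        exact hx (q :: l₀) b₀ (by simp)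
      have h2 : lft D (smulN (F (l₀, b₀)) x) ∈ SS A := by
        rw [D.decS (lft D (smulN (F (l₀, b₀)) x)), h1, map_zero, add_zero]
        exact D.κS_mem _
      set h := D.τ (F (l₀, b₀)) with hh
      have h3 : ∃ z ∈ KK A, h ⬝ᵥ z ≠ 0 := by
        by_contra hcon
        push Not at hcon
        have h4 : h ∈ LL A := hcon
        have h5 := mkQ_zero h4
        rw [hh, D.hτ] at h5
        exact Finsupp.mem_support_iff.mp hw₀ h5
      obtain ⟨z, hz, hzs⟩ := h3
      have h6 := h2 z hz
      rw [mem_KK] at h6 ⊢
      have h7 : (lft D (smulN (F (l₀, b₀)) x)) *ᵥ z = fun i => x i * (h ⬝ᵥ z) := by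
        funext i
        have h8 : (lft D (smulN (F (l₀, b₀)) x)) i - x i • h ∈ LL A := by
          rw [← Submodule.Quotient.mk_eq_zero, ← Submodule.mkQ_apply, map_sub, map_smul, hh, D.hτ]
          have h9 : (LL A).mkQ (lft D (smulN (F (l₀, b₀)) x) i) = x i • F (l₀, b₀) := D.hτ _
          rw [h9, sub_self]
        have h10 := h8 z hz
        rw [sub_dotProduct, smul_dotProduct, sub_eq_zero, smul_eq_mul] at h10
        exact h10
      rw [h7] at h6
      funext p
      have h8 := congr_fun h6 p
      have h9 : (A *ᵥ (fun i => x i * (h ⬝ᵥ z))) p = (A *ᵥ x) p * (h ⬝ᵥ z) := by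
        change ∑ i, A p i * (x i * (h ⬝ᵥ z)) = (∑ i, A p i * x i) * (h ⬝ᵥ z)
        rw [Finset.sum_mul]
        exact Finset.sum_congr rfl fun i _ => (mul_assoc _ _ _).symm
      rw [h9] at h8
      rcases mul_eq_zero.mp h8 with h | h
      · exact h
      · exact absurd h hzs

variable {D} in
theorem sum_oneN (h : n → R) (c : ZMod 2) : ∑ j, h j • (c • oneN A j) = c • (LL A).mkQ h := by
  have h1 : (LL A).mkQ h = ∑ j, h j • oneN A j := by
    have h2 : h = ∑ j, h j • (Pi.single j (1 : R) : n → R) := by
      funext i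
      rw [Finset.sum_apply, Finset.sum_eq_single i]
      · simp
      · intro j _ hj
        simp [Pi.single_apply, hj.symm]
      · intro h
        exact absurd (Finset.mem_univ _) h
    conv_lhs => rw [h2]
    rw [map_sum]
    refine Finset.sum_congr rfl fun j _ => ?_
    rw [map_smul]
    rfl
  rw [h1, Finset.smul_sum]
  refine Finset.sum_congr rfl fun j _ => ?_
  rw [smul_comm]

theorem rowL_snd (ζ : n → R) (z : n → D.V) (w : D.W) :
    (rowL D ζ z).2 w = ∑ j, ζ j • (z j).2 w := by
  rw [rowL_apply, Prod.snd_sum, Finsupp.finsetSum_apply]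
  rfl

open Classical in
theorem PP_coef {v : D.V} {d : ℕ} {C : D.W → ((n → R) →ₗ[ZMod 2] ZMod 2)} (hT : Top D v d C)
    (l : List D.Bq) (b : D.Bn) :
    (∀ L b' i, l.length + d < L.length → (PP D v l b i).2 (L, b') = 0) ∧
    (∀ L b' i, L.length = l.length + d → (PP D v l b i).2 (L, b') =
      (if L.take l.length = l then C (L.drop l.length, b') (D.bh b) else 0) • oneN A i) := by
  induction l with
  | nil =>
    refine ⟨fun L b' i hL => hT.high _ _ _ _ (by simpa using hL), fun L b' i hL => ?_⟩
    rw [PP, hT.top _ _ _ _ (by simpa using hL)]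
    simp
  | cons q l ih =>
    obtain ⟨ih1, ih2⟩ := ih
    have hs0 : ∀ L b', l.length + d < L.length →
        sndn D (fun i => rowL D (D.qh q i) (PP D v l b)) (L, b') = 0 := by
      intro L b' hL
      funext i
      rw [sndn_apply, rowL_snd]
      apply Finset.sum_eq_zero
      intro j _
      rw [ih1 _ _ _ hL, smul_zero]
    have hs1 : ∀ L b', L.length = l.length + d →
        sndn D (fun i => rowL D (D.qh q i) (PP D v l b)) (L, b') =
        (if L.take l.length = l then C (L.drop l.length, b') (D.bh b) else 0) •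
          prj A (D.qh q) := by
      intro L b' hL
      funext i
      rw [sndn_apply, rowL_snd]
      simp only [ih2 _ _ _ hL]
      rw [sum_oneN]
      rfl
    constructor
    · intro L b' i hL
      simp only [List.length_cons] at hL
      rcases L with _ | ⟨q', L⟩
      · simp at hL
      · simp only [List.length_cons] at hL
        rw [PP, eps_cons, hs0 _ _ (by simp only [List.length_cons]; omega), hs0 _ _ (by omega),
          map_zero, map_zero, map_zero, Finsupp.zero_apply, zero_smul]
        rw [show ((0 : Matrix n n R) i) = 0 from rfl, map_zero, zero_add]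
    · intro L b' i hL
      simp only [List.length_cons] at hL
      rcases L with _ | ⟨q', L⟩
      · simp at hL
        omega
      · simp only [List.length_cons] at hL
        rw [PP, eps_cons, hs0 _ _ (by simp only [List.length_cons]; omega),
          hs1 _ _ (by omega), map_zero, map_zero, map_smul, map_smul, cS_lft_prj, D.cS_qh,
          Finsupp.smul_apply]
        rw [show ((0 : Matrix n n R) i) = 0 from rfl, map_zero, zero_add]
        congr 1
        simp only [List.length_cons, List.take_succ_cons, List.drop_succ_cons, List.cons.injEq]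
        by_cases hq : q' = q
        · subst hq
          rw [Finsupp.single_eq_same]
          simp
        · rw [Finsupp.single_eq_of_ne hq, smul_zero, if_neg (fun h => hq h.1)]

open Classical in
theorem phi_coef {v : D.V} {d : ℕ} {C : D.W → ((n → R) →ₗ[ZMod 2] ZMod 2)} (hT : Top D v d C)
    (w : D.W) (g : NQ A) :
    (∀ L b', w.1.length + d < L.length → (phi D v w g).2 (L, b') = 0) ∧
    (∀ L b', L.length = w.1.length + d → (phi D v w g).2 (L, b') =
      (if L.take w.1.length = w.1 then C (L.drop w.1.length, b') (D.bh w.2) else 0) • g) := by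
  obtain ⟨h1, h2⟩ := PP_coef D hT w.1 w.2
  have hg : g = (LL A).mkQ (D.τ g) := (D.hτ g).symm
  constructor
  · intro L b' hL
    rw [hg, phi_mk, rowL_snd]
    apply Finset.sum_eq_zero
    intro j _
    rw [h1 _ _ _ hL, smul_zero]
  · intro L b' hL
    conv_lhs => rw [hg]
    rw [phi_mk, rowL_snd]
    simp only [h2 _ _ _ hL]
    rw [sum_oneN, ← hg]

theorem rho_apply (v u : D.V) :
    rho D v u = u.1 • v + ∑ w ∈ u.2.support, phi D v w (u.2 w) := by
  rw [rho, LinearMap.coprod_apply]
  rfl

theorem dom_prop [IsDomain R] (u v : D.V) (hc : ∃ c : R, rho D v u = c • ((1, 0) : D.V)) :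
    u = 0 ∨ v = 0 ∨ ((∃ c : R, u = c • ((1, 0) : D.V)) ∧ (∃ c : R, v = c • ((1, 0) : D.V))) := by
  classical
  by_cases hv : v = 0
  · exact Or.inr (Or.inl hv)
  obtain ⟨c, hc⟩ := hc
  obtain ⟨t, G⟩ := u
  by_cases hG : G = 0
  · subst hG
    by_cases ht : t = 0
    · subst ht
      exact Or.inl rfl
    right; right
    refine ⟨⟨t, ?_⟩, v.1, ?_⟩
    · refine Prod.ext ?_ ?_
      · change t = t * 1
        rw [mul_one]
      · change (0 : D.W →₀ NQ A) = t • 0
        rw [smul_zero]
    · rw [rho_inl] at hc
      refine Prod.ext ?_ ?_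
      · change v.1 = v.1 * 1
        rw [mul_one]
      · change v.2 = v.1 • (0 : D.W →₀ NQ A)
        rw [smul_zero]
        ext w
        have h1 : t • v.2 w = 0 := by
          have := congrArg (fun z : D.V => z.2 w) hc
          change t • v.2 w = (c • (0 : D.W →₀ NQ A)) w at this
          rw [smul_zero] at this
          exact this
        have h2 : D.τ (v.2 w) ∈ LL A := by
          have h3 : t • D.τ (v.2 w) ∈ LL A := by
            rw [← Submodule.Quotient.mk_eq_zero, ← Submodule.mkQ_apply, map_smul, D.hτ, h1]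
          intro z hz
          have h4 := h3 z hz
          rw [smul_dotProduct, smul_eq_mul] at h4
          rcases mul_eq_zero.mp h4 with h | h
          · exact absurd h ht
          · exact h
        have h5 := mkQ_zero h2
        rw [D.hτ] at h5
        exact h5
  · exfalso
    obtain ⟨d, C, hT⟩ := top_exists D v hv
    have hne : G.support.Nonempty := Finsupp.support_nonempty_iff.mpr hG
    obtain ⟨⟨l₀, b₀⟩, hw₀, hmax⟩ := Finset.exists_max_image G.support (fun w => w.1.length) hne
    -- the vanishing of the top coefficients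
    have h1 : ∀ L b', L.length = d →
        ∑ w ∈ G.support, (if w.1 = l₀ then C (L, b') (D.bh w.2) else 0) • G w = 0 := by
      intro L b' hL
      have h2 := congrArg (fun z : D.V => z.2 (l₀ ++ L, b')) hc
      rw [rho_apply] at h2
      have h3 : (c • ((1, 0) : D.V)).2 (l₀ ++ L, b') = 0 := by
        change (c • (0 : D.W →₀ NQ A)) (l₀ ++ L, b') = 0
        rw [smul_zero]
        rfl
      simp only [Prod.snd_add, Finsupp.add_apply, Prod.snd_sum, Finsupp.finsetSum_apply] at h2
      rw [h3] at h2
      have h4 : (t • v).2 (l₀ ++ L, b') = 0 := by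
        change t • v.2 (l₀ ++ L, b') = 0
        rw [hT.low _ _ (by rw [List.length_append]; omega), smul_zero]
      rw [h4, zero_add] at h2
      rw [← h2]
      refine Finset.sum_congr rfl fun w hw => ?_
      obtain ⟨g1, g2⟩ := phi_coef D hT w (G w)
      have hwl : w.1.length ≤ l₀.length := hmax w hw
      by_cases hl : w.1.length = l₀.length
      · rw [g2 _ _ (by rw [List.length_append]; omega), hl, List.take_left, List.drop_left]
        simp only [eq_comm]
      · rw [g1 _ _ (by rw [List.length_append]; omega), if_neg (fun h => hl (by rw [h])),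
          zero_smul]
    -- a functional
    have h2 : ∃ lam : NQ A →ₗ[ZMod 2] ZMod 2, lam (G (l₀, b₀)) ≠ 0 := by
      by_contra hcon
      push Not at hcon
      exact Finsupp.mem_support_iff.mp hw₀
        ((Module.forall_dual_apply_eq_zero_iff (ZMod 2) (G (l₀, b₀))).mp hcon)
    obtain ⟨lam, hlam⟩ := h2
    set x : n → R := ∑ w ∈ G.support, (if w.1 = l₀ then lam (G w) else 0) • D.bh w.2 with hx
    have h3 : x ∈ KK A := by
      apply hT.nondeg
      intro L b' hL
      have h4 := congrArg lam (h1 L b' hL)
      rw [map_zero, map_sum] at h4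
      have h5 : C (L, b') x = ∑ w ∈ G.support,
          lam ((if w.1 = l₀ then C (L, b') (D.bh w.2) else 0) • G w) := by
        rw [hx, map_sum]
        refine Finset.sum_congr rfl fun w _ => ?_
        rw [map_smul, map_smul]
        by_cases h : w.1 = l₀
        · rw [if_pos h, if_pos h, smul_eq_mul, smul_eq_mul, mul_comm]
        · rw [if_neg h, if_neg h, zero_smul, zero_smul]
      rw [h5, h4]
    have h4 : D.cN x b₀ = lam (G (l₀, b₀)) := by
      rw [hx, map_sum, Finsupp.finsetSum_apply, Finset.sum_eq_single (l₀, b₀)]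
      · rw [if_pos rfl, map_smul, D.cN_bh, Finsupp.smul_apply, Finsupp.single_eq_same,
          smul_eq_mul, mul_one]
      · intro w _ hw
        rw [map_smul, D.cN_bh, Finsupp.smul_apply]
        by_cases h : w.1 = l₀
        · rw [Finsupp.single_eq_of_ne, smul_zero]
          rintro h'
          apply hw
          exact Prod.ext h h'.symm
        · rw [if_neg h, zero_smul]
      · intro h
        exact absurd hw₀ h
    rw [D.cN_zero x h3] at h4
    exact hlam h4.symm

variable (A) in
/-- Step E -/
theorem stepE_aux (hR : Good R) :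
    ∃ (S : Type) (_ : Ring S) (φ : R →+* S), Good S ∧ Function.Injective φ ∧
      ∃ e : Matrix n n S, e * e = e ∧ A.map φ * e = 0 ∧
        ∀ X : Matrix n Unit S, A.map φ * X = 0 → e * X = X := by
  have hdom := hR.dom
  obtain ⟨D⟩ := exists_dat A
  let one : D.V := (1, 0)
  have hone : ∀ c : R, c • one = 0 → c = 0 := by
    intro c hc
    have := congrArg Prod.fst hc
    change c * 1 = 0 at this
    rwa [mul_one] at this
  have hrho : ∀ v, rho D v one = v := by
    intro v
    rw [rho_inl, one_smul]
  let S := opRing (rho D) ⊤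
  have hsum : ∀ {ι : Type} (s : Finset ι) (f : ι → S) (z : D.V),
      ((∑ k ∈ s, f k : S) : AddMonoid.End D.V) z = ∑ k ∈ s, (f k : AddMonoid.End D.V) z := by
    intro ι s f z
    let ev : S →+ D.V :=
      { toFun := fun T => (T : AddMonoid.End D.V) z
        map_zero' := rfl
        map_add' := fun _ _ => rfl }
    exact map_sum ev f s
  have hext : ∀ T T' : S, (T : AddMonoid.End D.V) one = (T' : AddMonoid.End D.V) one → T = T' := by
    intro T T' h
    apply Subtype.ext
    apply AddMonoidHom.ext
    intro x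
    have h1 := T.2.1 x one
    have h2 := T'.2.1 x one
    rw [hrho] at h1 h2
    exact h1.trans ((congrArg _ h).trans h2.symm)
  let eij : n → n → (D.V →+ D.V) := fun i j =>
    { toFun := fun x => eps D (Pi.single j x) i
      map_zero' := by simp
      map_add' := fun x y => by rw [Pi.single_add, map_add, Pi.add_apply] }
  let e : Matrix n n S := Matrix.of fun i j => ⟨eij i j, by
    constructor
    · intro v x
      change eps D (Pi.single j (rho D v x)) i = rho D v (eps D (Pi.single j x) i)
      have h1 : (Pi.single j (rho D v x) : n → D.V) = RR D v (Pi.single j x) := by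
        funext l
        rw [RR_apply]
        by_cases h : l = j
        · subst h
          simp
        · simp [Pi.single_apply, h]
      rw [h1, commE]
      rfl
    · intro x _
      trivial⟩
  have he : ∀ i j x, ((e i j : S) : AddMonoid.End D.V) x = eps D (Pi.single j x) i := by
    intro i j x
    rfl
  have hmul : ∀ (T T' : S) x, ((T * T' : S) : AddMonoid.End D.V) x =
      (T : AddMonoid.End D.V) ((T' : AddMonoid.End D.V) x) := fun T T' x => rfl
  have hvec : ∀ (z : n → D.V), ∑ j, eps D (Pi.single j (z j)) = eps D z := by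
    intro z
    rw [← map_sum]
    congr 1
    funext i
    rw [Finset.sum_apply, Finset.sum_eq_single i]
    · simp
    · intro j _ hj
      simp [Pi.single_apply, hj.symm]
    · intro h
      exact absurd (Finset.mem_univ _) h
  refine ⟨S, inferInstance, scal _ _, opRing_good hR _ _ one trivial hone hrho ?_,
    scal_injective _ _ one hone, e, ?_, ?_, ?_⟩
  · intro u _ v _ hc
    exact dom_prop D u v hc
  · ext i j : 1
    apply hext
    rw [Matrix.mul_apply, hsum]
    simp only [hmul, he]
    have h1 := congr_fun (hvec (eps D (Pi.single j one))) i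
    rw [Finset.sum_apply] at h1
    rw [h1, eps_eps]
  · ext p j : 1
    apply hext
    rw [Matrix.mul_apply, hsum]
    simp only [hmul, he, Matrix.map_apply, scal_apply]
    exact rowL_eps D (row_mem_LL p) _
  · intro X hX
    ext i u : 1
    apply hext
    rw [Matrix.mul_apply, hsum]
    simp only [hmul, he]
    set z : n → D.V := fun i => ((X i u : S) : AddMonoid.End D.V) one with hz
    have h1 := congr_fun (hvec z) i
    rw [Finset.sum_apply] at h1
    refine h1.trans ?_
    rw [eps_of_ker D z]
    intro p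
    have h2 := congr_fun (congr_fun hX p) u
    rw [Matrix.mul_apply] at h2
    have h3 := congrArg (fun T : S => (T : AddMonoid.End D.V) one) h2
    simp only [hsum, hmul, Matrix.map_apply, scal_apply] at h3
    exact h3

end
end SE

/-- kernel splitting, right kernel -/
theorem stepE {R : Type} [Ring R] (hR : Good R) {m n : Type} [Fintype m] [Fintype n]
    [DecidableEq m] [DecidableEq n] (A : Matrix m n R) :
    ∃ (S : Type) (_ : Ring S) (φ : R →+* S), Good S ∧ Function.Injective φ ∧
      ∃ e : Matrix n n S, e * e = e ∧ A.map φ * e = 0 ∧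
        ∀ X : Matrix n Unit S, A.map φ * X = 0 → e * X = X := by
  have hdom := hR.dom
  have hchar : CharP R 2 := CharTwo.of_one_ne_zero_of_two_eq_zero one_ne_zero hR.two
  let _ : Algebra (ZMod 2) R := ZMod.algebra R 2
  exact SE.stepE_aux A hR

end Pool.Agent.RDOre
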