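import Pool.Agent.RDOre.StepE
set_option autoImplicit false

namespace Pool.Agent.RDOre

open Matrix

/-- left kernel splitting from right kernel splitting, by passing to the opposite rings -/
theorem stepE'_aux {R : Type} [Ring R] (hR : Good R) {m n : Type} [Fintype m] [Fintype n]
    [DecidableEq m] [DecidableEq n] (A : Matrix m n R)
    (stepE : ∀ {R : Type} [Ring R] (_hR : Good R) {m n : Type} [Fintype m] [Fintype n]
      [DecidableEq m] [DecidableEq n] (A : Matrix m n R),
      ∃ (S : Type) (_ : Ring S) (φ : R →+* S), Good S ∧ Function.Injective φ ∧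
      ∃ e : Matrix n n S, e * e = e ∧ A.map φ * e = 0 ∧
        ∀ X : Matrix n Unit S, A.map φ * X = 0 → e * X = X) :
    ∃ (S : Type) (_ : Ring S) (φ : R →+* S), Good S ∧ Function.Injective φ ∧
      ∃ f : Matrix m m S, f * f = f ∧ f * A.map φ = 0 ∧
        ∀ Y : Matrix Unit m S, Y * A.map φ = 0 → Y * f = Y := by
  have hop : ∀ (T : Type) [Ring T], Good T → Good Tᵐᵒᵖ := by
    intro T _ hT
    have := hT.dom
    refine ⟨inferInstance, ?_, ?_⟩
    · apply MulOpposite.unop_injective
      have := hT.two
      simpa using this
    · intro u v h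
      have h1 : v.unop * u.unop = 1 := by
        have := congrArg MulOpposite.unop h
        simpa using this
      have h2 := hT.units _ _ h1
      rw [h2, one_mul] at h1
      apply MulOpposite.unop_injective
      rw [h1]
      rfl
  obtain ⟨S, _, φ, hS, hφ, e, he, hAe, hX⟩ :=
    stepE (R := Rᵐᵒᵖ) (hop R hR) (m := n) (n := m) (Matrix.of fun j i => MulOpposite.op (A i j))
  let ψ : R →+* Sᵐᵒᵖ :=
    { toFun := fun r => MulOpposite.op (φ (MulOpposite.op r))
      map_one' := by simp
      map_mul' := by intro a b; simp
      map_zero' := by simp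
      map_add' := by intro a b; simp }
  have hψ : ∀ r, ψ r = MulOpposite.op (φ (MulOpposite.op r)) := fun r => rfl
  refine ⟨Sᵐᵒᵖ, inferInstance, ψ, hop S hS, ?_, Matrix.of fun i j => MulOpposite.op (e j i), ?_, ?_, ?_⟩
  · intro a b h
    rw [hψ, hψ] at h
    exact MulOpposite.op_injective (hφ (MulOpposite.op_injective h))
  · ext i j
    apply MulOpposite.unop_injective
    have := congrFun (congrFun he j) i
    rw [Matrix.mul_apply] at this ⊢
    simp only [Matrix.of_apply, MulOpposite.unop_op]
    rw [← this]
    simp
  · ext i j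
    apply MulOpposite.unop_injective
    have := congrFun (congrFun hAe j) i
    rw [Matrix.mul_apply] at this ⊢
    simp only [Matrix.map_apply, Matrix.zero_apply] at this
    simp only [Matrix.map_apply, hψ, Matrix.zero_apply, MulOpposite.unop_zero]
    rw [← this]
    simp
  · intro Y hY
    have hX' := hX (Matrix.of fun i _ => (Y () i).unop) (by
      ext j u
      have := congrArg MulOpposite.unop (congrFun (congrFun hY ()) j)
      rw [Matrix.mul_apply] at this ⊢
      simp only [Matrix.map_apply, Matrix.zero_apply, hψ] at this ⊢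
      simpa using this)
    ext u j
    apply MulOpposite.unop_injective
    have := congrFun (congrFun hX' j) ()
    rw [Matrix.mul_apply] at this ⊢
    simpa using this


/-- kernel splitting, left kernel -/
theorem stepE' {R : Type} [Ring R] (hR : Good R) {m n : Type} [Fintype m] [Fintype n]
    [DecidableEq m] [DecidableEq n] (A : Matrix m n R) :
    ∃ (S : Type) (_ : Ring S) (φ : R →+* S), Good S ∧ Function.Injective φ ∧
      ∃ f : Matrix m m S, f * f = f ∧ f * A.map φ = 0 ∧
        ∀ Y : Matrix Unit m S, Y * A.map φ = 0 → Y * f = Y :=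
  stepE'_aux hR A (fun {_} _ hR {_ _} _ _ _ _ A => stepE hR A)

end Pool.Agent.RDOre
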